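import Mathlib

set_option autoImplicit false
set_option linter.style.haveILetI false

open Finset Real

namespace Pool.Agent.ThetaSum

lemma theta_diff {x : ℝ} (hx : 6250000 ≤ x) : x ≤ Chebyshev.theta (4 * x) - Chebyshev.theta x := by
  have h1 := Chebyshev.theta_ge' (x := 4 * x) (by linarith)
  have h2 := Chebyshev.theta_le_log4_mul_x (x := x) (by linarith)
  have hl2 : (0.6931471803 : ℝ) < Real.log 2 := Real.log_two_gt_d9
  have hl2' : Real.log 2 < 0.6931471808 := Real.log_two_lt_d9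
  have hl4 : Real.log 4 = 2 * Real.log 2 := by
    rw [show (4 : ℝ) = 2 ^ 2 by norm_num, Real.log_pow]; push_cast; ring
  set s : ℝ := √(√x) with hs
  have hx0 : 0 ≤ x := by linarith
  have hs2 : s ^ 2 = √x := Real.sq_sqrt (Real.sqrt_nonneg x)
  have hs4 : s ^ 4 = x := by
    have : s ^ 4 = (s ^ 2) ^ 2 := by ring
    rw [this, hs2, Real.sq_sqrt hx0]
  have hs50 : 50 ≤ s := by
    rw [hs]
    apply Real.le_sqrt_of_sq_le
    apply Real.le_sqrt_of_sq_le
    norm_num
    exact hx
  have hspos : 0 < s := by linarith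
  have hlogs : Real.log s ≤ s - 1 := Real.log_le_sub_one_of_pos hspos
  have hlogx : Real.log x = 4 * Real.log s := by
    rw [← hs4, Real.log_pow]; push_cast; ring
  have hlog4x : Real.log (4 * x) ≤ 4 * s := by
    rw [Real.log_mul (by norm_num) (by linarith), hlogx, hl4]
    linarith
  have hlog4x0 : 0 ≤ Real.log (4 * x) := Real.log_nonneg (by linarith)
  have hlog2 : Real.log (4 * x + 2) ≤ 4 * s := by
    have h3 : Real.log (4 * x + 2) ≤ Real.log (6 * x) := Real.log_le_log (by linarith) (by linarith)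
    have h4 : Real.log (6 * x) = Real.log 6 + Real.log x := Real.log_mul (by norm_num) (by linarith)
    have h5 : Real.log 6 ≤ 3 * Real.log 2 := by
      have : Real.log 6 ≤ Real.log (2 ^ 3) := Real.log_le_log (by norm_num) (by norm_num)
      rw [Real.log_pow] at this
      push_cast at this
      exact this
    rw [h4, hlogx] at h3
    linarith
  have hsqrt : √(4 * x) = 2 * s ^ 2 := by
    rw [Real.sqrt_mul (by norm_num), hs2]
    congr 1
    rw [show (4 : ℝ) = 2 ^ 2 by norm_num, Real.sqrt_sq (by norm_num)]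
  rw [hsqrt] at h1
  have h6 : 2 * (2 * s ^ 2) * Real.log (4 * x) ≤ 2 * (2 * s ^ 2) * (4 * s) :=
    mul_le_mul_of_nonneg_left hlog4x (by positivity)
  rw [hl4] at h2
  have h7 : x * (2 * Real.log 2 - 1) ≥ s ^ 4 * (0.386 : ℝ) := by
    rw [hs4]
    apply mul_le_mul_of_nonneg_left _ hx0
    linarith
  have h8 : s ^ 4 * (0.386 : ℝ) ≥ 16 * s ^ 3 + 4 * s + 1 := by
    have h9 : s ^ 3 ≥ 50 * 50 * s := by nlinarith [sq_nonneg (s - 50), mul_pos hspos hspos]
    have h10 : s ^ 4 = s * s ^ 3 := by ring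
    rw [h10]
    nlinarith
  nlinarith

lemma prime_recip_interval {x : ℝ} (hx : 6250000 ≤ x) :
    1 / (4 * Real.log (4 * x)) ≤ ∑ q ∈ Ioc ⌊x⌋₊ ⌊4 * x⌋₊, if q.Prime then 1 / (q : ℝ) else 0 := by
  have hd := theta_diff hx
  have hx0 : 0 < x := by linarith
  have hfl : ⌊x⌋₊ ≤ ⌊4 * x⌋₊ := Nat.floor_le_floor (by linarith)
  have e1 : Chebyshev.theta (4 * x) - Chebyshev.theta x
      = ∑ q ∈ Ioc ⌊x⌋₊ ⌊4 * x⌋₊, if q.Prime then Real.log q else 0 := by
    unfold Chebyshev.theta
    rw [Finset.sum_filter, Finset.sum_filter,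
      ← Finset.sum_Ioc_consecutive (fun q : ℕ => if q.Prime then Real.log q else 0) (Nat.zero_le _) hfl]
    ring
  rw [e1] at hd
  have hlog : 0 < Real.log (4 * x) := Real.log_pos (by linarith)
  have h2 : ∑ q ∈ Ioc ⌊x⌋₊ ⌊4 * x⌋₊, (if q.Prime then Real.log q else 0)
      ≤ (4 * x * Real.log (4 * x)) * ∑ q ∈ Ioc ⌊x⌋₊ ⌊4 * x⌋₊, if q.Prime then 1 / (q : ℝ) else 0 := by
    rw [Finset.mul_sum]
    apply Finset.sum_le_sum
    intro q hq
    rw [Finset.mem_Ioc] at hq
    split_ifs with hp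
    · have hq0 : (0 : ℝ) < q := by exact_mod_cast hp.pos
      have hq4 : (q : ℝ) ≤ 4 * x := by
        exact (Nat.le_floor_iff (by linarith)).mp hq.2
      have hlq : Real.log q ≤ Real.log (4 * x) := Real.log_le_log hq0 hq4
      calc Real.log q ≤ Real.log (4 * x) := hlq
        _ = Real.log (4 * x) * 1 := (mul_one _).symm
        _ ≤ Real.log (4 * x) * (4 * x / q) := by
            apply mul_le_mul_of_nonneg_left _ hlog.le
            rw [le_div_iff₀ hq0]; linarith
        _ = 4 * x * Real.log (4 * x) * (1 / q) := by ring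
    · simp
  set A : ℝ := ∑ q ∈ Ioc ⌊x⌋₊ ⌊4 * x⌋₊, if q.Prime then 1 / (q : ℝ) else 0 with hA
  have h3 : x ≤ 4 * x * Real.log (4 * x) * A := hd.trans h2
  rw [div_le_iff₀ (by positivity)]
  have h4 : x * 1 ≤ x * (A * (4 * Real.log (4 * x))) := by
    calc x * 1 = x := mul_one _
      _ ≤ 4 * x * Real.log (4 * x) * A := h3
      _ = x * (A * (4 * Real.log (4 * x))) := by ring
  exact le_of_mul_le_mul_left h4 hx0

lemma sum_intervals {a u : ℝ} (ha : Real.log 6250000 ≤ a) (N : ℕ) (hN : a + N * Real.log 4 ≤ u) :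
    (N : ℝ) / (4 * u) ≤ ∑ q ∈ Ioc ⌊Real.exp a⌋₊ ⌊Real.exp a * 4 ^ N⌋₊, if q.Prime then 1 / (q : ℝ) else 0 := by
  have hea : 6250000 ≤ Real.exp a := by
    rw [← Real.log_le_iff_le_exp (by norm_num)]; exact ha
  have hl4 : 0 < Real.log 4 := Real.log_pos (by norm_num)
  induction N with
  | zero => simp
  | succ N ih =>
    push_cast at hN
    have hN' : a + N * Real.log 4 ≤ u := by linarith
    have hx : 6250000 ≤ Real.exp a * 4 ^ N := by
      calc (6250000 : ℝ) ≤ Real.exp a * 1 := by linarith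
        _ ≤ Real.exp a * 4 ^ N := by
            apply mul_le_mul_of_nonneg_left _ (Real.exp_pos _).le
            exact one_le_pow₀ (by norm_num)
    have h1 := prime_recip_interval hx
    have e1 : 4 * (Real.exp a * 4 ^ N) = Real.exp a * 4 ^ (N + 1) := by ring
    rw [e1] at h1
    have hlog : Real.log (Real.exp a * 4 ^ (N + 1)) = a + (N + 1) * Real.log 4 := by
      rw [Real.log_mul (Real.exp_pos _).ne' (by positivity), Real.log_exp, Real.log_pow]
      push_cast; ring
    rw [hlog] at h1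
    have hu0 : 0 < a + (N + 1) * Real.log 4 := by
      have h0 : 0 < a := by
        have : 0 < Real.log 6250000 := Real.log_pos (by norm_num)
        linarith
      positivity
    have h2 : 1 / (4 * u) ≤ 1 / (4 * (a + (N + 1) * Real.log 4)) := by
      apply one_div_le_one_div_of_le (by positivity)
      linarith
    have hle1 : ⌊Real.exp a⌋₊ ≤ ⌊Real.exp a * 4 ^ N⌋₊ := by
      apply Nat.floor_le_floor
      calc Real.exp a = Real.exp a * 1 := (mul_one _).symm
        _ ≤ Real.exp a * 4 ^ N := by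
            apply mul_le_mul_of_nonneg_left _ (Real.exp_pos _).le
            exact one_le_pow₀ (by norm_num)
    have hle2 : ⌊Real.exp a * 4 ^ N⌋₊ ≤ ⌊Real.exp a * 4 ^ (N + 1)⌋₊ := by
      apply Nat.floor_le_floor
      apply mul_le_mul_of_nonneg_left _ (Real.exp_pos _).le
      exact pow_le_pow_right₀ (by norm_num) (by omega)
    rw [← Finset.sum_Ioc_consecutive _ hle1 hle2]
    have h3 := ih hN'
    push_cast
    calc ((N : ℝ) + 1) / (4 * u) = N / (4 * u) + 1 / (4 * u) := by ring
      _ ≤ _ := add_le_add h3 (h2.trans h1)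

/-- Lower bound for the sum of reciprocals of the primes of a set containing a long interval. -/
theorem recip_lower {a u : ℝ} (ha : Real.log 6250000 ≤ a) (hu : a + Real.log 4 ≤ u) (G : Finset ℕ)
    (hG : ∀ q : ℕ, q.Prime → a < Real.log q → Real.log q ≤ u → q ∈ G) :
    ((u - a) / Real.log 4 - 1) / (4 * u) ≤ ∑ q ∈ G, 1 / (q : ℝ) := by
  have hl4 : 0 < Real.log 4 := Real.log_pos (by norm_num)
  have ha0 : 0 < a := by
    have : 0 < Real.log 6250000 := Real.log_pos (by norm_num)
    linarith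
  have hu0 : 0 < u := by linarith
  set N : ℕ := ⌊(u - a) / Real.log 4⌋₊ with hN
  have hq0 : 0 ≤ (u - a) / Real.log 4 := by
    apply div_nonneg _ hl4.le; linarith
  have hN1 : (N : ℝ) ≤ (u - a) / Real.log 4 := Nat.floor_le hq0
  have hN2 : (u - a) / Real.log 4 - 1 ≤ N := by
    have := Nat.lt_floor_add_one ((u - a) / Real.log 4)
    linarith
  have hNu : a + N * Real.log 4 ≤ u := by
    rw [le_div_iff₀ hl4] at hN1
    linarith
  have h1 := sum_intervals ha N hNu
  have h2 : ∑ q ∈ Ioc ⌊Real.exp a⌋₊ ⌊Real.exp a * 4 ^ N⌋₊, (if q.Prime then 1 / (q : ℝ) else 0)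
      ≤ ∑ q ∈ G, 1 / (q : ℝ) := by
    rw [← Finset.sum_filter]
    apply Finset.sum_le_sum_of_subset_of_nonneg
    · intro q hq
      rw [Finset.mem_filter, Finset.mem_Ioc] at hq
      obtain ⟨⟨hq1, hq2⟩, hqp⟩ := hq
      have hqR : (0 : ℝ) < q := by exact_mod_cast hqp.pos
      apply hG q hqp
      · rw [Real.lt_log_iff_exp_lt hqR]
        exact (Nat.floor_lt (Real.exp_pos _).le).mp hq1
      · have h3 : (q : ℝ) ≤ Real.exp a * 4 ^ N := (Nat.le_floor_iff (by positivity)).mp hq2
        have h4 : Real.log q ≤ Real.log (Real.exp a * 4 ^ N) := Real.log_le_log hqR h3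
        rw [Real.log_mul (Real.exp_pos _).ne' (by positivity), Real.log_exp, Real.log_pow] at h4
        linarith
    · intro q _ _
      positivity
  calc ((u - a) / Real.log 4 - 1) / (4 * u) ≤ (N : ℝ) / (4 * u) := by
        apply div_le_div_of_nonneg_right hN2 (by positivity)
    _ ≤ _ := h1.trans h2

end Pool.Agent.ThetaSum
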