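import Pool.Agent.Lib.MP_d4c1d0_nt.Rotation

set_option autoImplicit false
set_option linter.style.haveILetI false

open Finset Real

namespace Pool.Agent.ThetaSum

lemma blocks_bound {q : ℕ} (hq : 0 < q) (a : ℤ) (hcop : IsCoprime a (q : ℤ)) (θ : ℝ)
    (hθ : |θ - a / q| ≤ 1 / (q : ℝ) ^ 2) (γ : ℝ) (s : ℕ) :
    |∑ l ∈ range (q * s), sq (γ + l * θ)| ≤ 5 * s := by
  induction s with
  | zero => simp
  | succ s ih =>
    rw [Nat.mul_succ, Finset.sum_range_add]
    have e : ∑ l ∈ range q, sq (γ + ((q * s + l : ℕ) : ℝ) * θ)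
        = ∑ l ∈ range q, sq ((γ + (q * s : ℕ) * θ) + l * θ) := by
      refine Finset.sum_congr rfl (fun l _ => ?_)
      congr 1
      push_cast; ring
    rw [e]
    have h2 := block_bound hq a hcop θ hθ (γ + (q * s : ℕ) * θ)
    calc |∑ l ∈ range (q * s), sq (γ + l * θ) + ∑ l ∈ range q, sq ((γ + (q * s : ℕ) * θ) + l * θ)|
        ≤ |∑ l ∈ range (q * s), sq (γ + l * θ)| + |∑ l ∈ range q, sq ((γ + (q * s : ℕ) * θ) + l * θ)| :=
          abs_add_le _ _
      _ ≤ 5 * s + 5 := add_le_add ih h2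
      _ = 5 * ((s + 1 : ℕ) : ℝ) := by push_cast; ring

lemma partial_bound {q : ℕ} (hq : 0 < q) (a : ℤ) (hcop : IsCoprime a (q : ℤ)) (θ : ℝ)
    (hθ : |θ - a / q| ≤ 1 / (q : ℝ) ^ 2) (γ : ℝ) (N : ℕ) :
    |∑ l ∈ range N, sq (γ + l * θ)| ≤ 5 / q * N + q := by
  have hqR : (0 : ℝ) < q := by exact_mod_cast hq
  have hN : N = q * (N / q) + N % q := (Nat.div_add_mod N q).symm
  have hr : N % q < q := Nat.mod_lt _ hq
  have h1 := blocks_bound hq a hcop θ hθ γ (N / q)
  have h2 : |∑ l ∈ range (N % q), sq (γ + ((q * (N / q) + l : ℕ) : ℝ) * θ)| ≤ q := by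
    calc |∑ l ∈ range (N % q), sq (γ + ((q * (N / q) + l : ℕ) : ℝ) * θ)|
        ≤ ∑ l ∈ range (N % q), |sq (γ + ((q * (N / q) + l : ℕ) : ℝ) * θ)| :=
          Finset.abs_sum_le_sum_abs _ _
      _ = ((N % q : ℕ) : ℝ) := by
          rw [Finset.sum_congr rfl (fun l _ => abs_sq _)]; simp
      _ ≤ q := by exact_mod_cast hr.le
  have h3 : ((N / q : ℕ) : ℝ) ≤ N / q := Nat.cast_div_le
  have hsplit : ∑ l ∈ range N, sq (γ + l * θ) = ∑ l ∈ range (q * (N / q)), sq (γ + l * θ)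
      + ∑ l ∈ range (N % q), sq (γ + ((q * (N / q) + l : ℕ) : ℝ) * θ) := by
    conv_lhs => rw [hN]
    rw [Finset.sum_range_add]
  rw [hsplit]
  calc |∑ l ∈ range (q * (N / q)), sq (γ + l * θ)
      + ∑ l ∈ range (N % q), sq (γ + ((q * (N / q) + l : ℕ) : ℝ) * θ)|
      ≤ |∑ l ∈ range (q * (N / q)), sq (γ + l * θ)|
      + |∑ l ∈ range (N % q), sq (γ + ((q * (N / q) + l : ℕ) : ℝ) * θ)| := abs_add_le _ _
    _ ≤ 5 * ((N / q : ℕ) : ℝ) + q := add_le_add h1 h2
    _ ≤ 5 * (N / q) + q := by linarith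
    _ = 5 / q * N + q := by ring

/-- Abel summation. -/
lemma abel_bound (κ e : ℕ → ℝ) (N : ℕ) (hκ0 : ∀ l, l < N → 0 ≤ κ l)
    (hκ : ∀ l, l + 1 < N → κ (l + 1) ≤ κ l) (α β : ℝ)
    (hD : ∀ n, n ≤ N → |∑ l ∈ range n, e l| ≤ α * n + β) :
    |∑ l ∈ range N, κ l * e l| ≤ α * ∑ l ∈ range N, κ l + β * (if N = 0 then 0 else κ 0) := by
  rcases Nat.eq_zero_or_pos N with rfl | hN
  · simp
  obtain ⟨M, rfl⟩ : ∃ M, N = M + 1 := ⟨N - 1, by omega⟩
  rw [if_neg (by omega)]
  have hid : ∀ (f : ℕ → ℝ) (M : ℕ), ∑ l ∈ range (M + 1), κ l * f l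
      = κ M * ∑ l ∈ range (M + 1), f l
        + ∑ l ∈ range M, (κ l - κ (l + 1)) * ∑ j ∈ range (l + 1), f j := by
    intro f M
    induction M with
    | zero => simp
    | succ M ih =>
      rw [Finset.sum_range_succ, ih, Finset.sum_range_succ (fun l => (κ l - κ (l + 1)) * ∑ j ∈ range (l + 1), f j) M,
        Finset.sum_range_succ f (M + 1)]
      ring
  rw [hid e M]
  have hbound : ∀ l ∈ range M, |(κ l - κ (l + 1)) * ∑ j ∈ range (l + 1), e j|
      ≤ (κ l - κ (l + 1)) * (α * ((l + 1 : ℕ) : ℝ) + β) := by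
    intro l hl
    rw [Finset.mem_range] at hl
    have h1 : 0 ≤ κ l - κ (l + 1) := by
      have := hκ l (by omega); linarith
    rw [abs_mul, abs_of_nonneg h1]
    exact mul_le_mul_of_nonneg_left (hD (l + 1) (by omega)) h1
  have hlast : |κ M * ∑ l ∈ range (M + 1), e l| ≤ κ M * (α * ((M + 1 : ℕ) : ℝ) + β) := by
    have h1 : 0 ≤ κ M := hκ0 M (by omega)
    rw [abs_mul, abs_of_nonneg h1]
    exact mul_le_mul_of_nonneg_left (hD (M + 1) le_rfl) h1
  have htel : ∀ M : ℕ, κ M * (α * ((M + 1 : ℕ) : ℝ) + β)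
      + ∑ l ∈ range M, (κ l - κ (l + 1)) * (α * ((l + 1 : ℕ) : ℝ) + β)
      = α * ∑ l ∈ range (M + 1), κ l + β * κ 0 := by
    intro M
    induction M with
    | zero => simp; ring
    | succ M ih =>
      rw [Finset.sum_range_succ, Finset.sum_range_succ κ (M + 1)]
      push_cast at ih ⊢
      linear_combination ih
  calc |κ M * ∑ l ∈ range (M + 1), e l + ∑ l ∈ range M, (κ l - κ (l + 1)) * ∑ j ∈ range (l + 1), e j|
      ≤ |κ M * ∑ l ∈ range (M + 1), e l| + |∑ l ∈ range M, (κ l - κ (l + 1)) * ∑ j ∈ range (l + 1), e j| :=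
        abs_add_le _ _
    _ ≤ κ M * (α * ((M + 1 : ℕ) : ℝ) + β)
      + ∑ l ∈ range M, (κ l - κ (l + 1)) * (α * ((l + 1 : ℕ) : ℝ) + β) := by
        refine add_le_add hlast ?_
        exact (Finset.abs_sum_le_sum_abs _ _).trans (Finset.sum_le_sum hbound)
    _ = α * ∑ l ∈ range (M + 1), κ l + β * κ 0 := htel M

/-! ### The weights `κ(i) = (π/2p) cot(πi/2p)` -/

noncomputable def kap (p : ℕ) (i : ℕ) : ℝ := π / (2 * p) * ct p i

section kap
variable {p i : ℕ}

lemma arg_pos (hp : 0 < p) (hi : 0 < i) : 0 < π * ((i : ℤ) : ℝ) / (2 * p) := by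
  have h1 : (0 : ℝ) < p := by exact_mod_cast hp
  have h2 : (0 : ℝ) < i := by exact_mod_cast hi
  have := Real.pi_pos
  push_cast
  positivity

lemma arg_lt (hp : 0 < p) (hi : i < p) : π * ((i : ℤ) : ℝ) / (2 * p) < π / 2 := by
  have h1 : (0 : ℝ) < p := by exact_mod_cast hp
  have h2 : (i : ℝ) < p := by exact_mod_cast hi
  have := Real.pi_pos
  push_cast
  rw [div_lt_div_iff₀ (by positivity) two_pos]
  nlinarith

lemma kap_eq :
    kap p i = (π / (2 * p)) * (Real.cos (π * i / (2 * p)) / Real.sin (π * i / (2 * p))) := by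
  unfold kap ct
  rw [Real.cot_eq_cos_div_sin]
  push_cast
  rfl

lemma kap_pos (hp : 0 < p) (hi : 0 < i) (hip : i < p) : 0 < kap p i := by
  have h1 := arg_pos (p := p) hp hi
  have h2 := arg_lt hp hip
  push_cast at h1 h2
  have hpR : (0 : ℝ) < p := by exact_mod_cast hp
  rw [kap_eq]
  have hc : 0 < Real.cos (π * i / (2 * p)) := Real.cos_pos_of_mem_Ioo ⟨by linarith [Real.pi_pos], h2⟩
  have hs : 0 < Real.sin (π * i / (2 * p)) := Real.sin_pos_of_pos_of_lt_pi h1 (by linarith [Real.pi_pos])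
  have := Real.pi_pos
  positivity

lemma kap_le (hp : 0 < p) (hi : 0 < i) (hip : i < p) : kap p i ≤ 1 / i := by
  have h1 := arg_pos (p := p) hp hi
  have h2 := arg_lt hp hip
  push_cast at h1 h2
  have hpR : (0 : ℝ) < p := by exact_mod_cast hp
  have hiR : (0 : ℝ) < i := by exact_mod_cast hi
  rw [kap_eq]
  set x : ℝ := π * i / (2 * p) with hx
  have hc : 0 < Real.cos x := Real.cos_pos_of_mem_Ioo ⟨by linarith [Real.pi_pos], h2⟩
  have hs : 0 < Real.sin x := Real.sin_pos_of_pos_of_lt_pi h1 (by linarith [Real.pi_pos])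
  have ht : x < Real.tan x := Real.lt_tan h1 h2
  rw [Real.tan_eq_sin_div_cos, lt_div_iff₀ hc] at ht
  have h3 : Real.cos x / Real.sin x ≤ 1 / x := by
    rw [div_le_div_iff₀ hs h1]
    linarith
  calc π / (2 * p) * (Real.cos x / Real.sin x) ≤ π / (2 * p) * (1 / x) := by
        apply mul_le_mul_of_nonneg_left h3
        have := Real.pi_pos
        positivity
    _ = 1 / i := by
        rw [hx]
        have := Real.pi_ne_zero
        field_simp

lemma kap_ge (hp : 0 < p) (hi : 0 < i) (hip : i < p) : 1 / (i : ℝ) - 2 * i / (p : ℝ) ^ 2 ≤ kap p i := by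
  have h1 := arg_pos (p := p) hp hi
  have h2 := arg_lt hp hip
  push_cast at h1 h2
  have hpR : (0 : ℝ) < p := by exact_mod_cast hp
  have hiR : (0 : ℝ) < i := by exact_mod_cast hi
  rw [kap_eq]
  set x : ℝ := π * i / (2 * p) with hx
  have hc : 0 < Real.cos x := Real.cos_pos_of_mem_Ioo ⟨by linarith [Real.pi_pos], h2⟩
  have hs : 0 < Real.sin x := Real.sin_pos_of_pos_of_lt_pi h1 (by linarith [Real.pi_pos])
  have hsx : Real.sin x ≤ x := (Real.sin_lt h1).le
  have hcx : 1 - x ^ 2 / 2 ≤ Real.cos x := Real.one_sub_sq_div_two_le_cos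
  have h3 : 1 / x - x / 2 ≤ Real.cos x / Real.sin x := by
    have h4 : 1 / x - x / 2 = (1 - x ^ 2 / 2) / x := by field_simp
    have h5 : Real.cos x / x ≤ Real.cos x / Real.sin x := by
      apply div_le_div_of_nonneg_left hc.le hs hsx
    rw [h4]
    calc (1 - x ^ 2 / 2) / x ≤ Real.cos x / x := by
          apply div_le_div_of_nonneg_right hcx h1.le
      _ ≤ _ := h5
  have hpi := Real.pi_pos
  calc 1 / (i : ℝ) - 2 * i / (p : ℝ) ^ 2 ≤ π / (2 * p) * (1 / x - x / 2) := by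
        have e1 : π / (2 * p) * (1 / x - x / 2) = 1 / i - π ^ 2 * i / (8 * (p : ℝ) ^ 2) := by
          rw [hx]
          field_simp
          ring
        rw [e1]
        have hpi2 : π ^ 2 ≤ 16 := by nlinarith [Real.pi_le_four, Real.pi_pos]
        have e2 : π ^ 2 * i / (8 * (p : ℝ) ^ 2) ≤ 2 * i / (p : ℝ) ^ 2 := by
          rw [div_le_div_iff₀ (by positivity) (by positivity)]
          have : (0 : ℝ) ≤ i * (p : ℝ) ^ 2 := by positivity
          nlinarith
        linarith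
    _ ≤ π / (2 * p) * (Real.cos x / Real.sin x) := by
        apply mul_le_mul_of_nonneg_left h3
        positivity

lemma kap_anti {j : ℕ} (hp : 0 < p) (hi : 0 < i) (hij : i ≤ j) (hjp : j < p) : kap p j ≤ kap p i := by
  have hip : i < p := by omega
  have hj : 0 < j := by omega
  have h1 := arg_pos (p := p) hp hi
  have h2 := arg_lt hp hip
  have h1' := arg_pos (p := p) hp hj
  have h2' := arg_lt hp hjp
  push_cast at h1 h2 h1' h2'
  have hpR : (0 : ℝ) < p := by exact_mod_cast hp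
  rw [kap_eq, kap_eq]
  have hijR : (i : ℝ) ≤ j := by exact_mod_cast hij
  have hpi := Real.pi_pos
  set x : ℝ := π * i / (2 * p) with hx
  set y : ℝ := π * j / (2 * p) with hy
  have hxy : x ≤ y := by
    rw [hx, hy]
    apply div_le_div_of_nonneg_right _ (by positivity)
    nlinarith
  have hc : 0 < Real.cos x := Real.cos_pos_of_mem_Ioo ⟨by linarith [Real.pi_pos], h2⟩
  have hs : 0 < Real.sin x := Real.sin_pos_of_pos_of_lt_pi h1 (by linarith [Real.pi_pos])
  have hs' : 0 < Real.sin y := Real.sin_pos_of_pos_of_lt_pi h1' (by linarith [Real.pi_pos])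
  have hcos : Real.cos y ≤ Real.cos x :=
    Real.cos_le_cos_of_nonneg_of_le_pi h1.le (by linarith) hxy
  have hsin : Real.sin x ≤ Real.sin y :=
    Real.sin_le_sin_of_le_of_le_pi_div_two (by linarith) h2'.le hxy
  apply mul_le_mul_of_nonneg_left _ (by positivity)
  calc Real.cos y / Real.sin y ≤ Real.cos x / Real.sin y := by
        apply div_le_div_of_nonneg_right hcos hs'.le
    _ ≤ Real.cos x / Real.sin x := by
        apply div_le_div_of_nonneg_left hc.le hs hsin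

end kap

end Pool.Agent.ThetaSum
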