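import Pool.Agent.Lib.MP_d4c1d0_nt.Tails

set_option autoImplicit false
set_option linter.style.haveILetI false

open Finset Real

namespace Pool.Agent.ThetaSum

/-- the modulus `r` is bad if `1/p mod r` has a rational approximation with tiny denominator. -/
def Bad (p Q0 H r : ℕ) : Prop :=
  ∃ q ∈ Icc 1 Q0, ∃ d : ℤ, |d| * H ≤ r ∧ (r : ℤ) ∣ p * d + q

/-- Dichotomy: not bad implies a good rational approximation. -/
lemma exists_approx {p Q0 H r b : ℕ} (hr : 0 < r) (hH : 0 < H) (hb : r ∣ p * b + 1)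
    (hbad : ¬ Bad p Q0 H r) :
    ∃ (q : ℕ) (a : ℤ), Q0 < q ∧ q ≤ H ∧ IsCoprime a (q : ℤ) ∧
      |(b : ℝ) / r - a / q| ≤ 1 / (q : ℝ) ^ 2 := by
  obtain ⟨x, hx1, hx2⟩ := Real.exists_rat_abs_sub_le_and_den_le ((b : ℝ) / r) hH
  have hrR : (0 : ℝ) < r := by exact_mod_cast hr
  have hqR : (0 : ℝ) < x.den := by exact_mod_cast x.den_pos
  have hHR : (0 : ℝ) < H := by exact_mod_cast hH
  have hxcast : (x : ℝ) = (x.num : ℝ) / (x.den : ℝ) := Rat.cast_def x
  refine ⟨x.den, x.num, ?_, hx2, ?_, ?_⟩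
  · by_contra hle
    rw [not_lt] at hle
    apply hbad
    refine ⟨x.den, Finset.mem_Icc.mpr ⟨x.den_pos, hle⟩, (x.den : ℤ) * b - x.num * r, ?_, ?_⟩
    · have h1 : |((x.den : ℝ) * b - x.num * r)| * H ≤ r := by
        have e1 : (x.den : ℝ) * b - x.num * r = (x.den * r) * ((b : ℝ) / r - x) := by
          rw [hxcast]; field_simp
        rw [e1, abs_mul, abs_of_pos (by positivity : (0 : ℝ) < x.den * r)]
        calc (x.den : ℝ) * r * |(b : ℝ) / r - x| * H
            ≤ (x.den : ℝ) * r * (1 / ((H + 1) * x.den)) * H := by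
              apply mul_le_mul_of_nonneg_right _ hHR.le
              apply mul_le_mul_of_nonneg_left hx1 (by positivity)
          _ = r * (H / (H + 1)) := by field_simp
          _ ≤ r * 1 := by
              apply mul_le_mul_of_nonneg_left _ hrR.le
              rw [div_le_one (by positivity)]; linarith
          _ = r := mul_one _
      have h2 : ((|(x.den : ℤ) * b - x.num * r| * H : ℤ) : ℝ) ≤ ((r : ℤ) : ℝ) := by
        push_cast
        exact h1
      exact_mod_cast h2
    · obtain ⟨w, hw⟩ := hb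
      have hw' : (p : ℤ) * b + 1 = r * w := by exact_mod_cast hw
      refine ⟨x.den * w - p * x.num, ?_⟩
      have : (p : ℤ) * ((x.den : ℤ) * b - x.num * r) + x.den
          = x.den * ((p : ℤ) * b + 1) - p * x.num * r := by ring
      rw [this, hw']; ring
  · rw [Int.isCoprime_iff_gcd_eq_one]
    have := x.reduced
    rw [Int.gcd_eq_natAbs, Int.natAbs_natCast]
    exact this
  · rw [← hxcast]
    refine hx1.trans ?_
    apply one_div_le_one_div_of_le (by positivity)
    have : (x.den : ℝ) ≤ H := by exact_mod_cast hx2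
    nlinarith

lemma card_primeFactors_le_log {n : ℕ} (hn : n ≠ 0) : n.primeFactors.card ≤ Nat.log 2 n := by
  apply Nat.le_log_of_pow_le one_lt_two
  calc 2 ^ n.primeFactors.card ≤ ∏ ℓ ∈ n.primeFactors, ℓ := by
        apply Finset.pow_card_le_prod
        intro ℓ hℓ
        exact (Nat.prime_of_mem_primeFactors hℓ).two_le
    _ ≤ n := Nat.le_of_dvd (Nat.pos_of_ne_zero hn) (Nat.prod_primeFactors_dvd n)

lemma card_residue_le {p m' : ℕ} (hm' : 0 < m') (hcop : Nat.Coprime p m') (D : ℕ) (q : ℤ) :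
    ((((Finset.Icc (-(D : ℤ)) D).filter (fun d => (m' : ℤ) ∣ p * d + q)).card : ℕ) : ℝ)
      ≤ (2 * D + 1) / m' + 1 := by
  have hmZ : (0 : ℤ) < m' := by exact_mod_cast hm'
  have hmR : (0 : ℝ) < m' := by exact_mod_cast hm'
  rcases Finset.eq_empty_or_nonempty
    ((Finset.Icc (-(D : ℤ)) D).filter (fun d => (m' : ℤ) ∣ p * d + q)) with he | ⟨d0, hd0⟩
  · rw [he]; simp only [Finset.card_empty, Nat.cast_zero]; positivity
  · rw [Finset.mem_filter] at hd0
    have hsub : (Finset.Icc (-(D : ℤ)) D).filter (fun d => (m' : ℤ) ∣ p * d + q)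
        ⊆ (Finset.Ico (-(D : ℤ)) (D + 1)).filter (fun x => x ≡ d0 [ZMOD m']) := by
      intro d hd
      rw [Finset.mem_filter] at hd ⊢
      refine ⟨?_, ?_⟩
      · have := Finset.mem_Icc.mp hd.1
        rw [Finset.mem_Ico]; omega
      · have h1 : (m' : ℤ) ∣ (p * d0 + q) - (p * d + q) := dvd_sub hd0.2 hd.2
        have h2 : (m' : ℤ) ∣ (p : ℤ) * (d0 - d) := by
          have : ((p : ℤ) * d0 + q) - (p * d + q) = p * (d0 - d) := by ring
          rwa [this] at h1
        have hc : IsCoprime (m' : ℤ) (p : ℤ) := by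
          rw [Nat.isCoprime_iff_coprime]; exact hcop.symm
        have h3 : (m' : ℤ) ∣ d0 - d := hc.dvd_of_dvd_mul_left h2
        exact (Int.modEq_iff_dvd.mpr h3)
    have hcard := Finset.card_le_card hsub
    have hform := Int.Ico_filter_modEq_card (-(D : ℤ)) (D + 1) hmZ d0
    have h4 : (((Finset.Ico (-(D : ℤ)) (D + 1)).filter (fun x => x ≡ d0 [ZMOD m'])).card : ℚ)
        ≤ (2 * D + 1) / m' + 1 := by
      have h5 : ((((Finset.Ico (-(D : ℤ)) (D + 1)).filter (fun x => x ≡ d0 [ZMOD m'])).card : ℤ) : ℚ)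
          = ((max (⌈(((D : ℤ) + 1 : ℤ) - d0 : ℚ) / ((m' : ℤ) : ℚ)⌉ - ⌈((-(D : ℤ) : ℤ) - d0 : ℚ) / ((m' : ℤ) : ℚ)⌉) 0 : ℤ) : ℚ) := by
        rw [hform]
      have hmQ : (0 : ℚ) < ((m' : ℤ) : ℚ) := by exact_mod_cast hm'
      have h6 := Int.ceil_lt_add_one ((((D : ℤ) + 1 : ℤ) - d0 : ℚ) / ((m' : ℤ) : ℚ))
      have h7 := Int.le_ceil (((-(D : ℤ) : ℤ) - d0 : ℚ) / ((m' : ℤ) : ℚ))
      have h8 : ((((D : ℤ) + 1 : ℤ) - d0 : ℚ) / ((m' : ℤ) : ℚ)) - (((-(D : ℤ) : ℤ) - d0 : ℚ) / ((m' : ℤ) : ℚ))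
          = (2 * D + 1) / m' := by
        push_cast; rw [← sub_div]; congr 1; ring
      have hnonneg : (0 : ℚ) ≤ (2 * D + 1) / m' + 1 := by positivity
      have h9 : ((((Finset.Ico (-(D : ℤ)) (D + 1)).filter (fun x => x ≡ d0 [ZMOD m'])).card : ℤ) : ℚ)
          ≤ (2 * D + 1) / m' + 1 := by
        rw [h5]
        push_cast
        apply max_le
        · push_cast at h6 h7 h8
          linarith
        · exact hnonneg
      exact_mod_cast h9
    have h10 : (((Finset.Ico (-(D : ℤ)) (D + 1)).filter (fun x => x ≡ d0 [ZMOD m'])).card : ℝ)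
        ≤ (2 * D + 1) / m' + 1 := by
      have : ((((Finset.Ico (-(D : ℤ)) (D + 1)).filter (fun x => x ≡ d0 [ZMOD m'])).card : ℚ) : ℝ)
        ≤ (((2 * D + 1) / m' + 1 : ℚ) : ℝ) := by exact_mod_cast h4
      push_cast at this
      exact this
    exact le_trans (by exact_mod_cast hcard) h10

/-- bad moduli in a dyadic range having a large prime factor -/
noncomputable def badR (p Q0 H y R : ℕ) : Finset ℕ := by
  classical
  exact (Finset.Ico R (2 * R)).filter (fun r => r < p ∧ Bad p Q0 H r ∧ ∃ ℓ, ℓ.Prime ∧ y ≤ ℓ ∧ ℓ ∣ r)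

lemma badR_card {p Q0 H y R : ℕ} (hpr : p.Prime) (hQp : Q0 < p) (hH : 2 ≤ H) (hHR : H ≤ R)
    (hRp : R ≤ p) (hy : 1 ≤ y) :
    ((badR p Q0 H y R).card : ℝ) ≤ Q0 * (2 * (Nat.log 2 p + 1)) * (5 * (2 + Real.log p) / H + 2 / y) * R := by
  classical
  have hp : 0 < p := hpr.pos
  set D : ℕ := 2 * R / H with hD
  set M : ℕ := 2 * R / y with hM
  set W : ℕ := 2 * (Nat.log 2 p + 1) with hW
  have hR0 : 0 < R := by omega
  set T : Finset ℕ := (Finset.Icc 1 Q0).biUnion fun q => ((Finset.Icc 1 M).filter (fun m' => m' < p)).biUnion fun m' =>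
    ((Finset.Icc (-(D : ℤ)) D).filter (fun d => (m' : ℤ) ∣ p * d + (q : ℤ))).biUnion fun d =>
      (((p : ℤ) * d + q).natAbs.primeFactors).image (fun ℓ => m' * ℓ) with hT
  have hne : ∀ q ∈ Finset.Icc 1 Q0, ∀ d : ℤ, (p : ℤ) * d + q ≠ 0 := by
    intro q hq d h
    rw [Finset.mem_Icc] at hq
    have h1 : (p : ℤ) ∣ q := ⟨-d, by linarith⟩
    have h2 : p ∣ q := by exact_mod_cast h1
    have := Nat.le_of_dvd (by omega) h2
    omega
  have hsub : badR p Q0 H y R ⊆ T := by
    intro r hr
    unfold badR at hr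
    rw [Finset.mem_filter, Finset.mem_Ico] at hr
    obtain ⟨⟨hRr, hr2⟩, hrp, ⟨q, hq, d, hd1, hd2⟩, ℓ, hℓ, hyℓ, hℓr⟩ := hr
    obtain ⟨m', rfl⟩ := hℓr
    have hm'0 : 0 < m' := by
      rcases Nat.eq_zero_or_pos m' with rfl | h
      · simp at hRr; omega
      · exact h
    rw [hT, Finset.mem_biUnion]
    refine ⟨q, hq, ?_⟩
    rw [Finset.mem_biUnion]
    refine ⟨m', ?_, ?_⟩
    · rw [Finset.mem_filter, Finset.mem_Icc]
      refine ⟨⟨hm'0, ?_⟩, ?_⟩
      · rw [hM, Nat.le_div_iff_mul_le (by omega)]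
        calc m' * y ≤ m' * ℓ := Nat.mul_le_mul_left _ hyℓ
          _ = ℓ * m' := mul_comm _ _
          _ ≤ 2 * R := hr2.le
      · exact lt_of_le_of_lt (Nat.le_mul_of_pos_left m' hℓ.pos) hrp
    · rw [Finset.mem_biUnion]
      have hdvd : ((ℓ * m' : ℕ) : ℤ) ∣ (p : ℤ) * d + q := hd2
      refine ⟨d, ?_, ?_⟩
      · rw [Finset.mem_filter, Finset.mem_Icc]
        have h1 : |d| * (H : ℤ) < 2 * R := by
          have : ((ℓ * m' : ℕ) : ℤ) < 2 * R := by exact_mod_cast hr2
          linarith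
        have h2 : d.natAbs * H ≤ 2 * R := by
          have h3 : ((d.natAbs * H : ℕ) : ℤ) < ((2 * R : ℕ) : ℤ) := by
            push_cast; exact h1
          have h4 : d.natAbs * H < 2 * R := by exact_mod_cast h3
          exact h4.le
        have h3 : d.natAbs ≤ D := by
          rw [hD, Nat.le_div_iff_mul_le (by omega)]; exact h2
        have h4 : |d| ≤ (D : ℤ) := by
          rw [Int.abs_eq_natAbs]; exact_mod_cast h3
        rw [abs_le] at h4
        refine ⟨h4, ?_⟩
        apply dvd_trans _ hdvd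
        push_cast
        exact dvd_mul_left _ _
      · rw [Finset.mem_image]
        refine ⟨ℓ, ?_, mul_comm _ _⟩
        rw [Nat.mem_primeFactors]
        refine ⟨hℓ, ?_, ?_⟩
        · have : (ℓ : ℤ) ∣ (p : ℤ) * d + q := by
            apply dvd_trans _ hdvd
            push_cast
            exact dvd_mul_right _ _
          exact Int.natCast_dvd.mp this
        · exact Int.natAbs_ne_zero.mpr (hne q hq d)
  have hDp : D ≤ p := by
    rw [hD]
    calc 2 * R / H ≤ 2 * R / 2 := Nat.div_le_div_left hH (by norm_num)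
      _ = R := by omega
      _ ≤ p := hRp
  have hprime : ∀ q ∈ Finset.Icc 1 Q0, ∀ d ∈ Finset.Icc (-(D : ℤ)) D,
      (((((p : ℤ) * d + q).natAbs.primeFactors).image (fun ℓ => (0 : ℕ) * ℓ)).card) ≤ W ∧
      (((p : ℤ) * d + q).natAbs.primeFactors).card ≤ W := by
    intro q hq d hd
    have h1 : (((p : ℤ) * d + q).natAbs.primeFactors).card ≤ W := by
      refine (card_primeFactors_le_log (Int.natAbs_ne_zero.mpr (hne q hq d))).trans ?_
      have h2 : ((p : ℤ) * d + q).natAbs ≤ 2 * p * p := by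
        have h3 : |(p : ℤ) * d + q| ≤ 2 * p * p := by
          rw [Finset.mem_Icc] at hd hq
          have h4 : |d| ≤ (D : ℤ) := abs_le.mpr hd
          have h5 : (D : ℤ) ≤ p := by exact_mod_cast hDp
          have h6 : (q : ℤ) ≤ p := by
            have : q ≤ Q0 := hq.2
            exact_mod_cast (by omega : q ≤ p)
          have h7 : (1 : ℤ) ≤ p := by exact_mod_cast hp
          calc |(p : ℤ) * d + q| ≤ |(p : ℤ) * d| + |(q : ℤ)| := abs_add_le _ _
            _ = p * |d| + q := by
                rw [abs_mul, abs_of_nonneg (by positivity : (0 : ℤ) ≤ p), abs_of_nonneg (by positivity : (0 : ℤ) ≤ q)]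
            _ ≤ p * p + p := by nlinarith
            _ ≤ 2 * p * p := by nlinarith
        rw [Int.abs_eq_natAbs] at h3
        exact_mod_cast h3
      refine (Nat.log_mono_right h2).trans ?_
      rw [hW]
      have h3 : p < 2 ^ (Nat.log 2 p + 1) := Nat.lt_pow_succ_log_self one_lt_two p
      have h4 : 2 * p * p < 2 ^ (2 * (Nat.log 2 p + 1) + 1) := by
        have : 2 ^ (2 * (Nat.log 2 p + 1) + 1) = 2 * 2 ^ (Nat.log 2 p + 1) * 2 ^ (Nat.log 2 p + 1) := by
          rw [pow_succ, two_mul, pow_add]; ring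
        rw [this]
        nlinarith
      have h5 : Nat.log 2 (2 * p * p) < 2 * (Nat.log 2 p + 1) + 1 :=
        Nat.log_lt_of_lt_pow (by positivity) h4
      omega
    refine ⟨?_, h1⟩
    exact (Finset.card_image_le).trans h1
  have hcardT : (T.card : ℝ) ≤ ∑ q ∈ Finset.Icc 1 Q0, ∑ m' ∈ (Finset.Icc 1 M).filter (fun m' => m' < p),
      ((((Finset.Icc (-(D : ℤ)) D).filter (fun d => (m' : ℤ) ∣ p * d + (q : ℤ))).card : ℕ) : ℝ) * W := by
    have h1 : T.card ≤ ∑ q ∈ Finset.Icc 1 Q0, ∑ m' ∈ (Finset.Icc 1 M).filter (fun m' => m' < p),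
      ((Finset.Icc (-(D : ℤ)) D).filter (fun d => (m' : ℤ) ∣ p * d + (q : ℤ))).card * W := by
      rw [hT]
      refine Finset.card_biUnion_le.trans (Finset.sum_le_sum (fun q hq => ?_))
      refine Finset.card_biUnion_le.trans (Finset.sum_le_sum (fun m' hm' => ?_))
      refine Finset.card_biUnion_le.trans ?_
      rw [← smul_eq_mul, ← Finset.sum_const]
      refine Finset.sum_le_sum (fun d hd => ?_)
      rw [Finset.mem_filter] at hd
      exact (Finset.card_image_le).trans (hprime q hq d hd.1).2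
    exact_mod_cast h1
  have hsum : (T.card : ℝ) ≤ Q0 * W * ((2 * D + 1) * (1 + Real.log M) + M) := by
    refine hcardT.trans ?_
    have hin : ∀ q ∈ Finset.Icc 1 Q0, ∑ m' ∈ (Finset.Icc 1 M).filter (fun m' => m' < p),
      ((((Finset.Icc (-(D : ℤ)) D).filter (fun d => (m' : ℤ) ∣ p * d + (q : ℤ))).card : ℕ) : ℝ) * W
      ≤ W * ((2 * D + 1) * (1 + Real.log M) + M) := by
      intro q hq
      rw [← Finset.sum_mul, mul_comm]
      apply mul_le_mul_of_nonneg_left _ (by positivity)
      calc ∑ m' ∈ (Finset.Icc 1 M).filter (fun m' => m' < p),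
          ((((Finset.Icc (-(D : ℤ)) D).filter (fun d => (m' : ℤ) ∣ p * d + (q : ℤ))).card : ℕ) : ℝ)
          ≤ ∑ m' ∈ (Finset.Icc 1 M).filter (fun m' => m' < p), ((2 * (D : ℝ) + 1) / m' + 1) := by
            apply Finset.sum_le_sum
            intro m' hm'
            rw [Finset.mem_filter, Finset.mem_Icc] at hm'
            apply card_residue_le (by omega)
            rw [Nat.Prime.coprime_iff_not_dvd hpr]
            intro h
            have := Nat.le_of_dvd (by omega) h
            omega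
        _ ≤ ∑ m' ∈ Finset.Icc 1 M, ((2 * (D : ℝ) + 1) / m' + 1) := by
            apply Finset.sum_le_sum_of_subset_of_nonneg (Finset.filter_subset _ _)
            intro i _ _
            positivity
        _ = (2 * D + 1) * (∑ m' ∈ Finset.Icc 1 M, ((m' : ℝ))⁻¹) + M := by
            rw [Finset.sum_add_distrib, Finset.mul_sum]
            simp only [Finset.sum_const, Nat.card_Icc, Nat.add_sub_cancel, nsmul_eq_mul, mul_one]
            congr 1
        _ ≤ (2 * D + 1) * (1 + Real.log M) + M := by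
            have h1 : ∑ m' ∈ Finset.Icc 1 M, ((m' : ℝ))⁻¹ ≤ 1 + Real.log M := by
              have := harmonic_le_one_add_log M
              rw [harmonic_eq_sum_Icc] at this
              push_cast at this
              exact this
            have : (0 : ℝ) ≤ 2 * D + 1 := by positivity
            nlinarith
    calc ∑ q ∈ Finset.Icc 1 Q0, ∑ m' ∈ (Finset.Icc 1 M).filter (fun m' => m' < p),
      ((((Finset.Icc (-(D : ℤ)) D).filter (fun d => (m' : ℤ) ∣ p * d + (q : ℤ))).card : ℕ) : ℝ) * W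
        ≤ ∑ q ∈ Finset.Icc 1 Q0, (W * ((2 * D + 1) * (1 + Real.log M) + M) : ℝ) := Finset.sum_le_sum hin
      _ = Q0 * W * ((2 * D + 1) * (1 + Real.log M) + M) := by
          simp only [Finset.sum_const, Nat.card_Icc, Nat.add_sub_cancel, nsmul_eq_mul]
          ring
  have hHR' : (0 : ℝ) < H := by positivity
  have hyR : (0 : ℝ) < y := by exact_mod_cast hy
  have hRR : (0 : ℝ) < R := by exact_mod_cast hR0
  have hpR : (1 : ℝ) ≤ p := by exact_mod_cast hp
  have hD1 : (2 * (D : ℝ) + 1) ≤ 5 * (R / H) := by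
    have h1 : (D : ℝ) ≤ 2 * R / H := by
      rw [hD]
      have := @Nat.cast_div_le ℝ _ _ _ (2 * R) H
      push_cast at this
      exact this
    have h2 : (1 : ℝ) ≤ R / H := by
      rw [le_div_iff₀ hHR', one_mul]; exact_mod_cast hHR
    calc (2 * (D : ℝ) + 1) ≤ 2 * (2 * R / H) + R / H := by linarith
      _ = 5 * (R / H) := by ring
  have hM1 : (M : ℝ) ≤ 2 / y * R := by
    have h1 : (M : ℝ) ≤ 2 * R / y := by
      rw [hM]
      have := @Nat.cast_div_le ℝ _ _ _ (2 * R) y
      push_cast at this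
      exact this
    calc (M : ℝ) ≤ 2 * R / y := h1
      _ = 2 / y * R := by ring
  have hlogM : 1 + Real.log M ≤ 2 + Real.log p := by
    rcases Nat.eq_zero_or_pos M with h0 | h0
    · rw [h0]; simp only [Nat.cast_zero, Real.log_zero]
      have := Real.log_nonneg hpR; linarith
    · have h1 : (M : ℝ) ≤ 2 * p := by
        have : M ≤ 2 * p := by
          rw [hM]
          calc 2 * R / y ≤ 2 * R := Nat.div_le_self _ _
            _ ≤ 2 * p := by omega
        exact_mod_cast this
      have h2 : Real.log M ≤ Real.log (2 * p) := Real.log_le_log (by exact_mod_cast h0) h1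
      rw [Real.log_mul (by norm_num) (by positivity)] at h2
      have h3 : Real.log 2 ≤ 1 := by
        have := Real.log_two_lt_d9; linarith
      linarith
  have hlognn : 0 ≤ 1 + Real.log M := by
    have : 0 ≤ Real.log M := Real.log_natCast_nonneg _
    linarith
  calc ((badR p Q0 H y R).card : ℝ) ≤ T.card := by exact_mod_cast Finset.card_le_card hsub
    _ ≤ Q0 * W * ((2 * D + 1) * (1 + Real.log M) + M) := hsum
    _ ≤ Q0 * W * ((5 * (R / H)) * (2 + Real.log p) + 2 / y * R) := by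
        apply mul_le_mul_of_nonneg_left _ (by positivity)
        apply add_le_add _ hM1
        apply mul_le_mul hD1 hlogM hlognn (by positivity)
    _ = Q0 * (2 * (Nat.log 2 p + 1)) * (5 * (2 + Real.log p) / H + 2 / y) * R := by
        rw [hW]; push_cast; ring

/-- The logarithmic weight of the bad moduli with a large prime factor. -/
theorem bad_sum {p Q0 H y : ℕ} (hpr : p.Prime) (hQp : Q0 < p) (hH : 2 ≤ H) (hy : 1 ≤ y)
    (s : Finset ℕ) (hs : ∀ r ∈ s, 2 * H ≤ r ∧ r < p ∧ Bad p Q0 H r ∧ ∃ ℓ, ℓ.Prime ∧ y ≤ ℓ ∧ ℓ ∣ r) :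
    ∑ r ∈ s, 1 / (r : ℝ) ≤ (Nat.log 2 p + 1) *
      (Q0 * (2 * (Nat.log 2 p + 1)) * (5 * (2 + Real.log p) / H + 2 / y)) := by
  classical
  have hmaps : ∀ r ∈ s, Nat.log 2 r ∈ range (Nat.log 2 p + 1) := by
    intro r hr
    rw [Finset.mem_range]
    have := Nat.log_mono_right (b := 2) (hs r hr).2.1.le
    omega
  rw [← Finset.sum_fiberwise_of_maps_to hmaps]
  set β : ℝ := (Q0 * (2 * (Nat.log 2 p + 1)) * (5 * (2 + Real.log p) / H + 2 / y)) with hβ
  have hβ0 : 0 ≤ β := by
    have : 0 ≤ Real.log p := Real.log_natCast_nonneg _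
    positivity
  have hfib : ∀ j ∈ range (Nat.log 2 p + 1), ∑ r ∈ s.filter (fun r => Nat.log 2 r = j), 1 / (r : ℝ) ≤ β := by
    intro j hj
    rcases Finset.eq_empty_or_nonempty (s.filter (fun r => Nat.log 2 r = j)) with he | ⟨r0, hr0⟩
    · rw [he]; simpa using hβ0
    · rw [Finset.mem_filter] at hr0
      have hr0' := hs r0 hr0.1
      have hr0ne : r0 ≠ 0 := by omega
      set R : ℕ := 2 ^ j with hR
      have hRle : R ≤ r0 := by
        rw [hR, ← hr0.2]; exact Nat.pow_log_le_self 2 hr0ne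
      have hltR : r0 < 2 * R := by
        rw [hR, ← hr0.2, ← pow_succ']; exact Nat.lt_pow_succ_log_self one_lt_two r0
      have hHR : H ≤ R := by omega
      have hRp : R ≤ p := by omega
      have hsubset : s.filter (fun r => Nat.log 2 r = j) ⊆ badR p Q0 H y R := by
        intro r hr
        rw [Finset.mem_filter] at hr
        have hr' := hs r hr.1
        have hrne : r ≠ 0 := by omega
        unfold badR
        rw [Finset.mem_filter, Finset.mem_Ico]
        refine ⟨⟨?_, ?_⟩, hr'.2.1, hr'.2.2.1, hr'.2.2.2⟩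
        · rw [hR, ← hr.2]; exact Nat.pow_log_le_self 2 hrne
        · rw [hR, ← hr.2, ← pow_succ']; exact Nat.lt_pow_succ_log_self one_lt_two r
      have hRR : (0 : ℝ) < R := by rw [hR]; positivity
      have hcard : ((s.filter (fun r => Nat.log 2 r = j)).card : ℝ) ≤ β * R := by
        refine le_trans ?_ (badR_card hpr hQp hH hHR hRp hy)
        exact_mod_cast Finset.card_le_card hsubset
      calc ∑ r ∈ s.filter (fun r => Nat.log 2 r = j), 1 / (r : ℝ)
          ≤ ∑ r ∈ s.filter (fun r => Nat.log 2 r = j), 1 / (R : ℝ) := by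
            apply Finset.sum_le_sum
            intro r hr
            have h1 := hsubset hr
            unfold badR at h1
            rw [Finset.mem_filter, Finset.mem_Ico] at h1
            apply one_div_le_one_div_of_le hRR
            exact_mod_cast h1.1.1
        _ = ((s.filter (fun r => Nat.log 2 r = j)).card : ℝ) * (1 / R) := by
            rw [Finset.sum_const, nsmul_eq_mul]
        _ ≤ β * R * (1 / R) := mul_le_mul_of_nonneg_right hcard (by positivity)
        _ = β := by field_simp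
  calc ∑ j ∈ range (Nat.log 2 p + 1), ∑ r ∈ s.filter (fun r => Nat.log 2 r = j), 1 / (r : ℝ)
      ≤ ∑ j ∈ range (Nat.log 2 p + 1), β := Finset.sum_le_sum hfib
    _ = (Nat.log 2 p + 1) * β := by
        rw [Finset.sum_const, Finset.card_range, nsmul_eq_mul]; push_cast; ring

end Pool.Agent.ThetaSum
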