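import Pool.Agent.Lib.MP_d4c1d0_nt.Identity

set_option autoImplicit false
set_option linter.style.haveILetI false

open Finset Real

namespace Pool.Agent.ThetaSum

/-- parity sign of a residue class: `+1` if the least non-negative residue is odd. -/
noncomputable def sg (p : ℕ) (z : ZMod p) : ℝ := if Odd z.val then 1 else -1

/-- the sign attached to the fraction `i / n` modulo `p`. -/
noncomputable def eps (p : ℕ) (n i : ℕ) : ℝ := sg p ((i : ZMod p) * (n : ZMod p)⁻¹)

noncomputable def cz (p : ℕ) (z : ZMod p) : ℝ :=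
  if Odd z.val then ct p z.val else ct p (z.val + p)

lemma abs_sg (p : ℕ) (z : ZMod p) : |sg p z| = 1 := by
  unfold sg; split_ifs <;> simp

lemma abs_eps (p n i : ℕ) : |eps p n i| = 1 := abs_sg _ _

lemma ct_eq_cz {p : ℕ} (hp : 0 < p) (hodd : Odd p) {a : ℤ} (ha : Odd a) :
    ct p a = cz p (a : ZMod p) := by
  haveI : NeZero p := ⟨hp.ne'⟩
  have hv : (((a : ZMod p).val : ℕ) : ℤ) = a % p := ZMod.val_intCast a
  have hdm : a = a % p + p * (a / p) := (Int.emod_add_mul_ediv a p).symm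
  unfold cz
  have hpo : Odd (p : ℤ) := by exact_mod_cast hodd
  split_ifs with h
  · -- val odd, quotient even
    have h1 : Odd (a % p) := by rw [← hv]; exact_mod_cast h
    have h2 : Even (a / p) := by
      by_contra hne
      rw [Int.not_even_iff_odd] at hne
      have h3 : Odd (p * (a / p) : ℤ) := hpo.mul hne
      have h4 : Even (a % p + p * (a / p)) := h1.add_odd h3
      rw [← hdm] at h4
      exact (Int.not_even_iff_odd.mpr ha) h4
    obtain ⟨k, hk⟩ := h2
    have h5 : a = ((a : ZMod p).val : ℤ) + 2 * p * k := by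
      rw [hv]
      calc a = a % p + p * (a / p) := hdm
        _ = a % p + p * (k + k) := by rw [← hk]
        _ = a % p + 2 * p * k := by ring
    calc ct p a = ct p (((a : ZMod p).val : ℤ) + 2 * p * k) := by rw [← h5]
      _ = ct p ((a : ZMod p).val : ℤ) := ct_add_period hp _ _
  · have h1 : Even (a % p) := by
      rw [← hv]
      have := Nat.not_odd_iff_even.mp h
      exact_mod_cast this
    have h2 : Odd (a / p) := by
      by_contra hne
      rw [Int.not_odd_iff_even] at hne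
      have h3 : Even (p * (a / p) : ℤ) := hne.mul_left _
      have h4 : Even (a % p + p * (a / p)) := h1.add h3
      rw [← hdm] at h4
      exact (Int.not_even_iff_odd.mpr ha) h4
    obtain ⟨k, hk⟩ := h2
    have h5 : a = (((a : ZMod p).val : ℤ) + p) + 2 * p * k := by
      rw [hv]
      calc a = a % p + p * (a / p) := hdm
        _ = a % p + p * (2 * k + 1) := by rw [← hk]
        _ = (a % p + p) + 2 * p * k := by ring
    calc ct p a = ct p ((((a : ZMod p).val : ℤ) + p) + 2 * p * k) := by rw [← h5]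
      _ = ct p (((a : ZMod p).val : ℤ) + p) := ct_add_period hp _ _

lemma cz_zero {p : ℕ} (hp : 0 < p) : cz p 0 = 0 := by
  haveI : NeZero p := ⟨hp.ne'⟩
  unfold cz
  simp [ct_self hp]

lemma val_neg_of_ne_zero {p : ℕ} (hp : 0 < p) {z : ZMod p} (hz : z ≠ 0) :
    (-z).val = p - z.val := by
  haveI : NeZero p := ⟨hp.ne'⟩
  haveI : NeZero z := ⟨hz⟩
  exact ZMod.val_neg_of_ne_zero z

lemma cz_neg {p : ℕ} (hp : 0 < p) (hodd : Odd p) (z : ZMod p) : cz p (-z) = - cz p z := by
  haveI : NeZero p := ⟨hp.ne'⟩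
  by_cases hz : z = 0
  · subst hz; rw [neg_zero, cz_zero hp, neg_zero]
  · have hv := val_neg_of_ne_zero hp hz
    have hlt : z.val < p := ZMod.val_lt z
    have hcast : ((-z).val : ℤ) = p - z.val := by rw [hv]; omega
    unfold cz
    rw [hcast]
    by_cases h : Odd z.val
    · have h2 : ¬ Odd (-z).val := by
        rw [hv, Nat.not_odd_iff_even]
        exact Nat.Odd.sub_odd hodd h
      rw [if_neg h2, if_pos h]
      have : ((p : ℤ) - z.val + p) = -(z.val : ℤ) + 2 * p * 1 := by ring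
      rw [this, ct_add_period hp, ct_neg]
    · have h2 : Odd (-z).val := by
        rw [hv]
        have h' := Nat.not_odd_iff_even.mp h
        exact Nat.Odd.sub_even hlt.le hodd h'
      rw [if_pos h2, if_neg h]
      have : ((p : ℤ) - z.val) = -((z.val : ℤ) + p) + 2 * p * 1 := by ring
      rw [this, ct_add_period hp, ct_neg]

lemma sg_neg {p : ℕ} (hp : 0 < p) (hodd : Odd p) {z : ZMod p} (hz : z ≠ 0) :
    sg p (-z) = - sg p z := by
  haveI : NeZero p := ⟨hp.ne'⟩
  have hv := val_neg_of_ne_zero hp hz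
  have hlt : z.val < p := ZMod.val_lt z
  unfold sg
  by_cases h : Odd z.val
  · have h2 : ¬ Odd (-z).val := by
      rw [hv, Nat.not_odd_iff_even]
      exact Nat.Odd.sub_odd hodd h
    rw [if_neg h2, if_pos h]
  · have h2 : Odd (-z).val := by
      rw [hv]
      have h' := Nat.not_odd_iff_even.mp h
      exact Nat.Odd.sub_even hlt.le hodd h'
    rw [if_pos h2, if_neg h]; ring

lemma sum_zmod_eq_range {p : ℕ} (hp : 0 < p) (g : ZMod p → ℝ) :
    haveI : NeZero p := ⟨hp.ne'⟩
    ∑ z : ZMod p, g z = ∑ v ∈ range p, g (v : ZMod p) := by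
  haveI : NeZero p := ⟨hp.ne'⟩
  refine Finset.sum_nbij' (fun z => z.val) (fun v => (v : ZMod p)) ?_ ?_ ?_ ?_ ?_
  · intro z _; exact Finset.mem_range.mpr (ZMod.val_lt z)
  · intro v _; exact Finset.mem_univ _
  · intro z _; exact ZMod.natCast_zmod_val z
  · intro v hv; exact ZMod.val_natCast_of_lt (Finset.mem_range.mp hv)
  · intro z _; rw [ZMod.natCast_zmod_val z]

lemma sum_even_fun {p m : ℕ} (hpm : p = 2 * m + 1) (g : ZMod p → ℝ) (h0 : g 0 = 0)
    (hg : ∀ z, z ≠ 0 → g (-z) = g z) :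
    haveI : NeZero p := ⟨by omega⟩
    ∑ z : ZMod p, g z = 2 * ∑ l ∈ range m, g ((2 * l + 1 : ℕ) : ZMod p) := by
  have hp : 0 < p := by omega
  haveI : NeZero p := ⟨hp.ne'⟩
  rw [sum_zmod_eq_range hp]
  have h00 : (fun v : ℕ => g (v : ZMod p)) 0 = 0 := by simp [h0]
  rw [sum_range_eq_Icc (fun v : ℕ => g (v : ZMod p)) h00 p hp]
  have hp2 : p - 1 = 2 * m := by omega
  rw [hp2, sum_Icc_pairs, Finset.sum_add_distrib, two_mul]
  congr 1
  rw [← Finset.sum_range_reflect]
  refine Finset.sum_congr rfl (fun l hl => ?_)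
  rw [Finset.mem_range] at hl
  have e : ((2 * (m - 1 - l) + 2 : ℕ) : ZMod p) = - ((2 * l + 1 : ℕ) : ZMod p) := by
    rw [eq_neg_iff_add_eq_zero, ← Nat.cast_add]
    have : 2 * (m - 1 - l) + 2 + (2 * l + 1) = p := by omega
    rw [this]; exact ZMod.natCast_self p
  rw [e]
  apply hg
  intro h
  rw [ZMod.natCast_eq_zero_iff] at h
  have := Nat.le_of_dvd (by omega) h
  omega

lemma sum_ct_change {p m : ℕ} (hpr : p.Prime) (hpm : p = 2 * m + 1) {k : ℕ} (hk : k < m) :
    ∑ l ∈ range m, ct p ((2 * k + 1) * (2 * l + 1))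
      = ∑ l ∈ range m, eps p (2 * k + 1) (2 * l + 1) * ct p (2 * l + 1) := by
  have hp : 0 < p := hpr.pos
  have : NeZero p := ⟨hp.ne'⟩
  haveI : Fact p.Prime := ⟨hpr⟩
  have hodd : Odd p := ⟨m, hpm⟩
  set n : ZMod p := ((2 * k + 1 : ℕ) : ZMod p) with hn
  have hn0 : n ≠ 0 := by
    intro h
    rw [hn, ZMod.natCast_eq_zero_iff] at h
    have := Nat.le_of_dvd (by omega) h
    omega
  have hsmall : ∀ l ∈ range m, ((2 * l + 1 : ℕ) : ZMod p).val = 2 * l + 1 := by
    intro l hl
    rw [Finset.mem_range] at hl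
    exact ZMod.val_natCast_of_lt (by omega)
  -- first function
  have h1 := sum_even_fun hpm (fun z => sg p z * cz p (n * z)) (by simp [cz_zero hp]) (by
    intro z hz
    rw [sg_neg hp hodd hz, mul_neg, cz_neg hp hodd]
    ring)
  have h2 := sum_even_fun hpm (fun y => sg p (y * n⁻¹) * cz p y) (by simp [cz_zero hp]) (by
    intro z hz
    have hz' : z * n⁻¹ ≠ 0 := mul_ne_zero hz (inv_ne_zero hn0)
    rw [neg_mul, sg_neg hp hodd hz', cz_neg hp hodd]
    ring)
  have h3 : ∑ z : ZMod p, sg p z * cz p (n * z) = ∑ y : ZMod p, sg p (y * n⁻¹) * cz p y := by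
    refine Fintype.sum_equiv (Equiv.mulLeft₀ n hn0) _ _ (fun z => ?_)
    simp only [Equiv.mulLeft₀_apply]
    have : n * z * n⁻¹ = z := by field_simp
    rw [this]
  rw [h1, h2] at h3
  have h4 := mul_left_cancel₀ (two_ne_zero) h3
  have e1 : ∑ l ∈ range m, ct p ((2 * k + 1) * (2 * l + 1))
      = ∑ l ∈ range m, sg p ((2 * l + 1 : ℕ) : ZMod p) * cz p (n * ((2 * l + 1 : ℕ) : ZMod p)) := by
    refine Finset.sum_congr rfl (fun l hl => ?_)
    have hs : sg p ((2 * l + 1 : ℕ) : ZMod p) = 1 := by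
      unfold sg
      rw [hsmall l hl, if_pos ⟨l, rfl⟩]
    have hoddz : Odd ((2 * (k : ℤ) + 1) * (2 * l + 1)) := by
      have a1 : Odd (2 * (k : ℤ) + 1) := ⟨(k : ℤ), rfl⟩
      have a2 : Odd (2 * (l : ℤ) + 1) := ⟨(l : ℤ), rfl⟩
      exact a1.mul a2
    rw [hs, one_mul, ct_eq_cz hp hodd hoddz]
    congr 1
    rw [hn]; push_cast; ring
  have e2 : ∑ l ∈ range m, eps p (2 * k + 1) (2 * l + 1) * ct p (2 * l + 1)
      = ∑ l ∈ range m, sg p (((2 * l + 1 : ℕ) : ZMod p) * n⁻¹) * cz p ((2 * l + 1 : ℕ) : ZMod p) := by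
    refine Finset.sum_congr rfl (fun l hl => ?_)
    have hoddz : Odd (2 * (l : ℤ) + 1) := ⟨(l : ℤ), rfl⟩
    unfold eps
    rw [ct_eq_cz hp hodd hoddz]
    congr 2
    push_cast; ring
  rw [e1, e2]
  exact h4

/-- The key identity: `S(p) = (2/p) ∑_{n,i odd < p} cot(πn/2p) cot(πi/2p) ε(n,i)`. -/
theorem S_eq {p m : ℕ} (hpr : p.Prime) (hpm : p = 2 * m + 1) :
    (S p : ℝ) = (2 / p) * ∑ k ∈ range m, ∑ l ∈ range m,
      ct p (2 * k + 1) * ct p (2 * l + 1) * eps p (2 * k + 1) (2 * l + 1) := by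
  rw [S_eq_two hpr hpm]
  congr 1
  refine Finset.sum_congr rfl (fun k hk => ?_)
  rw [sum_ct_change hpr hpm (Finset.mem_range.mp hk), Finset.mul_sum]
  refine Finset.sum_congr rfl (fun l _ => ?_)
  ring

end Pool.Agent.ThetaSum
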