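import Pool.Agent.Lib.MP_d4c1d0_nt.SignFourier

set_option autoImplicit false
set_option linter.style.haveILetI false

open Finset Real

namespace Pool.Agent.ThetaSum

/-- The bilinear estimate for signs over two dyadic blocks of primes. -/
theorem block_sum {p m : ℕ} [hp : Fact p.Prime] (hpm : p = 2 * m + 1)
    {k₁ k₂ X₁ X₂ : ℕ} (hk₁ : 1 ≤ k₁) (hk₂ : 1 ≤ k₂) {Q₁ Q₂ : Finset ℕ}
    (hQ₁ : ∀ q ∈ Q₁, q.Prime ∧ k₂ < q ∧ q ≤ X₁ ∧ q < p ∧ X₁ ≤ 2 * q) (hX₁ : k₂ * X₁ ^ (2 * k₂ - 1) < p)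
    (hQ₂ : ∀ q ∈ Q₂, q.Prime ∧ k₁ < q ∧ q ≤ X₂ ∧ q < p ∧ X₂ ≤ 2 * q) (hX₂ : k₁ * X₂ ^ (2 * k₁ - 1) < p)
    (hX₁0 : 0 < X₁) (hX₂0 : 0 < X₂)
    {δ : ℝ} (hδ0 : 0 ≤ δ)
    (hδ : (k₁.factorial * k₂.factorial * p : ℝ) ≤ δ ^ (2 * k₁ * k₂) * (X₁ : ℝ) ^ k₂ * (X₂ : ℝ) ^ k₁)
    {c : ZMod p} (hc : c ≠ 0) :
    |∑ q₁ ∈ Q₁, ∑ q₂ ∈ Q₂, 1 / ((q₁ : ℝ) * q₂) * sg p (c * ((q₁ : ZMod p))⁻¹ * ((q₂ : ZMod p))⁻¹)|
      ≤ 8 * (1 + Real.log m) * δ := by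
  have hX₁R : (0 : ℝ) < X₁ := by exact_mod_cast hX₁0
  have hX₂R : (0 : ℝ) < X₂ := by exact_mod_cast hX₂0
  have hne₁ : ∀ q ∈ Q₁, (q : ZMod p) ≠ 0 := by
    intro q hq h0
    rw [ZMod.natCast_eq_zero_iff] at h0
    have := Nat.le_of_dvd (hQ₁ q hq).1.pos h0
    have := (hQ₁ q hq).2.2.2.1
    omega
  have hne₂ : ∀ q ∈ Q₂, (q : ZMod p) ≠ 0 := by
    intro q hq h0
    rw [ZMod.natCast_eq_zero_iff] at h0
    have := Nat.le_of_dvd (hQ₂ q hq).1.pos h0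
    have := (hQ₂ q hq).2.2.2.1
    omega
  rw [← Finset.sum_product' Q₁ Q₂ (fun q₁ q₂ => 1 / ((q₁ : ℝ) * q₂) *
    sg p (c * ((q₁ : ZMod p))⁻¹ * ((q₂ : ZMod p))⁻¹))]
  have hmain := sg_sum_le hpm (Q₁ ×ˢ Q₂) (fun x => 1 / ((x.1 : ℝ) * x.2))
    (fun x => c * ((x.1 : ZMod p))⁻¹ * ((x.2 : ZMod p))⁻¹)
    (by
      intro x hx
      rw [Finset.mem_product] at hx
      exact mul_ne_zero (mul_ne_zero hc (inv_ne_zero (hne₁ _ hx.1))) (inv_ne_zero (hne₂ _ hx.2)))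
    (B := 4 * δ) (by positivity) (by
      intro n hn
      set α : ℕ → ℂ := fun q => ((X₁ / (2 * q) : ℝ) : ℂ) with hα
      set β : ℕ → ℂ := fun q => ((X₂ / (2 * q) : ℝ) : ℂ) with hβ
      have hα1 : ∀ q ∈ Q₁, ‖α q‖ ≤ 1 := by
        intro q hq
        have hq0 : (0 : ℝ) < q := by exact_mod_cast (hQ₁ q hq).1.pos
        rw [hα, Complex.norm_real, Real.norm_eq_abs, abs_of_nonneg (by positivity)]
        rw [div_le_one (by positivity)]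
        exact_mod_cast (hQ₁ q hq).2.2.2.2
      have hβ1 : ∀ q ∈ Q₂, ‖β q‖ ≤ 1 := by
        intro q hq
        have hq0 : (0 : ℝ) < q := by exact_mod_cast (hQ₂ q hq).1.pos
        rw [hβ, Complex.norm_real, Real.norm_eq_abs, abs_of_nonneg (by positivity)]
        rw [div_le_one (by positivity)]
        exact_mod_cast (hQ₂ q hq).2.2.2.2
      have hbil := bilinear_bound hk₁ hk₂
        (fun q hq => ⟨(hQ₁ q hq).1, (hQ₁ q hq).2.1, (hQ₁ q hq).2.2.1, (hQ₁ q hq).2.2.2.1⟩) hX₁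
        (fun q hq => ⟨(hQ₂ q hq).1, (hQ₂ q hq).2.1, (hQ₂ q hq).2.2.1, (hQ₂ q hq).2.2.2.1⟩) hX₂
        α β hα1 hβ1 (mul_ne_zero hn hc)
      set Ss : ℂ := ∑ q₁ ∈ Q₁, ∑ q₂ ∈ Q₂, α q₁ * β q₂ *
        ee p (n * c * ((q₁ : ZMod p))⁻¹ * ((q₂ : ZMod p))⁻¹) with hSs
      have hcard₁ : (Q₁.card : ℝ) ≤ X₁ := by
        have : Q₁ ⊆ Finset.Icc 1 X₁ := by
          intro q hq
          rw [Finset.mem_Icc]
          exact ⟨(hQ₁ q hq).1.pos, (hQ₁ q hq).2.2.1⟩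
        have h := Finset.card_le_card this
        rw [Nat.card_Icc, Nat.add_sub_cancel] at h
        exact_mod_cast h
      have hcard₂ : (Q₂.card : ℝ) ≤ X₂ := by
        have : Q₂ ⊆ Finset.Icc 1 X₂ := by
          intro q hq
          rw [Finset.mem_Icc]
          exact ⟨(hQ₂ q hq).1.pos, (hQ₂ q hq).2.2.1⟩
        have h := Finset.card_le_card this
        rw [Nat.card_Icc, Nat.add_sub_cancel] at h
        exact_mod_cast h
      have hpos : 0 < 2 * k₁ * k₂ := by positivity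
      have hS : ‖Ss‖ ≤ X₁ * X₂ * δ := by
        have h1 : ‖Ss‖ ^ (2 * k₁ * k₂) ≤ (X₁ * X₂ * δ) ^ (2 * k₁ * k₂) := by
          calc ‖Ss‖ ^ (2 * k₁ * k₂) ≤ (Q₁.card : ℝ) ^ (2 * k₁ * k₂ - k₂) * (Q₂.card : ℝ) ^ (2 * k₁ * k₂ - k₁)
                * (k₁.factorial * k₂.factorial * p) := hbil
            _ ≤ (X₁ : ℝ) ^ (2 * k₁ * k₂ - k₂) * (X₂ : ℝ) ^ (2 * k₁ * k₂ - k₁)
                * (δ ^ (2 * k₁ * k₂) * (X₁ : ℝ) ^ k₂ * (X₂ : ℝ) ^ k₁) := by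
                apply mul_le_mul _ hδ (by positivity) (by positivity)
                apply mul_le_mul (pow_le_pow_left₀ (by positivity) hcard₁ _)
                  (pow_le_pow_left₀ (by positivity) hcard₂ _) (by positivity) (by positivity)
            _ = ((X₁ : ℝ) ^ (2 * k₁ * k₂ - k₂) * (X₁ : ℝ) ^ k₂) * ((X₂ : ℝ) ^ (2 * k₁ * k₂ - k₁) * (X₂ : ℝ) ^ k₁)
                * δ ^ (2 * k₁ * k₂) := by ring
            _ = (X₁ * X₂ * δ) ^ (2 * k₁ * k₂) := by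
                rw [← pow_add, ← pow_add, mul_pow, mul_pow]
                have e1 : 2 * k₁ * k₂ - k₂ + k₂ = 2 * k₁ * k₂ := by
                  apply Nat.sub_add_cancel; nlinarith
                have e2 : 2 * k₁ * k₂ - k₁ + k₁ = 2 * k₁ * k₂ := by
                  apply Nat.sub_add_cancel; nlinarith
                rw [e1, e2]
        exact le_of_pow_le_pow_left₀ hpos.ne' (by positivity) h1
      have hconv : ∑ x ∈ Q₁ ×ˢ Q₂, ((1 / ((x.1 : ℝ) * x.2) : ℝ) : ℂ) *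
          ee p (n * (c * ((x.1 : ZMod p))⁻¹ * ((x.2 : ZMod p))⁻¹))
          = ((4 / (X₁ * X₂) : ℝ) : ℂ) * Ss := by
        rw [hSs, Finset.sum_product, Finset.mul_sum]
        refine Finset.sum_congr rfl (fun q₁ hq₁ => ?_)
        rw [Finset.mul_sum]
        refine Finset.sum_congr rfl (fun q₂ hq₂ => ?_)
        have hq₁0 : (q₁ : ℂ) ≠ 0 := by exact_mod_cast (hQ₁ q₁ hq₁).1.ne_zero
        have hq₂0 : (q₂ : ℂ) ≠ 0 := by exact_mod_cast (hQ₂ q₂ hq₂).1.ne_zero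
        have hX₁c : (X₁ : ℂ) ≠ 0 := by exact_mod_cast hX₁0.ne'
        have hX₂c : (X₂ : ℂ) ≠ 0 := by exact_mod_cast hX₂0.ne'
        have e1 : n * (c * ((q₁ : ZMod p))⁻¹ * ((q₂ : ZMod p))⁻¹)
            = n * c * ((q₁ : ZMod p))⁻¹ * ((q₂ : ZMod p))⁻¹ := by ring
        rw [e1, hα, hβ]
        push_cast
        field_simp
        ring
      rw [hconv, norm_mul, Complex.norm_real, Real.norm_eq_abs, abs_of_nonneg (by positivity)]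
      calc 4 / ((X₁ : ℝ) * X₂) * ‖Ss‖ ≤ 4 / ((X₁ : ℝ) * X₂) * (X₁ * X₂ * δ) :=
            mul_le_mul_of_nonneg_left hS (by positivity)
        _ = 4 * δ := by field_simp)
  refine hmain.trans (le_of_eq ?_)
  ring

end Pool.Agent.ThetaSum
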