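import Mathlib

set_option autoImplicit false
set_option linter.style.haveILetI false

open Finset Real

namespace Pool.Agent.ThetaSum

/-- number of elements of `G` dividing `r`. -/
def NG (G : Finset ℕ) (r : ℕ) : ℕ := (G.filter (fun q => q ∣ r)).card

/-- Ramaré weight. -/
noncomputable def nu (G : Finset ℕ) (r : ℕ) : ℝ := 1 / ((NG G r : ℝ) * (NG G r - 1))

lemma card_pairs (G : Finset ℕ) (r : ℕ) :
    ∑ q₁ ∈ G, ∑ q₂ ∈ G, (if q₁ ≠ q₂ ∧ q₁ ∣ r ∧ q₂ ∣ r then (1 : ℝ) else 0)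
      = (NG G r : ℝ) * (NG G r - 1) := by
  have h1 : ∀ q₁ ∈ G, ∑ q₂ ∈ G, (if q₁ ≠ q₂ ∧ q₁ ∣ r ∧ q₂ ∣ r then (1 : ℝ) else 0)
      = if q₁ ∣ r then ((NG G r : ℝ) - 1) else 0 := by
    intro q₁ hq₁
    by_cases hd : q₁ ∣ r
    · rw [if_pos hd]
      have e1 : ∀ q₂ ∈ G, (if q₁ ≠ q₂ ∧ q₁ ∣ r ∧ q₂ ∣ r then (1 : ℝ) else 0)
          = (if q₂ ∣ r then (1 : ℝ) else 0) - (if q₂ = q₁ then (1 : ℝ) else 0) := by
        intro q₂ _
        by_cases h : q₂ = q₁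
        · subst h; simp [hd]
        · have h' : q₁ ≠ q₂ := Ne.symm h
          by_cases h2 : q₂ ∣ r
          · simp [h, h', hd, h2]
          · simp [h, h2]
      rw [Finset.sum_congr rfl e1, Finset.sum_sub_distrib, Finset.sum_ite_eq', if_pos hq₁,
        Finset.sum_boole]
      rfl
    · rw [if_neg hd]
      apply Finset.sum_eq_zero
      intro q₂ _
      rw [if_neg]
      intro h; exact hd h.2.1
  rw [Finset.sum_congr rfl h1, ← Finset.sum_filter, Finset.sum_const, nsmul_eq_mul]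
  rfl

/-- reindexing the multiples of `d` below `P`. -/
lemma sum_multiples (P d : ℕ) (hd : 0 < d) (φ : ℕ → ℝ) :
    ∑ n ∈ Finset.Ico 1 P, (if d * n < P then φ (d * n) else 0)
      = ∑ r ∈ Finset.Ico 1 P, (if d ∣ r then φ r else 0) := by
  rw [← Finset.sum_filter, ← Finset.sum_filter]
  refine Finset.sum_nbij' (fun n => d * n) (fun r => r / d) ?_ ?_ ?_ ?_ ?_
  · intro n hn
    rw [Finset.mem_filter, Finset.mem_Ico] at hn ⊢
    refine ⟨⟨?_, hn.2⟩, dvd_mul_right _ _⟩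
    have := hn.1.1
    exact Nat.mul_pos hd (by omega)
  · intro r hr
    rw [Finset.mem_filter, Finset.mem_Ico] at hr ⊢
    obtain ⟨⟨h1, h2⟩, w, rfl⟩ := hr
    rw [Nat.mul_div_cancel_left w hd]
    refine ⟨⟨?_, ?_⟩, h2⟩
    · rcases Nat.eq_zero_or_pos w with h0 | h0
      · subst h0; omega
      · exact h0
    · exact lt_of_le_of_lt (Nat.le_mul_of_pos_left w hd) h2
  · intro n _
    exact Nat.mul_div_cancel_left n hd
  · intro r hr
    rw [Finset.mem_filter] at hr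
    exact Nat.mul_div_cancel' hr.2
  · intro n _; rfl

/-- Ramaré's identity. -/
theorem ramare_identity (P : ℕ) (G : Finset ℕ) (hG : ∀ q ∈ G, q.Prime) (h : ℕ → ℝ) :
    ∑ q₁ ∈ G, ∑ q₂ ∈ G, ∑ n ∈ Finset.Ico 1 P,
      (if q₁ ≠ q₂ ∧ q₁ * q₂ * n < P then nu G (q₁ * q₂ * n) * h (q₁ * q₂ * n) else 0)
      = ∑ r ∈ (Finset.Ico 1 P).filter (fun r => 2 ≤ NG G r), h r := by
  have h1 : ∀ q₁ ∈ G, ∀ q₂ ∈ G, ∑ n ∈ Finset.Ico 1 P,
      (if q₁ ≠ q₂ ∧ q₁ * q₂ * n < P then nu G (q₁ * q₂ * n) * h (q₁ * q₂ * n) else 0)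
      = ∑ r ∈ Finset.Ico 1 P, (if q₁ ≠ q₂ ∧ q₁ ∣ r ∧ q₂ ∣ r then (1 : ℝ) else 0) * (nu G r * h r) := by
    intro q₁ hq₁ q₂ hq₂
    by_cases hne : q₁ = q₂
    · subst hne; simp
    · have e1 : ∀ n ∈ Finset.Ico 1 P, (if q₁ ≠ q₂ ∧ q₁ * q₂ * n < P then nu G (q₁ * q₂ * n) * h (q₁ * q₂ * n) else 0)
          = (if q₁ * q₂ * n < P then nu G (q₁ * q₂ * n) * h (q₁ * q₂ * n) else 0) := by
        intro n _
        by_cases h2 : q₁ * q₂ * n < P
        · rw [if_pos ⟨hne, h2⟩, if_pos h2]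
        · rw [if_neg (fun h3 => h2 h3.2), if_neg h2]
      rw [Finset.sum_congr rfl e1, sum_multiples P (q₁ * q₂) (Nat.mul_pos (hG _ hq₁).pos (hG _ hq₂).pos)
        (fun r => nu G r * h r)]
      refine Finset.sum_congr rfl (fun r _ => ?_)
      have hcop : Nat.Coprime q₁ q₂ := (Nat.coprime_primes (hG _ hq₁) (hG _ hq₂)).mpr hne
      by_cases hd : q₁ * q₂ ∣ r
      · have a1 : q₁ ∣ r := (dvd_mul_right _ _).trans hd
        have a2 : q₂ ∣ r := (dvd_mul_left _ _).trans hd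
        rw [if_pos hd, if_pos ⟨hne, a1, a2⟩, one_mul]
      · rw [if_neg hd, if_neg, zero_mul]
        rintro ⟨_, a1, a2⟩
        exact hd (hcop.mul_dvd_of_dvd_of_dvd a1 a2)
  rw [Finset.sum_congr rfl (fun q₁ hq₁ => Finset.sum_congr rfl (fun q₂ hq₂ => h1 q₁ hq₁ q₂ hq₂))]
  have h2 : ∑ q₁ ∈ G, ∑ q₂ ∈ G, ∑ r ∈ Finset.Ico 1 P,
      (if q₁ ≠ q₂ ∧ q₁ ∣ r ∧ q₂ ∣ r then (1 : ℝ) else 0) * (nu G r * h r)
      = ∑ r ∈ Finset.Ico 1 P, ((NG G r : ℝ) * (NG G r - 1)) * (nu G r * h r) := by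
    rw [Finset.sum_comm' (s := G) (t := fun _ => G) (s' := fun _ => G) (t' := G) (by simp)]
    rw [Finset.sum_congr rfl (fun q₂ _ => Finset.sum_comm), Finset.sum_comm]
    refine Finset.sum_congr rfl (fun r _ => ?_)
    rw [← card_pairs, Finset.sum_mul, Finset.sum_comm]
    refine Finset.sum_congr rfl (fun q₁ _ => ?_)
    rw [Finset.sum_mul]
  rw [h2, Finset.sum_filter]
  refine Finset.sum_congr rfl (fun r _ => ?_)
  split_ifs with hN
  · unfold nu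
    have a1 : (2 : ℝ) ≤ NG G r := by exact_mod_cast hN
    have a2 : (NG G r : ℝ) ≠ 0 := by linarith
    have a3 : (NG G r : ℝ) - 1 ≠ 0 := by linarith
    field_simp
  · have : (NG G r : ℝ) * (NG G r - 1) = 0 := by
      have hlt : NG G r < 2 := not_le.mp hN
      interval_cases hv : NG G r <;> simp
    rw [this, zero_mul]

end Pool.Agent.ThetaSum
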