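import Mathlib
import Pool.Agent.Lib.MP_d4c1d0_nt.Ramare

set_option autoImplicit false
set_option linter.style.haveILetI false

open Finset Real

namespace Pool.Agent.ThetaSum

/-- `∑_{1 ≤ n < P} 1/n ≤ 1 + log P`. -/
lemma sum_inv_le (P : ℕ) (hP : 1 ≤ P) :
    ∑ n ∈ Finset.Ico 1 P, (1 : ℝ) / n ≤ 1 + Real.log P := by
  have h1 : ∑ n ∈ Finset.Ico 1 P, (1 : ℝ) / n ≤ ((harmonic P : ℚ) : ℝ) := by
    rw [harmonic, Rat.cast_sum, Finset.sum_Ico_eq_sum_range]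
    have h2 : ∀ k ∈ Finset.range (P - 1), (1 : ℝ) / ((1 + k : ℕ) : ℝ)
        = (((((k + 1 : ℕ) : ℚ))⁻¹ : ℚ) : ℝ) := by
      intro k _
      push_cast
      rw [one_div, add_comm]
    rw [Finset.sum_congr rfl h2]
    apply Finset.sum_le_sum_of_subset_of_nonneg
    · intro x hx
      rw [Finset.mem_range] at hx ⊢
      omega
    · intro i _ _
      push_cast
      positivity
  exact h1.trans (harmonic_le_one_add_log P)

lemma sum_mult_inv_le (P q : ℕ) (hP : 1 ≤ P) (hq : 0 < q) :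
    ∑ n ∈ Finset.Ico 1 P, (if q ∣ n then (1 : ℝ) / n else 0)
      ≤ 1 / q * (1 + Real.log P) := by
  rw [← sum_multiples P q hq (fun r => (1 : ℝ) / r)]
  have h1 : ∀ n ∈ Finset.Ico 1 P, (if q * n < P then (1 : ℝ) / ((q * n : ℕ) : ℝ) else 0)
      ≤ 1 / q * (1 / n) := by
    intro n _
    split_ifs
    · push_cast
      rw [one_div_mul_one_div]
    · positivity
  refine (Finset.sum_le_sum h1).trans ?_
  rw [← Finset.mul_sum]
  exact mul_le_mul_of_nonneg_left (sum_inv_le P hP) (by positivity)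

/-- edge contribution -/
lemma edge_low (P R0 : ℕ) :
    ∑ r ∈ Finset.Ico 1 P, (if R0 ≤ r ∧ r < 4 * R0 then (1 : ℝ) / r else 0) ≤ 3 := by
  rcases Nat.eq_zero_or_pos R0 with h0 | h0
  · subst h0
    rw [Finset.sum_eq_zero]
    · norm_num
    · intro r _
      rw [if_neg]; omega
  rw [← Finset.sum_filter]
  have hR : (0 : ℝ) < R0 := by exact_mod_cast h0
  have h1 : ∀ r ∈ (Finset.Ico 1 P).filter (fun r => R0 ≤ r ∧ r < 4 * R0),
      (1 : ℝ) / r ≤ 1 / R0 := by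
    intro r hr
    rw [Finset.mem_filter] at hr
    apply one_div_le_one_div_of_le hR
    exact_mod_cast hr.2.1
  refine (Finset.sum_le_sum h1).trans ?_
  rw [Finset.sum_const, nsmul_eq_mul]
  have h2 : ((Finset.Ico 1 P).filter (fun r => R0 ≤ r ∧ r < 4 * R0)).card ≤ 3 * R0 := by
    have : (Finset.Ico 1 P).filter (fun r => R0 ≤ r ∧ r < 4 * R0) ⊆ Finset.Ico R0 (4 * R0) := by
      intro r hr
      rw [Finset.mem_filter] at hr
      rw [Finset.mem_Ico]; exact hr.2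
    refine (Finset.card_le_card this).trans ?_
    rw [Nat.card_Ico]; omega
  have h3 : ((((Finset.Ico 1 P).filter (fun r => R0 ≤ r ∧ r < 4 * R0)).card : ℕ) : ℝ)
      ≤ 3 * R0 := by exact_mod_cast h2
  rw [mul_one_div, div_le_iff₀ hR]
  exact h3

lemma edge_high (P : ℕ) :
    ∑ r ∈ Finset.Ico 1 P, (if P < 4 * r then (1 : ℝ) / r else 0) ≤ 4 := by
  rcases Nat.eq_zero_or_pos P with h0 | h0
  · subst h0; simp
  have hR : (0 : ℝ) < P := by exact_mod_cast h0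
  have h1 : ∀ r ∈ Finset.Ico 1 P, (if P < 4 * r then (1 : ℝ) / r else 0) ≤ 4 / P := by
    intro r hr
    rw [Finset.mem_Ico] at hr
    split_ifs with h
    · have hr0 : (0 : ℝ) < r := by
        have : 0 < r := by omega
        exact_mod_cast this
      rw [div_le_div_iff₀ hr0 hR]
      have : (P : ℝ) < 4 * r := by exact_mod_cast h
      linarith
    · positivity
  refine (Finset.sum_le_sum h1).trans ?_
  rw [Finset.sum_const, nsmul_eq_mul, Nat.card_Ico]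
  have h2 : ((P - 1 : ℕ) : ℝ) ≤ P := by exact_mod_cast Nat.sub_le P 1
  rw [mul_div_assoc', div_le_iff₀ hR]
  linarith

/-- the smooth weight attached to `n`. -/
noncomputable def ww (G : Finset ℕ) (n : ℕ) : ℝ := 1 / (((NG G n : ℝ) + 2) * ((NG G n : ℝ) + 1))

lemma ww_nonneg (G : Finset ℕ) (n : ℕ) : 0 ≤ ww G n := by unfold ww; positivity

lemma ww_le_one (G : Finset ℕ) (n : ℕ) : ww G n ≤ 1 := by
  unfold ww
  rw [div_le_one (by positivity)]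
  have : (0 : ℝ) ≤ NG G n := Nat.cast_nonneg _
  nlinarith

lemma nu_nonneg (G : Finset ℕ) (r : ℕ) : 0 ≤ nu G r := by
  unfold nu
  rcases Nat.eq_zero_or_pos (NG G r) with h | h
  · rw [h]; simp
  · have : (1 : ℝ) ≤ NG G r := by exact_mod_cast h
    apply div_nonneg zero_le_one
    apply mul_nonneg <;> linarith

lemma nu_le_one (G : Finset ℕ) (r : ℕ) : nu G r ≤ 1 := by
  unfold nu
  rcases Nat.lt_or_ge (NG G r) 2 with h | h
  · interval_cases hv : NG G r <;> simp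
  · have : (2 : ℝ) ≤ NG G r := by exact_mod_cast h
    rw [div_le_one (by nlinarith)]
    nlinarith

lemma NG_mul (G : Finset ℕ) (hG : ∀ q ∈ G, q.Prime) (q₁ q₂ n : ℕ) (h1 : q₁ ∈ G) (h2 : q₂ ∈ G)
    (hne : q₁ ≠ q₂) (hd1 : ¬ q₁ ∣ n) (hd2 : ¬ q₂ ∣ n) : NG G (q₁ * q₂ * n) = NG G n + 2 := by
  unfold NG
  have : G.filter (fun q => q ∣ q₁ * q₂ * n) = insert q₁ (insert q₂ (G.filter (fun q => q ∣ n))) := by
    ext q
    simp only [Finset.mem_filter, Finset.mem_insert]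
    constructor
    · rintro ⟨hq, hd⟩
      rcases (Nat.Prime.dvd_mul (hG q hq)).mp hd with h | h
      · rcases (Nat.Prime.dvd_mul (hG q hq)).mp h with h' | h'
        · left; exact (Nat.prime_dvd_prime_iff_eq (hG q hq) (hG _ h1)).mp h'
        · right; left; exact (Nat.prime_dvd_prime_iff_eq (hG q hq) (hG _ h2)).mp h'
      · right; right; exact ⟨hq, h⟩
    · rintro (rfl | rfl | ⟨hq, hd⟩)
      · exact ⟨h1, (dvd_mul_right _ _).mul_right _⟩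
      · exact ⟨h2, (dvd_mul_left _ _).mul_right _⟩
      · exact ⟨hq, hd.mul_left _⟩
  rw [this, Finset.card_insert_of_notMem, Finset.card_insert_of_notMem]
  · intro h
    rw [Finset.mem_filter] at h
    exact hd2 h.2
  · intro h
    rw [Finset.mem_insert, Finset.mem_filter] at h
    rcases h with h | h
    · exact hne h
    · exact hd1 h.2

lemma nu_eq_ww (G : Finset ℕ) (hG : ∀ q ∈ G, q.Prime) (q₁ q₂ n : ℕ) (h1 : q₁ ∈ G) (h2 : q₂ ∈ G)
    (hne : q₁ ≠ q₂) (hd1 : ¬ q₁ ∣ n) (hd2 : ¬ q₂ ∣ n) : nu G (q₁ * q₂ * n) = ww G n := by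
  unfold nu ww
  rw [NG_mul G hG q₁ q₂ n h1 h2 hne hd1 hd2]
  push_cast
  congr 2
  ring

/-- termwise comparison of the weights. -/
lemma weight_diff (G : Finset ℕ) (hG : ∀ q ∈ G, q.Prime) (q₁ q₂ n : ℕ) (h1 : q₁ ∈ G) (h2 : q₂ ∈ G)
    (y t : ℝ) (hy : |y| ≤ t) (C : Prop) [Decidable C] :
    |(if q₁ ≠ q₂ ∧ C then nu G (q₁ * q₂ * n) * y else 0) - (if C then ww G n * y else 0)|
      ≤ (if q₁ = q₂ then t else 0) + (if q₁ ∣ n then t else 0) + (if q₂ ∣ n then t else 0) := by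
  have ht : 0 ≤ t := (abs_nonneg y).trans hy
  have i1 : 0 ≤ (if q₁ = q₂ then t else 0) := by split_ifs <;> linarith
  have i2 : 0 ≤ (if q₁ ∣ n then t else 0) := by split_ifs <;> linarith
  have i3 : 0 ≤ (if q₂ ∣ n then t else 0) := by split_ifs <;> linarith
  by_cases hC : C
  swap
  · rw [if_neg (fun h => hC h.2), if_neg hC, sub_zero, abs_zero]
    linarith
  have a1 := nu_nonneg G (q₁ * q₂ * n)
  have a2 := nu_le_one G (q₁ * q₂ * n)
  have a3 := ww_nonneg G n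
  have a4 := ww_le_one G n
  by_cases hne : q₁ = q₂
  · rw [if_neg (fun h => h.1 hne), if_pos hC, if_pos hne, zero_sub, abs_neg, abs_mul, abs_of_nonneg a3]
    have : ww G n * |y| ≤ 1 * t := mul_le_mul a4 hy (abs_nonneg _) zero_le_one
    linarith
  · rw [if_pos ⟨hne, hC⟩, if_pos hC, ← sub_mul, abs_mul]
    have hd : |nu G (q₁ * q₂ * n) - ww G n| ≤ 1 := by rw [abs_le]; constructor <;> linarith
    by_cases hd1 : q₁ ∣ n
    · rw [if_pos hd1]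
      have : |nu G (q₁ * q₂ * n) - ww G n| * |y| ≤ 1 * t := mul_le_mul hd hy (abs_nonneg _) zero_le_one
      linarith
    · by_cases hd2 : q₂ ∣ n
      · rw [if_pos hd2]
        have : |nu G (q₁ * q₂ * n) - ww G n| * |y| ≤ 1 * t := mul_le_mul hd hy (abs_nonneg _) zero_le_one
        linarith
      · rw [nu_eq_ww G hG q₁ q₂ n h1 h2 hne hd1 hd2, sub_self, abs_zero, zero_mul]
        linarith

lemma sum_comm3 (A C D : Finset ℕ) (φ : ℕ → ℕ → ℕ → ℝ) :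
    ∑ q₁ ∈ A, ∑ q₂ ∈ C, ∑ n ∈ D, φ q₁ q₂ n = ∑ n ∈ D, ∑ q₁ ∈ A, ∑ q₂ ∈ C, φ q₁ q₂ n := by
  have h : ∀ q₁ ∈ A, ∑ q₂ ∈ C, ∑ n ∈ D, φ q₁ q₂ n = ∑ n ∈ D, ∑ q₂ ∈ C, φ q₁ q₂ n :=
    fun q₁ _ => Finset.sum_comm
  rw [Finset.sum_congr rfl h]
  exact Finset.sum_comm

section Compare

variable {ι : Type*} [DecidableEq ι]

/-- the weighted sum over triples satisfying the block condition -/
noncomputable def TT (P R0 : ℕ) (G : Finset ℕ) (f : ℕ → ℝ) (lab : ℕ → ι) (X : ι → ℕ) : ℝ :=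
  ∑ q₁ ∈ G, ∑ q₂ ∈ G, ∑ n ∈ Finset.Ico 1 P,
    (if 4 * R0 ≤ X (lab q₁) * X (lab q₂) * n ∧ X (lab q₁) * X (lab q₂) * n ≤ P
      then ww G n * (f (q₁ * q₂ * n) / ((q₁ * q₂ * n : ℕ) : ℝ)) else 0)

lemma TT_le (P R0 : ℕ) (hP : 1 ≤ P) (G : Finset ℕ) (f : ℕ → ℝ) (lab : ℕ → ι)
    (X : ι → ℕ) (labs : Finset ι) (hlab : ∀ q ∈ G, lab q ∈ labs) (B : ℝ) (hB0 : 0 ≤ B)
    (hB : ∀ b₁ ∈ labs, ∀ b₂ ∈ labs, ∀ n ∈ Finset.Ico 1 P,
      |∑ q₁ ∈ G.filter (fun q => lab q = b₁), ∑ q₂ ∈ G.filter (fun q => lab q = b₂),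
        f (q₁ * q₂ * n) / ((q₁ * q₂ : ℕ) : ℝ)| ≤ B) :
    |TT P R0 G f lab X| ≤ (labs.card : ℝ) ^ 2 * ((1 + Real.log P) * B) := by
  have h1 : TT P R0 G f lab X = ∑ b₁ ∈ labs, ∑ b₂ ∈ labs,
      ∑ q₁ ∈ G.filter (fun q => lab q = b₁), ∑ q₂ ∈ G.filter (fun q => lab q = b₂),
      ∑ n ∈ Finset.Ico 1 P,
      (if 4 * R0 ≤ X b₁ * X b₂ * n ∧ X b₁ * X b₂ * n ≤ P
        then ww G n * (f (q₁ * q₂ * n) / ((q₁ * q₂ * n : ℕ) : ℝ)) else 0) := by
    have fib : ∀ g : ℕ → ℝ, ∑ q ∈ G, g q = ∑ b ∈ labs, ∑ q ∈ G.filter (fun q => lab q = b), g q :=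
      fun g => (Finset.sum_fiberwise_of_maps_to hlab g).symm
    unfold TT
    rw [fib]
    refine Finset.sum_congr rfl (fun b₁ _ => ?_)
    symm
    rw [Finset.sum_comm]
    symm
    refine Finset.sum_congr rfl (fun q₁ hq₁ => ?_)
    rw [fib]
    refine Finset.sum_congr rfl (fun b₂ _ => ?_)
    refine Finset.sum_congr rfl (fun q₂ hq₂ => ?_)
    rw [Finset.mem_filter] at hq₁ hq₂
    rw [hq₁.2, hq₂.2]
  rw [h1]
  have h2 : ∀ b₁ ∈ labs, ∀ b₂ ∈ labs,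
      |∑ q₁ ∈ G.filter (fun q => lab q = b₁), ∑ q₂ ∈ G.filter (fun q => lab q = b₂),
      ∑ n ∈ Finset.Ico 1 P,
      (if 4 * R0 ≤ X b₁ * X b₂ * n ∧ X b₁ * X b₂ * n ≤ P
        then ww G n * (f (q₁ * q₂ * n) / ((q₁ * q₂ * n : ℕ) : ℝ)) else 0)|
      ≤ (1 + Real.log P) * B := by
    intro b₁ hb₁ b₂ hb₂
    have h3 : ∑ q₁ ∈ G.filter (fun q => lab q = b₁), ∑ q₂ ∈ G.filter (fun q => lab q = b₂),
      ∑ n ∈ Finset.Ico 1 P,
      (if 4 * R0 ≤ X b₁ * X b₂ * n ∧ X b₁ * X b₂ * n ≤ P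
        then ww G n * (f (q₁ * q₂ * n) / ((q₁ * q₂ * n : ℕ) : ℝ)) else 0)
      = ∑ n ∈ Finset.Ico 1 P, (if 4 * R0 ≤ X b₁ * X b₂ * n ∧ X b₁ * X b₂ * n ≤ P
        then ww G n / n else 0) *
        (∑ q₁ ∈ G.filter (fun q => lab q = b₁), ∑ q₂ ∈ G.filter (fun q => lab q = b₂),
        f (q₁ * q₂ * n) / ((q₁ * q₂ : ℕ) : ℝ)) := by
      rw [sum_comm3]
      refine Finset.sum_congr rfl (fun n _ => ?_)
      rw [Finset.mul_sum]
      refine Finset.sum_congr rfl (fun q₁ _ => ?_)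
      rw [Finset.mul_sum]
      refine Finset.sum_congr rfl (fun q₂ _ => ?_)
      split_ifs
      · push_cast
        rw [div_mul_div_comm, mul_div_assoc', mul_comm (n : ℝ)]
      · rw [zero_mul]
    rw [h3]
    refine (Finset.abs_sum_le_sum_abs _ _).trans ?_
    have h4 : ∀ n ∈ Finset.Ico 1 P, |(if 4 * R0 ≤ X b₁ * X b₂ * n ∧ X b₁ * X b₂ * n ≤ P
        then ww G n / n else 0) *
        (∑ q₁ ∈ G.filter (fun q => lab q = b₁), ∑ q₂ ∈ G.filter (fun q => lab q = b₂),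
        f (q₁ * q₂ * n) / ((q₁ * q₂ : ℕ) : ℝ))| ≤ 1 / n * B := by
      intro n hn
      rw [abs_mul]
      apply mul_le_mul _ (hB b₁ hb₁ b₂ hb₂ n hn) (abs_nonneg _) (by positivity)
      split_ifs
      · rw [abs_of_nonneg (div_nonneg (ww_nonneg G n) (Nat.cast_nonneg n))]
        exact div_le_div_of_nonneg_right (ww_le_one G n) (Nat.cast_nonneg n)
      · rw [abs_zero]; positivity
    refine (Finset.sum_le_sum h4).trans ?_
    rw [← Finset.sum_mul]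
    exact mul_le_mul_of_nonneg_right (sum_inv_le P hP) hB0
  refine (Finset.abs_sum_le_sum_abs _ _).trans ?_
  refine (Finset.sum_le_sum (fun b₁ hb₁ => (Finset.abs_sum_le_sum_abs _ _).trans
    (Finset.sum_le_sum (fun b₂ hb₂ => h2 b₁ hb₁ b₂ hb₂)))).trans ?_
  rw [Finset.sum_const, Finset.sum_const, smul_smul, nsmul_eq_mul]
  push_cast
  rw [pow_two]

omit [DecidableEq ι] in
/-- comparison of the Ramaré sum with the block sum. -/
lemma T1_T2 (P R0 : ℕ) (hP : 1 ≤ P) (G : Finset ℕ) (hG : ∀ q ∈ G, q.Prime) (f : ℕ → ℝ)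
    (hf : ∀ r, |f r| ≤ 1) (lab : ℕ → ι) (X : ι → ℕ) :
    |(∑ q₁ ∈ G, ∑ q₂ ∈ G, ∑ n ∈ Finset.Ico 1 P,
      (if q₁ ≠ q₂ ∧ (4 * R0 ≤ X (lab q₁) * X (lab q₂) * n ∧ X (lab q₁) * X (lab q₂) * n ≤ P)
      then nu G (q₁ * q₂ * n) * (f (q₁ * q₂ * n) / ((q₁ * q₂ * n : ℕ) : ℝ)) else 0))
      - TT P R0 G f lab X|
    ≤ (1 + Real.log P) * ((∑ q ∈ G, 1 / (q : ℝ) ^ 2) * (1 + 2 * ∑ q ∈ G, 1 / (q : ℝ))) := by
  unfold TT
  rw [← Finset.sum_sub_distrib]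
  refine (Finset.abs_sum_le_sum_abs _ _).trans ?_
  have h1 : ∀ q₁ ∈ G, |(∑ q₂ ∈ G, ∑ n ∈ Finset.Ico 1 P,
      (if q₁ ≠ q₂ ∧ (4 * R0 ≤ X (lab q₁) * X (lab q₂) * n ∧ X (lab q₁) * X (lab q₂) * n ≤ P)
      then nu G (q₁ * q₂ * n) * (f (q₁ * q₂ * n) / ((q₁ * q₂ * n : ℕ) : ℝ)) else 0))
      - ∑ q₂ ∈ G, ∑ n ∈ Finset.Ico 1 P,
    (if 4 * R0 ≤ X (lab q₁) * X (lab q₂) * n ∧ X (lab q₁) * X (lab q₂) * n ≤ P
      then ww G n * (f (q₁ * q₂ * n) / ((q₁ * q₂ * n : ℕ) : ℝ)) else 0)|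
      ≤ ∑ q₂ ∈ G, ((if q₁ = q₂ then 1 / (q₁ * q₂ : ℝ) * (1 + Real.log P) else 0)
        + 1 / (q₁ * q₂ : ℝ) * (1 / q₁ * (1 + Real.log P))
        + 1 / (q₁ * q₂ : ℝ) * (1 / q₂ * (1 + Real.log P))) := by
    intro q₁ hq₁
    rw [← Finset.sum_sub_distrib]
    refine (Finset.abs_sum_le_sum_abs _ _).trans ?_
    refine Finset.sum_le_sum (fun q₂ hq₂ => ?_)
    rw [← Finset.sum_sub_distrib]
    refine (Finset.abs_sum_le_sum_abs _ _).trans ?_
    have h2 : ∀ n ∈ Finset.Ico 1 P,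
      |(if q₁ ≠ q₂ ∧ (4 * R0 ≤ X (lab q₁) * X (lab q₂) * n ∧ X (lab q₁) * X (lab q₂) * n ≤ P)
      then nu G (q₁ * q₂ * n) * (f (q₁ * q₂ * n) / ((q₁ * q₂ * n : ℕ) : ℝ)) else 0)
      - (if 4 * R0 ≤ X (lab q₁) * X (lab q₂) * n ∧ X (lab q₁) * X (lab q₂) * n ≤ P
      then ww G n * (f (q₁ * q₂ * n) / ((q₁ * q₂ * n : ℕ) : ℝ)) else 0)|
      ≤ (if q₁ = q₂ then 1 / (q₁ * q₂ : ℝ) * (1 / n) else 0)
        + 1 / (q₁ * q₂ : ℝ) * (if q₁ ∣ n then 1 / (n : ℝ) else 0)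
        + 1 / (q₁ * q₂ : ℝ) * (if q₂ ∣ n then 1 / (n : ℝ) else 0) := by
      intro n _
      have hy : |f (q₁ * q₂ * n) / ((q₁ * q₂ * n : ℕ) : ℝ)| ≤ 1 / (q₁ * q₂ : ℝ) * (1 / n) := by
        rw [abs_div, abs_of_nonneg (Nat.cast_nonneg (α := ℝ) _), one_div_mul_one_div]
        push_cast
        exact div_le_div_of_nonneg_right (hf _) (by positivity)
      have := weight_diff G hG q₁ q₂ n hq₁ hq₂ _ _ hy
        (4 * R0 ≤ X (lab q₁) * X (lab q₂) * n ∧ X (lab q₁) * X (lab q₂) * n ≤ P)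
      refine this.trans (le_of_eq ?_)
      rw [mul_ite, mul_ite, mul_zero]
    refine (Finset.sum_le_sum h2).trans ?_
    rw [Finset.sum_add_distrib, Finset.sum_add_distrib, ← Finset.mul_sum, ← Finset.mul_sum]
    have hc : (0 : ℝ) ≤ 1 / (q₁ * q₂ : ℝ) := by positivity
    refine add_le_add (add_le_add ?_ ?_) ?_
    · split_ifs
      · rw [← Finset.mul_sum]
        exact mul_le_mul_of_nonneg_left (sum_inv_le P hP) hc
      · simp
    · exact mul_le_mul_of_nonneg_left (sum_mult_inv_le P q₁ hP (hG _ hq₁).pos) hc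
    · exact mul_le_mul_of_nonneg_left (sum_mult_inv_le P q₂ hP (hG _ hq₂).pos) hc
  refine (Finset.sum_le_sum h1).trans (le_of_eq ?_)
  have e1 : ∑ q₁ ∈ G, ∑ q₂ ∈ G, (if q₁ = q₂ then 1 / (q₁ * q₂ : ℝ) * (1 + Real.log P) else 0)
      = (1 + Real.log P) * ∑ q ∈ G, 1 / (q : ℝ) ^ 2 := by
    rw [Finset.mul_sum]
    refine Finset.sum_congr rfl (fun q hq => ?_)
    rw [Finset.sum_ite_eq, if_pos hq, mul_comm, ← pow_two]
  have e2 : ∑ q₁ ∈ G, ∑ q₂ ∈ G, 1 / (q₁ * q₂ : ℝ) * (1 / q₁ * (1 + Real.log P))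
      = (1 + Real.log P) * ((∑ q ∈ G, 1 / (q : ℝ) ^ 2) * ∑ q ∈ G, 1 / (q : ℝ)) := by
    rw [Finset.sum_mul_sum, Finset.mul_sum]
    refine Finset.sum_congr rfl (fun q₁ hq₁ => ?_)
    rw [Finset.mul_sum]
    refine Finset.sum_congr rfl (fun q₂ hq₂ => ?_)
    have a1 : (q₁ : ℝ) ≠ 0 := by exact_mod_cast (hG _ hq₁).pos.ne'
    have a2 : (q₂ : ℝ) ≠ 0 := by exact_mod_cast (hG _ hq₂).pos.ne'
    field_simp
  have e3 : ∑ q₁ ∈ G, ∑ q₂ ∈ G, 1 / (q₁ * q₂ : ℝ) * (1 / q₂ * (1 + Real.log P))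
      = (1 + Real.log P) * ((∑ q ∈ G, 1 / (q : ℝ) ^ 2) * ∑ q ∈ G, 1 / (q : ℝ)) := by
    rw [Finset.sum_comm, ← e2]
    refine Finset.sum_congr rfl (fun q₁ hq₁ => ?_)
    refine Finset.sum_congr rfl (fun q₂ hq₂ => ?_)
    rw [mul_comm (q₂ : ℝ)]
  rw [Finset.sum_congr rfl (fun q₁ _ => Finset.sum_add_distrib), Finset.sum_add_distrib,
    Finset.sum_congr rfl (fun q₁ _ => Finset.sum_add_distrib), Finset.sum_add_distrib,
    e1, e2, e3]
  ring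

/-- **Comparison theorem.** -/
theorem ramare_compare (P R0 : ℕ) (hP : 1 ≤ P) (G : Finset ℕ) (hG : ∀ q ∈ G, q.Prime)
    (f : ℕ → ℝ) (hf : ∀ r, |f r| ≤ 1) (lab : ℕ → ι) (X : ι → ℕ)
    (hX : ∀ q ∈ G, q < X (lab q) ∧ X (lab q) ≤ 2 * q)
    (labs : Finset ι) (hlab : ∀ q ∈ G, lab q ∈ labs) (B : ℝ) (hB0 : 0 ≤ B)
    (hB : ∀ b₁ ∈ labs, ∀ b₂ ∈ labs, ∀ n ∈ Finset.Ico 1 P,
      |∑ q₁ ∈ G.filter (fun q => lab q = b₁), ∑ q₂ ∈ G.filter (fun q => lab q = b₂),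
        f (q₁ * q₂ * n) / ((q₁ * q₂ : ℕ) : ℝ)| ≤ B) :
    |∑ r ∈ Finset.Ico 1 P, (if R0 ≤ r then f r / r else 0)|
      ≤ ∑ r ∈ (Finset.Ico 1 P).filter (fun r => NG G r ≤ 1), 1 / (r : ℝ)
        + 7 + (1 + Real.log P) * ((∑ q ∈ G, 1 / (q : ℝ) ^ 2) * (1 + 2 * ∑ q ∈ G, 1 / (q : ℝ)))
        + (labs.card : ℝ) ^ 2 * ((1 + Real.log P) * B) := by
  set h : ℕ → ℝ := fun r => if R0 ≤ r then f r / r else 0 with hh
  have habs : ∀ r, |h r| ≤ 1 / r := by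
    intro r
    rw [hh]
    dsimp only
    split_ifs
    · rw [abs_div, abs_of_nonneg (Nat.cast_nonneg (α := ℝ) _)]
      exact div_le_div_of_nonneg_right (hf r) (Nat.cast_nonneg r)
    · rw [abs_zero]; positivity
  -- split according to the number of prime factors in G
  have hsplit : ∑ r ∈ Finset.Ico 1 P, h r
      = ∑ r ∈ (Finset.Ico 1 P).filter (fun r => NG G r ≤ 1), h r
        + ∑ r ∈ (Finset.Ico 1 P).filter (fun r => 2 ≤ NG G r), h r := by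
    rw [← Finset.sum_filter_add_sum_filter_not _ (fun r => NG G r ≤ 1)]
    congr 1
    apply Finset.sum_congr _ (fun _ _ => rfl)
    apply Finset.filter_congr
    intro r _
    omega
  have hexc : |∑ r ∈ (Finset.Ico 1 P).filter (fun r => NG G r ≤ 1), h r|
      ≤ ∑ r ∈ (Finset.Ico 1 P).filter (fun r => NG G r ≤ 1), 1 / (r : ℝ) :=
    (Finset.abs_sum_le_sum_abs _ _).trans (Finset.sum_le_sum (fun r _ => habs r))
  -- T and T1
  set e : ℕ → ℝ := fun r => (if R0 ≤ r ∧ r < 4 * R0 then (1 : ℝ) / r else 0)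
    + (if P < 4 * r then (1 : ℝ) / r else 0) with he
  have he0 : ∀ r, 0 ≤ e r := by
    intro r
    rw [he]; dsimp only
    apply add_nonneg <;> split_ifs <;> positivity
  have hT : |∑ r ∈ (Finset.Ico 1 P).filter (fun r => 2 ≤ NG G r), h r -
      (∑ q₁ ∈ G, ∑ q₂ ∈ G, ∑ n ∈ Finset.Ico 1 P,
      (if q₁ ≠ q₂ ∧ (4 * R0 ≤ X (lab q₁) * X (lab q₂) * n ∧ X (lab q₁) * X (lab q₂) * n ≤ P)
      then nu G (q₁ * q₂ * n) * (f (q₁ * q₂ * n) / ((q₁ * q₂ * n : ℕ) : ℝ)) else 0))| ≤ 7 := by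
    rw [← ramare_identity P G hG h, ← Finset.sum_sub_distrib]
    refine (Finset.abs_sum_le_sum_abs _ _).trans ?_
    have h7 : ∑ r ∈ (Finset.Ico 1 P).filter (fun r => 2 ≤ NG G r), e r ≤ 7 := by
      refine (Finset.sum_le_sum_of_subset_of_nonneg (Finset.filter_subset _ _)
        (fun r _ _ => he0 r)).trans ?_
      rw [he, Finset.sum_add_distrib]
      have := edge_low P R0
      have := edge_high P
      linarith
    refine le_trans ?_ h7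
    rw [← ramare_identity P G hG e]
    refine Finset.sum_le_sum (fun q₁ hq₁ => ?_)
    rw [← Finset.sum_sub_distrib]
    refine (Finset.abs_sum_le_sum_abs _ _).trans (Finset.sum_le_sum (fun q₂ hq₂ => ?_))
    rw [← Finset.sum_sub_distrib]
    refine (Finset.abs_sum_le_sum_abs _ _).trans (Finset.sum_le_sum (fun n hn => ?_))
    have hn1 : 1 ≤ n := (Finset.mem_Ico.mp hn).1
    obtain ⟨x1, x2⟩ := hX q₁ hq₁
    obtain ⟨y1, y2⟩ := hX q₂ hq₂
    have hlt : q₁ * q₂ * n < X (lab q₁) * X (lab q₂) * n := by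
      apply Nat.mul_lt_mul_of_pos_right _ hn1
      exact Nat.mul_lt_mul_of_lt_of_le x1 y1.le (lt_of_le_of_lt (Nat.zero_le _) y1)
    have hle : X (lab q₁) * X (lab q₂) * n ≤ 4 * (q₁ * q₂ * n) := by
      calc X (lab q₁) * X (lab q₂) * n ≤ (2 * q₁) * (2 * q₂) * n :=
            Nat.mul_le_mul_right _ (Nat.mul_le_mul x2 y2)
        _ = 4 * (q₁ * q₂ * n) := by ring
    by_cases hne : q₁ = q₂
    · rw [if_neg (fun h => h.1 hne), if_neg (fun h => h.1 hne), if_neg (fun h => h.1 hne),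
        sub_zero, abs_zero]
    by_cases hlP : q₁ * q₂ * n < P
    swap
    · have hC1 : ¬ (q₁ ≠ q₂ ∧ q₁ * q₂ * n < P) := fun h => hlP h.2
      have hC2 : ¬ (q₁ ≠ q₂ ∧ (4 * R0 ≤ X (lab q₁) * X (lab q₂) * n ∧
          X (lab q₁) * X (lab q₂) * n ≤ P)) := by
        rintro ⟨_, _, h3⟩
        exact hlP (lt_of_lt_of_le hlt h3)
      rw [if_neg hC1, if_neg hC1, if_neg hC2, sub_zero, abs_zero]
    have hC1 : q₁ ≠ q₂ ∧ q₁ * q₂ * n < P := ⟨hne, hlP⟩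
    rw [if_pos hC1, if_pos hC1]
    have hnu := nu_nonneg G (q₁ * q₂ * n)
    by_cases hfull : 4 * R0 ≤ X (lab q₁) * X (lab q₂) * n ∧ X (lab q₁) * X (lab q₂) * n ≤ P
    · have hC2 : q₁ ≠ q₂ ∧ (4 * R0 ≤ X (lab q₁) * X (lab q₂) * n ∧
          X (lab q₁) * X (lab q₂) * n ≤ P) := ⟨hne, hfull⟩
      rw [if_pos hC2]
      have hR : R0 ≤ q₁ * q₂ * n := by
        have := hfull.1
        omega
      have : h (q₁ * q₂ * n) = f (q₁ * q₂ * n) / ((q₁ * q₂ * n : ℕ) : ℝ) := by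
        rw [hh]; dsimp only; rw [if_pos hR]
      rw [this, sub_self, abs_zero]
      exact mul_nonneg hnu (he0 _)
    · have hC2 : ¬ (q₁ ≠ q₂ ∧ (4 * R0 ≤ X (lab q₁) * X (lab q₂) * n ∧
          X (lab q₁) * X (lab q₂) * n ≤ P)) := fun h => hfull h.2
      rw [if_neg hC2, sub_zero, abs_mul, abs_of_nonneg hnu]
      apply mul_le_mul_of_nonneg_left _ hnu
      by_cases hR : R0 ≤ q₁ * q₂ * n
      · refine (habs _).trans ?_
        rw [he]; dsimp only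
        by_cases h4 : q₁ * q₂ * n < 4 * R0
        · rw [if_pos ⟨hR, h4⟩]
          have : (0 : ℝ) ≤ (if P < 4 * (q₁ * q₂ * n) then (1 : ℝ) / ((q₁ * q₂ * n : ℕ) : ℝ) else 0) := by
            split_ifs <;> positivity
          linarith
        · have h5 : P < 4 * (q₁ * q₂ * n) := by
            by_contra h6
            apply hfull
            constructor
            · omega
            · omega
          rw [if_pos h5]
          have : (0 : ℝ) ≤ (if R0 ≤ q₁ * q₂ * n ∧ q₁ * q₂ * n < 4 * R0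
              then (1 : ℝ) / ((q₁ * q₂ * n : ℕ) : ℝ) else 0) := by
            split_ifs <;> positivity
          linarith
      · have : h (q₁ * q₂ * n) = 0 := by
          rw [hh]; dsimp only; rw [if_neg hR]
        rw [this, abs_zero]
        exact he0 _
  have h12 := T1_T2 P R0 hP G hG f hf lab X
  have h23 := TT_le P R0 hP G f lab X labs hlab B hB0 hB
  rw [hsplit]
  rw [abs_le] at *
  constructor <;> linarith

end Compare

end Pool.Agent.ThetaSum
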