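import Mathlib
import Pool.Agent.Lib.MP_d4c1d0_nt.Compare

set_option autoImplicit false
set_option linter.style.haveILetI false

open Finset Real

namespace Pool.Agent.ThetaSum

lemma NG_mul_le (G : Finset ℕ) (hG : ∀ q ∈ G, q.Prime) (q₁ q₂ n : ℕ) (h1 : q₁ ∈ G) (h2 : q₂ ∈ G) :
    NG G (q₁ * q₂ * n) ≤ NG G n + 2 := by
  unfold NG
  have hsub : G.filter (fun q => q ∣ q₁ * q₂ * n) ⊆
      insert q₁ (insert q₂ (G.filter (fun q => q ∣ n))) := by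
    intro q hq
    simp only [Finset.mem_filter, Finset.mem_insert] at hq ⊢
    obtain ⟨hq, hd⟩ := hq
    rcases (Nat.Prime.dvd_mul (hG q hq)).mp hd with h | h
    · rcases (Nat.Prime.dvd_mul (hG q hq)).mp h with h' | h'
      · left; exact (Nat.prime_dvd_prime_iff_eq (hG q hq) (hG _ h1)).mp h'
      · right; left; exact (Nat.prime_dvd_prime_iff_eq (hG q hq) (hG _ h2)).mp h'
    · right; right; exact ⟨hq, h⟩
  refine (Finset.card_le_card hsub).trans ?_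
  refine (Finset.card_insert_le _ _).trans ?_
  have := Finset.card_insert_le q₂ (G.filter (fun q => q ∣ n))
  omega

lemma offdiag_sum (G : Finset ℕ) :
    ∑ q₁ ∈ G, ∑ q₂ ∈ G, (if q₁ ≠ q₂ then 1 / ((q₁ : ℝ) * q₂) else 0)
      = (∑ q ∈ G, 1 / (q : ℝ)) ^ 2 - ∑ q ∈ G, 1 / (q : ℝ) ^ 2 := by
  have h1 : ∀ q₁ ∈ G, ∑ q₂ ∈ G, (if q₁ ≠ q₂ then 1 / ((q₁ : ℝ) * q₂) else 0)
      = ∑ q₂ ∈ G, 1 / (q₁ : ℝ) * (1 / q₂) - 1 / (q₁ : ℝ) ^ 2 := by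
    intro q₁ hq₁
    have h2 : ∀ q₂ ∈ G, (if q₁ ≠ q₂ then 1 / ((q₁ : ℝ) * q₂) else 0)
        = 1 / (q₁ : ℝ) * (1 / q₂) - (if q₁ = q₂ then 1 / (q₁ : ℝ) ^ 2 else 0) := by
      intro q₂ _
      by_cases h : q₁ = q₂
      · subst h
        rw [if_neg (fun h => h rfl), if_pos rfl, one_div_mul_one_div, ← pow_two, sub_self]
      · rw [if_pos h, if_neg h, sub_zero, one_div_mul_one_div]
    rw [Finset.sum_congr rfl h2, Finset.sum_sub_distrib, Finset.sum_ite_eq, if_pos hq₁]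
  rw [Finset.sum_congr rfl h1, Finset.sum_sub_distrib, pow_two, Finset.sum_mul_sum]

/-- the set of integers with at most one prime factor in `G` is small. -/
theorem exceptional (P : ℕ) (hP : 1 ≤ P) (G : Finset ℕ) (hG : ∀ q ∈ G, q.Prime)
    (hGP : ∀ q ∈ G, q < P) :
    (∑ r ∈ (Finset.Ico 1 P).filter (fun r => NG G r ≤ 1), 1 / (r : ℝ))
      * ((∑ q ∈ G, 1 / (q : ℝ)) ^ 2 - ∑ q ∈ G, 1 / (q : ℝ) ^ 2)
      ≤ 6 * (1 + 3 * Real.log P) := by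
  rw [← offdiag_sum, Finset.mul_sum]
  have hP3 : 1 ≤ P ^ 3 := Nat.one_le_pow _ _ hP
  have h1 : ∀ q₁ ∈ G, ∀ q₂ ∈ G,
      (∑ r ∈ (Finset.Ico 1 P).filter (fun r => NG G r ≤ 1), 1 / (r : ℝ))
      * (if q₁ ≠ q₂ then 1 / ((q₁ : ℝ) * q₂) else 0)
      ≤ ∑ t ∈ Finset.Ico 1 (P ^ 3), (if q₁ ≠ q₂ ∧ q₁ ∣ t ∧ q₂ ∣ t then (1 : ℝ) else 0)
        * (if NG G t ≤ 3 then 1 / (t : ℝ) else 0) := by
    intro q₁ hq₁ q₂ hq₂
    by_cases hne : q₁ = q₂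
    · rw [if_neg (fun h => h hne), mul_zero]
      apply Finset.sum_nonneg
      intro t _
      apply mul_nonneg <;> split_ifs <;> positivity
    rw [if_pos hne]
    have hpos : 0 < q₁ * q₂ := Nat.mul_pos (hG _ hq₁).pos (hG _ hq₂).pos
    have hinj : Set.InjOn (fun r : ℕ => q₁ * q₂ * r)
        (((Finset.Ico 1 P).filter (fun r => NG G r ≤ 1) : Finset ℕ) : Set ℕ) := by
      intro a _ b _ hab
      exact Nat.eq_of_mul_eq_mul_left hpos hab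
    have h2 : (∑ r ∈ (Finset.Ico 1 P).filter (fun r => NG G r ≤ 1), 1 / (r : ℝ))
      * (1 / ((q₁ : ℝ) * q₂)) = ∑ t ∈ ((Finset.Ico 1 P).filter (fun r => NG G r ≤ 1)).image
        (fun r : ℕ => q₁ * q₂ * r), 1 / (t : ℝ) := by
      rw [Finset.sum_image hinj, Finset.sum_mul]
      refine Finset.sum_congr rfl (fun r _ => ?_)
      push_cast
      rw [one_div_mul_one_div, mul_comm (r : ℝ)]
    rw [h2]
    have h3 : ∑ t ∈ Finset.Ico 1 (P ^ 3), (if q₁ ≠ q₂ ∧ q₁ ∣ t ∧ q₂ ∣ t then (1 : ℝ) else 0)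
        * (if NG G t ≤ 3 then 1 / (t : ℝ) else 0)
        = ∑ t ∈ (Finset.Ico 1 (P ^ 3)).filter
          (fun t => (q₁ ≠ q₂ ∧ q₁ ∣ t ∧ q₂ ∣ t) ∧ NG G t ≤ 3), 1 / (t : ℝ) := by
      rw [Finset.sum_filter]
      refine Finset.sum_congr rfl (fun t _ => ?_)
      by_cases c1 : q₁ ≠ q₂ ∧ q₁ ∣ t ∧ q₂ ∣ t
      · by_cases c2 : NG G t ≤ 3
        · rw [if_pos c1, if_pos c2, if_pos ⟨c1, c2⟩, one_mul]
        · have c3 : ¬ ((q₁ ≠ q₂ ∧ q₁ ∣ t ∧ q₂ ∣ t) ∧ NG G t ≤ 3) := fun h => c2 h.2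
          rw [if_pos c1, if_neg c2, if_neg c3, mul_zero]
      · have c3 : ¬ ((q₁ ≠ q₂ ∧ q₁ ∣ t ∧ q₂ ∣ t) ∧ NG G t ≤ 3) := fun h => c1 h.1
        rw [if_neg c1, if_neg c3, zero_mul]
    rw [h3]
    apply Finset.sum_le_sum_of_subset_of_nonneg
    · intro t ht
      rw [Finset.mem_image] at ht
      obtain ⟨r, hr, rfl⟩ := ht
      rw [Finset.mem_filter, Finset.mem_Ico] at hr ⊢
      obtain ⟨⟨hr1, hr2⟩, hr3⟩ := hr
      refine ⟨⟨Nat.mul_pos hpos hr1, ?_⟩, ⟨hne, ?_, ?_⟩, ?_⟩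
      · calc q₁ * q₂ * r < P * P * P := by
              apply Nat.mul_lt_mul'' _ hr2
              exact Nat.mul_lt_mul'' (hGP _ hq₁) (hGP _ hq₂)
          _ = P ^ 3 := by ring
      · exact (dvd_mul_right _ _).mul_right _
      · exact (dvd_mul_left _ _).mul_right _
      · have := NG_mul_le G hG q₁ q₂ r hq₁ hq₂
        omega
    · intro t _ _
      positivity
  have h4 : ∀ q₁ ∈ G, (∑ r ∈ (Finset.Ico 1 P).filter (fun r => NG G r ≤ 1), 1 / (r : ℝ))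
      * (∑ q₂ ∈ G, (if q₁ ≠ q₂ then 1 / ((q₁ : ℝ) * q₂) else 0))
      ≤ ∑ q₂ ∈ G, ∑ t ∈ Finset.Ico 1 (P ^ 3), (if q₁ ≠ q₂ ∧ q₁ ∣ t ∧ q₂ ∣ t then (1 : ℝ) else 0)
        * (if NG G t ≤ 3 then 1 / (t : ℝ) else 0) := by
    intro q₁ hq₁
    rw [Finset.mul_sum]
    exact Finset.sum_le_sum (fun q₂ hq₂ => h1 q₁ hq₁ q₂ hq₂)
  refine (Finset.sum_le_sum h4).trans ?_
  rw [sum_comm3]
  have h5 : ∀ t ∈ Finset.Ico 1 (P ^ 3), ∑ q₁ ∈ G, ∑ q₂ ∈ G,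
      (if q₁ ≠ q₂ ∧ q₁ ∣ t ∧ q₂ ∣ t then (1 : ℝ) else 0)
        * (if NG G t ≤ 3 then 1 / (t : ℝ) else 0) ≤ 6 * (1 / t) := by
    intro t _
    have h6 : ∑ q₁ ∈ G, ∑ q₂ ∈ G,
      (if q₁ ≠ q₂ ∧ q₁ ∣ t ∧ q₂ ∣ t then (1 : ℝ) else 0)
        * (if NG G t ≤ 3 then 1 / (t : ℝ) else 0)
        = ((NG G t : ℝ) * (NG G t - 1)) * (if NG G t ≤ 3 then 1 / (t : ℝ) else 0) := by
      rw [← card_pairs, Finset.sum_mul]
      refine Finset.sum_congr rfl (fun q₁ _ => ?_)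
      rw [Finset.sum_mul]
    rw [h6]
    split_ifs with h7
    · apply mul_le_mul_of_nonneg_right _ (by positivity)
      interval_cases hv : NG G t <;> norm_num
    · rw [mul_zero]; positivity
  refine (Finset.sum_le_sum h5).trans ?_
  rw [← Finset.mul_sum]
  have h8 := sum_inv_le (P ^ 3) hP3
  have h9 : Real.log ((P ^ 3 : ℕ) : ℝ) = 3 * Real.log P := by
    push_cast
    rw [Real.log_pow]
    norm_num
  rw [h9] at h8
  exact mul_le_mul_of_nonneg_left h8 (by norm_num)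

end Pool.Agent.ThetaSum
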