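import Mathlib
import Pool.Agent.Lib.MP_d4c1d0_nt.PrimeIntervals
import Pool.Agent.Lib.MP_d4c1d0_nt.Exceptional

set_option autoImplicit false
set_option linter.style.haveILetI false

open Finset Real

namespace Pool.Agent.ThetaSum

open Classical in
/-- primes suitable for `k`-fold Karatsuba sums modulo `p`. -/
noncomputable def Gk (p k : ℕ) : Finset ℕ :=
  (Finset.range p).filter (fun q => q.Prime ∧ k < q ∧ k * (2 * q) ^ (2 * k - 1) < p ∧
    (1 / 2 + 1 / (16 * (k : ℝ))) * Real.log p ≤ k * Real.log q)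

lemma mem_Gk {p k q : ℕ} : q ∈ Gk p k ↔ q < p ∧ q.Prime ∧ k < q ∧ k * (2 * q) ^ (2 * k - 1) < p ∧
    (1 / 2 + 1 / (16 * (k : ℝ))) * Real.log p ≤ k * Real.log q := by
  unfold Gk
  rw [Finset.mem_filter, Finset.mem_range]

lemma Gk_disj_aux {p k k' q : ℕ} (hk : 1 ≤ k) (hkk : k < k') (h1 : q ∈ Gk p k) (h2 : q ∈ Gk p k') :
    False := by
  rw [mem_Gk] at h1 h2
  obtain ⟨hqp, hq, -, -, h3⟩ := h1
  obtain ⟨-, -, -, h4, -⟩ := h2
  have hq1 : (1 : ℝ) < q := by exact_mod_cast hq.one_lt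
  have hlq : 0 < Real.log q := Real.log_pos hq1
  have hp1 : (1 : ℝ) < p := by
    have : (q : ℝ) < p := by exact_mod_cast hqp
    linarith
  have hlp : 0 < Real.log p := Real.log_pos hp1
  have hk0 : (1 : ℝ) ≤ k := by exact_mod_cast hk
  have h5 : Real.log p ≤ 2 * k * Real.log q := by
    have : 0 ≤ 1 / (16 * (k : ℝ)) * Real.log p := by positivity
    nlinarith
  have h6 : q ^ (2 * k + 1) < p := by
    calc q ^ (2 * k + 1) ≤ q ^ (2 * k' - 1) := Nat.pow_le_pow_right hq.pos (by omega)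
      _ ≤ (2 * q) ^ (2 * k' - 1) := Nat.pow_le_pow_left (by omega) _
      _ ≤ k' * (2 * q) ^ (2 * k' - 1) := Nat.le_mul_of_pos_left _ (by omega)
      _ < p := h4
  have h7 : ((2 * k + 1 : ℕ) : ℝ) * Real.log q < Real.log p := by
    rw [← Real.log_pow]
    apply Real.log_lt_log (by positivity)
    exact_mod_cast h6
  push_cast at h7
  nlinarith

lemma Gk_disj {p : ℕ} {k k' : ℕ} (hk : 1 ≤ k) (hk' : 1 ≤ k') (hne : k ≠ k') :
    Disjoint (Gk p k) (Gk p k') := by
  rw [Finset.disjoint_left]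
  intro q h1 h2
  rcases lt_or_gt_of_ne hne with h | h
  · exact Gk_disj_aux hk h h1 h2
  · exact Gk_disj_aux hk' h h2 h1

lemma log_four_le : Real.log 4 ≤ 1.39 := by
  have h : Real.log 4 = 2 * Real.log 2 := by
    rw [show (4 : ℝ) = 2 ^ 2 by norm_num, Real.log_pow]; norm_num
  rw [h]
  have := Real.log_two_lt_d9
  linarith

lemma log_big_le : Real.log 6250000 ≤ 16 := by
  rw [Real.log_le_iff_le_exp (by norm_num)]
  have h1 : Real.exp 16 = (Real.exp 1) ^ 16 := by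
    rw [← Real.exp_nat_mul]; norm_num
  rw [h1]
  have h2 : (2.7 : ℝ) ^ 16 ≤ (Real.exp 1) ^ 16 := by
    apply pow_le_pow_left₀ (by norm_num)
    have := Real.exp_one_gt_d9
    linarith
  refine le_trans ?_ h2
  norm_num

/-- lower end of the range of `log q`. -/
noncomputable def aa (L k : ℝ) : ℝ := L * (1 / (2 * k) + 1 / (16 * k ^ 2))

/-- upper end of the range of `log q`. -/
noncomputable def uu (L k : ℝ) : ℝ := L * (1 / (2 * k) + 3 / (16 * k ^ 2))

lemma uu_sub_aa {L k : ℝ} (hk : 0 < k) : uu L k - aa L k = L / (8 * k ^ 2) := by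
  unfold uu aa
  field_simp
  ring

lemma range_consequences {L T k : ℝ} (hT : 10 ≤ T) (hk : 1 ≤ k) (hkT : k ≤ T) (hp : T ^ 4 ≤ L) :
    k ^ 2 * T ^ 2 ≤ L ∧ k * T ^ 3 ≤ L ∧ 12 ≤ L / (8 * k ^ 2) ∧ T ^ 3 / 2 ≤ aa L k := by
  have hkpos : 0 < k := by linarith
  have hTpos : 0 < T := by linarith
  have hLk2 : k ^ 2 * T ^ 2 ≤ L := by
    refine le_trans ?_ hp
    calc k ^ 2 * T ^ 2 ≤ T ^ 2 * T ^ 2 :=
          mul_le_mul_of_nonneg_right (pow_le_pow_left₀ hkpos.le hkT 2) (by positivity)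
      _ = T ^ 4 := by ring
  have hLk1 : k * T ^ 3 ≤ L := by
    refine le_trans ?_ hp
    calc k * T ^ 3 ≤ T * T ^ 3 :=
          mul_le_mul_of_nonneg_right hkT (by positivity)
      _ = T ^ 4 := by ring
  have hL0 : 0 < L := lt_of_lt_of_le (by positivity) hp
  refine ⟨hLk2, hLk1, ?_, ?_⟩
  · rw [le_div_iff₀ (by positivity)]
    have hT2 : (100 : ℝ) ≤ T ^ 2 := by nlinarith
    have : k ^ 2 * 100 ≤ k ^ 2 * T ^ 2 := mul_le_mul_of_nonneg_left hT2 (by positivity)
    linarith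
  · have h1 : L / (2 * k) ≤ aa L k := by
      unfold aa
      rw [mul_add]
      have : 0 ≤ L * (1 / (16 * k ^ 2)) := by positivity
      have e : L / (2 * k) = L * (1 / (2 * k)) := by ring
      linarith
    refine le_trans ?_ h1
    rw [div_le_div_iff₀ (by norm_num) (by positivity)]
    linarith

lemma upper_gap {L T k : ℝ} (hT : 10 ≤ T) (hk : 1 ≤ k) (hLk2 : k ^ 2 * T ^ 2 ≤ L) :
    (k - 1) + (2 * k - 1) * (1 + uu L k) < L := by
  have hkpos : 0 < k := by linarith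
  have h5 : L - (2 * k - 1) * uu L k = L * (2 * k + 3) / (16 * k ^ 2) := by
    unfold uu
    field_simp
    ring
  have h6 : T ^ 2 * (2 * k + 3) / 16 ≤ L * (2 * k + 3) / (16 * k ^ 2) := by
    rw [div_le_div_iff₀ (by norm_num) (by positivity)]
    have : T ^ 2 * (2 * k + 3) * (16 * k ^ 2) = (k ^ 2 * T ^ 2) * (2 * k + 3) * 16 := by ring
    rw [this]
    apply mul_le_mul_of_nonneg_right _ (by norm_num)
    apply mul_le_mul_of_nonneg_right hLk2 (by positivity)
  have hT2 : (100 : ℝ) ≤ T ^ 2 := by nlinarith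
  have h7 : 100 * (2 * k + 3) / 16 ≤ T ^ 2 * (2 * k + 3) / 16 := by
    apply div_le_div_of_nonneg_right _ (by norm_num)
    exact mul_le_mul_of_nonneg_right hT2 (by positivity)
  have e : (2 * k - 1) * (1 + uu L k) = (2 * k - 1) + (2 * k - 1) * uu L k := by ring
  rw [e]
  linarith

lemma Gk_contains {p T k : ℕ} (hT : 10 ≤ T) (hk : 1 ≤ k) (hkT : k ≤ T)
    (hp : (T : ℝ) ^ 4 ≤ Real.log p) :
    ∀ q : ℕ, q.Prime → aa (Real.log p) k < Real.log q → Real.log q ≤ uu (Real.log p) k →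
      q ∈ Gk p k := by
  have hT' : (10 : ℝ) ≤ T := by exact_mod_cast hT
  have hk0 : (1 : ℝ) ≤ k := by exact_mod_cast hk
  have hkT' : (k : ℝ) ≤ T := by exact_mod_cast hkT
  have hkpos : (0 : ℝ) < k := by linarith
  obtain ⟨hLk2, hLk1, hua2, ha500⟩ := range_consequences hT' hk0 hkT' hp
  have hgap := upper_gap hT' hk0 hLk2
  intro q hq hq1 hq2
  have hq0 : (0 : ℝ) < q := by exact_mod_cast hq.pos
  have hL0 : 0 < Real.log p := lt_of_lt_of_le (by positivity) hp
  have hpp : (0 : ℝ) < p := by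
    have : p ≠ 0 := by
      rintro rfl
      simp at hL0
    exact_mod_cast Nat.pos_of_ne_zero this
  have hu0 : 0 < uu (Real.log p) k := by unfold uu; positivity
  have huL : uu (Real.log p) k < Real.log p := by
    have : 0 ≤ (2 * (k : ℝ) - 2) * uu (Real.log p) k := mul_nonneg (by linarith) hu0.le
    linarith
  rw [mem_Gk]
  refine ⟨?_, hq, ?_, ?_, ?_⟩
  · have : (q : ℝ) < p := by
      rw [← Real.log_lt_log_iff hq0 hpp]
      linarith
    exact_mod_cast this
  · have : (k : ℝ) < q := by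
      rw [← Real.log_lt_log_iff hkpos hq0]
      have h1 : Real.log k ≤ k - 1 := Real.log_le_sub_one_of_pos hkpos
      have h2 : (T : ℝ) * 100 ≤ (T : ℝ) ^ 3 := by nlinarith
      linarith
    exact_mod_cast this
  · have h1 : ((k * (2 * q) ^ (2 * k - 1) : ℕ) : ℝ) < p := by
      push_cast
      rw [← Real.log_lt_log_iff (by positivity) hpp, Real.log_mul (by positivity) (by positivity),
        Real.log_pow, Real.log_mul (by norm_num) (by positivity)]
      have hcast : ((2 * k - 1 : ℕ) : ℝ) = 2 * k - 1 := by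
        rw [Nat.cast_sub (by omega)]; push_cast; ring
      rw [hcast]
      have h1 : Real.log k ≤ k - 1 := Real.log_le_sub_one_of_pos hkpos
      have h2 : Real.log 2 ≤ 1 := by have := Real.log_two_lt_d9; linarith
      have h3 : (2 * (k : ℝ) - 1) * (Real.log 2 + Real.log q)
          ≤ (2 * (k : ℝ) - 1) * (1 + uu (Real.log p) k) :=
        mul_le_mul_of_nonneg_left (by linarith) (by linarith)
      linarith
    exact_mod_cast h1
  · have h1 : (1 / 2 + 1 / (16 * (k : ℝ))) * Real.log p = k * aa (Real.log p) k := by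
      unfold aa; field_simp
    rw [h1]
    exact mul_le_mul_of_nonneg_left hq1.le hkpos.le

lemma ratio_bound {L k : ℝ} (hk : 1 ≤ k) (hL : 12 ≤ L / (8 * k ^ 2)) :
    1 / (64 * k) ≤ ((uu L k - aa L k) / Real.log 4 - 1) / (4 * uu L k) := by
  have hkpos : 0 < k := by linarith
  have hL0 : 0 < L := by
    rw [le_div_iff₀ (by positivity)] at hL
    have : 0 < 12 * (8 * k ^ 2) := by positivity
    linarith
  have hu0 : 0 < uu L k := by unfold uu; positivity
  have h4 := log_four_le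
  have h4pos : 0 < Real.log 4 := Real.log_pos (by norm_num)
  have h5 : (uu L k - aa L k) / (2 * Real.log 4) ≤ (uu L k - aa L k) / Real.log 4 - 1 := by
    have e : (uu L k - aa L k) / Real.log 4 = 2 * ((uu L k - aa L k) / (2 * Real.log 4)) := by
      field_simp
    have : 1 ≤ (uu L k - aa L k) / (2 * Real.log 4) := by
      rw [le_div_iff₀ (by positivity), uu_sub_aa hkpos]; linarith
    rw [e]
    linarith
  refine le_trans ?_ (div_le_div_of_nonneg_right h5 (by positivity))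
  have e1 : (uu L k - aa L k) / (2 * Real.log 4) / (4 * uu L k)
      = 1 / (4 * Real.log 4 * (8 * k + 3)) := by
    rw [uu_sub_aa hkpos]
    unfold uu
    field_simp
    ring
  rw [e1]
  apply one_div_le_one_div_of_le (by positivity)
  have h6 : 4 * Real.log 4 * (8 * k + 3) ≤ 4 * 1.39 * (8 * k + 3) := by
    apply mul_le_mul_of_nonneg_right _ (by positivity)
    linarith
  linarith

lemma Gk_lower {p T k : ℕ} (hT : 10 ≤ T) (hk : 1 ≤ k) (hkT : k ≤ T) (hp : (T : ℝ) ^ 4 ≤ Real.log p) :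
    1 / (64 * (k : ℝ)) ≤ ∑ q ∈ Gk p k, 1 / (q : ℝ) := by
  have hT' : (10 : ℝ) ≤ T := by exact_mod_cast hT
  have hk0 : (1 : ℝ) ≤ k := by exact_mod_cast hk
  have hkT' : (k : ℝ) ≤ T := by exact_mod_cast hkT
  have hkpos : (0 : ℝ) < k := by linarith
  obtain ⟨hLk2, hLk1, hua2, ha500⟩ := range_consequences hT' hk0 hkT' hp
  have h16 := log_big_le
  have h4 := log_four_le
  have hT3 : (1000 : ℝ) ≤ (T : ℝ) ^ 3 := by
    calc (1000 : ℝ) = 10 ^ 3 := by norm_num
      _ ≤ (T : ℝ) ^ 3 := pow_le_pow_left₀ (by norm_num) hT' 3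
  have hua := uu_sub_aa (L := Real.log p) hkpos
  refine (ratio_bound hk0 hua2).trans (recip_lower ?_ ?_ (Gk p k) (Gk_contains hT hk hkT hp))
  · linarith
  · linarith

/-- the union of the `Gk`. -/
noncomputable def GG (p T : ℕ) : Finset ℕ := (Finset.Icc 1 T).biUnion (Gk p)

lemma mem_GG {p T q : ℕ} : q ∈ GG p T ↔ ∃ k, 1 ≤ k ∧ k ≤ T ∧ q ∈ Gk p k := by
  unfold GG
  rw [Finset.mem_biUnion]
  constructor
  · rintro ⟨k, hk, hq⟩
    rw [Finset.mem_Icc] at hk
    exact ⟨k, hk.1, hk.2, hq⟩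
  · rintro ⟨k, h1, h2, hq⟩
    exact ⟨k, Finset.mem_Icc.mpr ⟨h1, h2⟩, hq⟩

lemma GG_prime {p T : ℕ} : ∀ q ∈ GG p T, q.Prime := by
  intro q hq
  obtain ⟨k, _, _, h⟩ := mem_GG.mp hq
  exact (mem_Gk.mp h).2.1

lemma GG_lt {p T : ℕ} : ∀ q ∈ GG p T, q < p := by
  intro q hq
  obtain ⟨k, _, _, h⟩ := mem_GG.mp hq
  exact (mem_Gk.mp h).1

/-- lower bound for the reciprocal sum. -/
lemma GG_lower {p T : ℕ} (hT : 10 ≤ T) (hp : (T : ℝ) ^ 4 ≤ Real.log p) :
    Real.log T / 64 ≤ ∑ q ∈ GG p T, 1 / (q : ℝ) := by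
  unfold GG
  rw [Finset.sum_biUnion]
  · have h1 : ∑ k ∈ Finset.Icc 1 T, 1 / (64 * (k : ℝ)) ≤ ∑ k ∈ Finset.Icc 1 T, ∑ q ∈ Gk p k, 1 / (q : ℝ) := by
      refine Finset.sum_le_sum (fun k hk => ?_)
      rw [Finset.mem_Icc] at hk
      exact Gk_lower hT hk.1 hk.2 hp
    refine le_trans ?_ h1
    have h2 : ∑ k ∈ Finset.Icc 1 T, 1 / (64 * (k : ℝ)) = (1 / 64) * ((harmonic T : ℚ) : ℝ) := by
      rw [harmonic_eq_sum_Icc, Rat.cast_sum, Finset.mul_sum]
      refine Finset.sum_congr rfl (fun k _ => ?_)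
      push_cast
      rw [one_div, one_div, mul_inv]
    rw [h2]
    have h3 := log_add_one_le_harmonic T
    have h4 : Real.log T ≤ Real.log ((T + 1 : ℕ) : ℝ) := by
      apply Real.log_le_log
      · have : 0 < T := by omega
        exact_mod_cast this
      · push_cast; linarith
    have h5 : Real.log ((T + 1 : ℕ) : ℝ) ≤ (harmonic T : ℚ) := by exact_mod_cast h3
    linarith
  · intro k hk k' hk' hne
    rw [Finset.mem_coe, Finset.mem_Icc] at hk hk'
    exact Gk_disj hk.1 hk'.1 hne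

/-- elements of `GG` are large. -/
lemma GG_log {p T : ℕ} (hT : 1 ≤ T) (hp : (T : ℝ) ^ 4 ≤ Real.log p) :
    ∀ q ∈ GG p T, (T : ℝ) ^ 3 / 2 ≤ Real.log q := by
  intro q hq
  obtain ⟨k, h1, h2, h⟩ := mem_GG.mp hq
  have h3 := (mem_Gk.mp h).2.2.2.2
  have hk0 : (1 : ℝ) ≤ k := by exact_mod_cast h1
  have hkT : (k : ℝ) ≤ T := by exact_mod_cast h2
  have hTpos : (0 : ℝ) < T := by linarith
  have hlp : 0 < Real.log p := lt_of_lt_of_le (by positivity) hp
  have h4 : (1 / 2) * Real.log p ≤ k * Real.log q := by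
    refine le_trans ?_ h3
    apply mul_le_mul_of_nonneg_right _ hlp.le
    have : 0 ≤ 1 / (16 * (k : ℝ)) := by positivity
    linarith
  have h5 : (1 / 2) * (k * (T : ℝ) ^ 3) ≤ k * Real.log q := by
    refine le_trans ?_ h4
    apply mul_le_mul_of_nonneg_left _ (by norm_num)
    refine le_trans ?_ hp
    calc (k : ℝ) * (T : ℝ) ^ 3 ≤ (T : ℝ) * (T : ℝ) ^ 3 :=
          mul_le_mul_of_nonneg_right hkT (by positivity)
      _ = (T : ℝ) ^ 4 := by ring
  have hkpos : (0 : ℝ) < k := by linarith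
  have h6 : k * ((T : ℝ) ^ 3 / 2) ≤ k * Real.log q := by
    calc k * ((T : ℝ) ^ 3 / 2) = (1 / 2) * (k * (T : ℝ) ^ 3) := by ring
      _ ≤ _ := h5
  exact le_of_mul_le_mul_left h6 hkpos

end Pool.Agent.ThetaSum
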