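import Mathlib
import Pool.Agent.Lib.MP_d4c1d0_nt.GoodPrimes
import Pool.Agent.Lib.MP_d4c1d0_nt.BlockSum

set_option autoImplicit false
set_option linter.style.haveILetI false

open Finset Real

namespace Pool.Agent.ThetaSum

lemma log_factorial_le {k T : ℕ} (hk : 1 ≤ k) (hkT : k ≤ T) :
    Real.log (k.factorial : ℝ) ≤ (T : ℝ) ^ 2 := by
  have hk0 : (1 : ℝ) ≤ k := by exact_mod_cast hk
  have hkT' : (k : ℝ) ≤ T := by exact_mod_cast hkT
  have h1 : (k.factorial : ℝ) ≤ (k : ℝ) ^ k := by exact_mod_cast Nat.factorial_le_pow k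
  have hpos : (0 : ℝ) < k.factorial := by exact_mod_cast Nat.factorial_pos k
  have h2 : Real.log (k.factorial : ℝ) ≤ k * Real.log k := by
    rw [← Real.log_pow]
    exact Real.log_le_log hpos h1
  have h3 : Real.log k ≤ k := by
    have := Real.log_le_sub_one_of_pos (show (0 : ℝ) < k by linarith)
    linarith
  have h4 : (k : ℝ) * Real.log k ≤ k * k := mul_le_mul_of_nonneg_left h3 (by linarith)
  nlinarith

lemma delta_cond {p T k₁ k₂ : ℕ} {X₁ X₂ : ℝ} (hT : 32 ≤ T) (hk₁ : 1 ≤ k₁) (hk₁T : k₁ ≤ T)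
    (hk₂ : 1 ≤ k₂) (hk₂T : k₂ ≤ T) (hp : (T : ℝ) ^ 4 ≤ Real.log p) (hX₁0 : 0 < X₁) (hX₂0 : 0 < X₂)
    (hX₁ : (1 / 2 + 1 / (16 * (k₂ : ℝ))) * Real.log p ≤ k₂ * Real.log X₁)
    (hX₂ : (1 / 2 + 1 / (16 * (k₁ : ℝ))) * Real.log p ≤ k₁ * Real.log X₂) :
    (k₁.factorial * k₂.factorial * p : ℝ) ≤
      (Real.exp (-(T : ℝ) / 32)) ^ (2 * k₁ * k₂) * X₁ ^ k₂ * X₂ ^ k₁ := by
  have hT' : (32 : ℝ) ≤ T := by exact_mod_cast hT
  have a1 : (1 : ℝ) ≤ k₁ := by exact_mod_cast hk₁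
  have a2 : (1 : ℝ) ≤ k₂ := by exact_mod_cast hk₂
  have b1 : (k₁ : ℝ) ≤ T := by exact_mod_cast hk₁T
  have b2 : (k₂ : ℝ) ≤ T := by exact_mod_cast hk₂T
  have hL0 : 0 < Real.log p := lt_of_lt_of_le (by positivity) hp
  have hpp : (0 : ℝ) < p := by
    have : p ≠ 0 := by
      rintro rfl
      simp at hL0
    exact_mod_cast Nat.pos_of_ne_zero this
  have f1 : (0 : ℝ) < k₁.factorial := by exact_mod_cast Nat.factorial_pos k₁
  have f2 : (0 : ℝ) < k₂.factorial := by exact_mod_cast Nat.factorial_pos k₂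
  rw [← Real.log_le_log_iff (by positivity) (by positivity), Real.log_mul (by positivity) hpp.ne',
    Real.log_mul f1.ne' f2.ne', Real.log_mul (by positivity) (by positivity),
    Real.log_mul (by positivity) (by positivity), Real.log_pow, Real.log_pow, Real.log_pow,
    Real.log_exp]
  have g1 := log_factorial_le hk₁ hk₁T
  have g2 := log_factorial_le hk₂ hk₂T
  have h3 : (T : ℝ) ^ 3 / 16 ≤ 1 / (16 * (k₁ : ℝ)) * Real.log p := by
    rw [one_div_mul_eq_div, div_le_div_iff₀ (by norm_num) (by positivity)]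
    have : (k₁ : ℝ) * (T : ℝ) ^ 3 ≤ Real.log p := by
      refine le_trans ?_ hp
      calc (k₁ : ℝ) * (T : ℝ) ^ 3 ≤ (T : ℝ) * (T : ℝ) ^ 3 :=
            mul_le_mul_of_nonneg_right b1 (by positivity)
        _ = (T : ℝ) ^ 4 := by ring
    nlinarith
  have h4 : (T : ℝ) ^ 3 / 16 ≤ 1 / (16 * (k₂ : ℝ)) * Real.log p := by
    rw [one_div_mul_eq_div, div_le_div_iff₀ (by norm_num) (by positivity)]
    have : (k₂ : ℝ) * (T : ℝ) ^ 3 ≤ Real.log p := by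
      refine le_trans ?_ hp
      calc (k₂ : ℝ) * (T : ℝ) ^ 3 ≤ (T : ℝ) * (T : ℝ) ^ 3 :=
            mul_le_mul_of_nonneg_right b2 (by positivity)
        _ = (T : ℝ) ^ 4 := by ring
    nlinarith
  have h5 : ((2 * k₁ * k₂ : ℕ) : ℝ) * (-(T : ℝ) / 32) ≥ -((T : ℝ) ^ 3 / 16) := by
    push_cast
    have : (k₁ : ℝ) * k₂ ≤ T * T := mul_le_mul b1 b2 (by linarith) (by linarith)
    have h6 : (k₁ : ℝ) * k₂ * T ≤ T * T * T := mul_le_mul_of_nonneg_right this (by linarith)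
    have e : (2 * (k₁ : ℝ) * k₂) * (-(T : ℝ) / 32) = -((k₁ : ℝ) * k₂ * T / 16) := by ring
    rw [e]
    have e2 : (T : ℝ) ^ 3 = T * T * T := by ring
    rw [e2]
    linarith
  have h7 : 2 * (T : ℝ) ^ 2 ≤ (T : ℝ) ^ 3 / 16 := by
    have : (T : ℝ) ^ 3 = T ^ 2 * T := by ring
    rw [this]
    nlinarith [sq_nonneg (T : ℝ)]
  rw [add_mul] at hX₁ hX₂
  linarith

open Classical in
/-- an index `k` with `q ∈ Gk p k`. -/
noncomputable def kk (p T q : ℕ) : ℕ :=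
  if h : ∃ k, 1 ≤ k ∧ k ≤ T ∧ q ∈ Gk p k then h.choose else 0

lemma kk_spec {p T q : ℕ} (hq : q ∈ GG p T) : 1 ≤ kk p T q ∧ kk p T q ≤ T ∧ q ∈ Gk p (kk p T q) := by
  have h := mem_GG.mp hq
  unfold kk
  rw [dif_pos h]
  exact h.choose_spec

/-- the block label of `q`. -/
noncomputable def lab (p T q : ℕ) : ℕ × ℕ := (kk p T q, Nat.log 2 q)

/-- upper end of a block. -/
def XX (b : ℕ × ℕ) : ℕ := 2 ^ (b.2 + 1)

lemma XX_lab {p T q : ℕ} (hq : q ∈ GG p T) : q < XX (lab p T q) ∧ XX (lab p T q) ≤ 2 * q := by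
  unfold XX lab
  constructor
  · exact Nat.lt_pow_succ_log_self (by norm_num) q
  · have := Nat.pow_log_le_self 2 (GG_prime q hq).ne_zero
    dsimp only
    rw [pow_succ]; omega

/-- the set of labels. -/
def labs (p T : ℕ) : Finset (ℕ × ℕ) := Finset.Icc 1 T ×ˢ Finset.range (Nat.log 2 p + 1)

lemma lab_mem {p T q : ℕ} (hq : q ∈ GG p T) : lab p T q ∈ labs p T := by
  unfold lab labs
  rw [Finset.mem_product, Finset.mem_Icc, Finset.mem_range]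
  have h := kk_spec hq
  refine ⟨⟨h.1, h.2.1⟩, ?_⟩
  have := Nat.log_mono_right (b := 2) (GG_lt q hq).le
  dsimp only
  omega

lemma card_labs (p T : ℕ) : (labs p T).card = T * (Nat.log 2 p + 1) := by
  unfold labs
  rw [Finset.card_product, Nat.card_Icc, Finset.card_range, Nat.add_sub_cancel]

/-- the block estimate for the primes in `GG`. -/
theorem GG_block {p m T : ℕ} [hp : Fact p.Prime] (hpm : p = 2 * m + 1) (hT : 32 ≤ T)
    (hlog : (T : ℝ) ^ 4 ≤ Real.log p) (b₁ b₂ : ℕ × ℕ) {c : ZMod p} (hc : c ≠ 0) :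
    |∑ q₁ ∈ (GG p T).filter (fun q => lab p T q = b₁), ∑ q₂ ∈ (GG p T).filter (fun q => lab p T q = b₂),
      1 / ((q₁ : ℝ) * q₂) * sg p (c * ((q₁ : ZMod p))⁻¹ * ((q₂ : ZMod p))⁻¹)|
      ≤ 8 * (1 + Real.log m) * Real.exp (-(T : ℝ) / 32) := by
  have hm1 : 1 ≤ m := by
    have := hp.out.two_le
    omega
  have hlm : 0 ≤ Real.log m := Real.log_nonneg (by exact_mod_cast hm1)
  rcases ((GG p T).filter (fun q => lab p T q = b₁)).eq_empty_or_nonempty with h1 | ⟨x₁, hx₁⟩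
  · rw [h1, Finset.sum_empty, abs_zero]; positivity
  rcases ((GG p T).filter (fun q => lab p T q = b₂)).eq_empty_or_nonempty with h2 | ⟨x₂, hx₂⟩
  · rw [h2]; simp only [Finset.sum_empty, Finset.sum_const_zero, abs_zero]; positivity
  have key : ∀ b : ℕ × ℕ, ∀ q ∈ (GG p T).filter (fun q => lab p T q = b),
      1 ≤ b.1 ∧ b.1 ≤ T ∧ q ∈ Gk p b.1 ∧ q < XX b ∧ XX b ≤ 2 * q := by
    intro b q hq
    rw [Finset.mem_filter] at hq
    obtain ⟨hq1, rfl⟩ := hq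
    have h := kk_spec hq1
    have h' := XX_lab hq1
    exact ⟨h.1, h.2.1, h.2.2, h'.1, h'.2⟩
  obtain ⟨u1, u2, u3, u4, u5⟩ := key b₁ x₁ hx₁
  obtain ⟨v1, v2, v3, v4, v5⟩ := key b₂ x₂ hx₂
  have hxpos : ∀ b : ℕ × ℕ, 0 < XX b := fun b => by unfold XX; positivity
  have hlogX : ∀ b : ℕ × ℕ, ∀ x, x ∈ Gk p b.1 → x < XX b →
      (1 / 2 + 1 / (16 * (b.1 : ℝ))) * Real.log p ≤ b.1 * Real.log (XX b) := by
    intro b x hx hlt
    refine (mem_Gk.mp hx).2.2.2.2.trans ?_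
    apply mul_le_mul_of_nonneg_left _ (Nat.cast_nonneg _)
    apply Real.log_le_log
    · exact_mod_cast (mem_Gk.mp hx).2.1.pos
    · exact_mod_cast hlt.le
  have hbig : ∀ b : ℕ × ℕ, ∀ x, x ∈ Gk p b.1 → XX b ≤ 2 * x → b.1 * (XX b) ^ (2 * b.1 - 1) < p := by
    intro b x hx hle
    refine lt_of_le_of_lt ?_ (mem_Gk.mp hx).2.2.2.1
    exact Nat.mul_le_mul_left _ (Nat.pow_le_pow_left hle _)
  refine block_sum (k₁ := b₂.1) (k₂ := b₁.1) (X₁ := XX b₁) (X₂ := XX b₂) hpm v1 u1 ?_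
    (hbig b₁ x₁ u3 u5) ?_ (hbig b₂ x₂ v3 v5) (hxpos b₁) (hxpos b₂) (Real.exp_pos _).le ?_ hc
  · intro q hq
    obtain ⟨w1, w2, w3, w4, w5⟩ := key b₁ q hq
    have hm := mem_Gk.mp w3
    exact ⟨hm.2.1, hm.2.2.1, w4.le, hm.1, w5⟩
  · intro q hq
    obtain ⟨w1, w2, w3, w4, w5⟩ := key b₂ q hq
    have hm := mem_Gk.mp w3
    exact ⟨hm.2.1, hm.2.2.1, w4.le, hm.1, w5⟩
  · exact delta_cond hT v1 v2 u1 u2 hlog (by exact_mod_cast hxpos b₁) (by exact_mod_cast hxpos b₂)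
      (hlogX b₁ x₁ u3 u4) (hlogX b₂ x₂ v3 v4)

end Pool.Agent.ThetaSum
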