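import Mathlib
import Pool.Agent.Lib.MP_d4c1d0_nt.GoodBlocks
import Pool.Agent.Lib.MP_d4c1d0_nt.Abel

set_option autoImplicit false
set_option linter.style.haveILetI false

open Finset Real

namespace Pool.Agent.ThetaSum

/-- the arithmetic function attached to the column `a`. -/
noncomputable def ff (p a r : ℕ) : ℝ := if Odd r then sg p ((a : ZMod p) * (r : ZMod p)⁻¹) else 0

lemma abs_ff_le (p a r : ℕ) : |ff p a r| ≤ 1 := by
  unfold ff
  split_ifs
  · rw [abs_sg]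
  · rw [abs_zero]; norm_num

lemma sum_odd_eq {p m : ℕ} (hpm : p = 2 * m + 1) (g : ℕ → ℝ) :
    ∑ r ∈ Finset.Ico 1 p, (if Odd r then g r else 0) = ∑ k ∈ range m, g (2 * k + 1) := by
  have h1 : Finset.Ico 1 p = Finset.Icc 1 (2 * m) := by
    ext x
    rw [Finset.mem_Ico, Finset.mem_Icc]
    omega
  rw [h1, sum_Icc_pairs]
  refine Finset.sum_congr rfl (fun k _ => ?_)
  rw [if_pos ⟨k, rfl⟩, if_neg, add_zero]
  rw [Nat.not_odd_iff_even]
  exact ⟨k + 1, by ring⟩

/-- replacing `kap` by the harmonic weight. -/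
lemma kap_replace {p m R0 a : ℕ} (hpm : p = 2 * m + 1) :
    |∑ k ∈ range m, (if R0 ≤ 2 * k + 1 then kap p (2 * k + 1) * eps p (2 * k + 1) a else 0)
      - ∑ r ∈ Finset.Ico 1 p, (if R0 ≤ r then ff p a r / r else 0)| ≤ 1 := by
  have h1 : ∑ r ∈ Finset.Ico 1 p, (if R0 ≤ r then ff p a r / r else 0)
      = ∑ k ∈ range m, (if R0 ≤ 2 * k + 1 then
        (1 / ((2 * k + 1 : ℕ) : ℝ)) * eps p (2 * k + 1) a else 0) := by
    rw [← sum_odd_eq hpm (fun r => if R0 ≤ r then (1 / (r : ℝ)) * eps p r a else 0)]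
    refine Finset.sum_congr rfl (fun r _ => ?_)
    unfold ff eps
    by_cases h1 : R0 ≤ r
    · by_cases h2 : Odd r
      · rw [if_pos h1, if_pos h2, if_pos h2, if_pos h1]; ring
      · rw [if_pos h1, if_neg h2, if_neg h2, zero_div]
    · by_cases h2 : Odd r
      · rw [if_neg h1, if_pos h2, if_neg h1]
      · rw [if_neg h1, if_neg h2]
  rw [h1, ← Finset.sum_sub_distrib]
  refine (Finset.abs_sum_le_sum_abs _ _).trans ?_
  have hp0 : 0 < p := by omega
  have hpR : (0 : ℝ) < p := by exact_mod_cast hp0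
  have h2 : ∀ k ∈ range m, |(if R0 ≤ 2 * k + 1 then kap p (2 * k + 1) * eps p (2 * k + 1) a else 0)
      - (if R0 ≤ 2 * k + 1 then (1 / ((2 * k + 1 : ℕ) : ℝ)) * eps p (2 * k + 1) a else 0)|
      ≤ 2 / (p : ℝ) ^ 2 * (2 * k + 1) := by
    intro k hk
    rw [Finset.mem_range] at hk
    have hlt : 2 * k + 1 < p := by omega
    have a1 := kap_le hp0 (show 0 < 2 * k + 1 by omega) hlt
    have a2 := kap_ge hp0 (show 0 < 2 * k + 1 by omega) hlt
    have a3 : 0 ≤ 2 * ((2 * k + 1 : ℕ) : ℝ) / (p : ℝ) ^ 2 := by positivity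
    split_ifs
    · rw [← sub_mul, abs_mul, abs_eps, mul_one, abs_le]
      have e : 2 / (p : ℝ) ^ 2 * (2 * k + 1) = 2 * ((2 * k + 1 : ℕ) : ℝ) / (p : ℝ) ^ 2 := by
        push_cast; ring
      rw [e]
      constructor <;> linarith
    · rw [sub_zero, abs_zero]; positivity
  refine (Finset.sum_le_sum h2).trans ?_
  rw [← Finset.mul_sum]
  have h3 : ∀ n : ℕ, ∑ k ∈ range n, (2 * (k : ℝ) + 1) = (n : ℝ) ^ 2 := by
    intro n
    induction n with
    | zero => simp
    | succ n ih => rw [Finset.sum_range_succ, ih]; push_cast; ring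
  rw [h3, div_mul_eq_mul_div, div_le_one (by positivity), hpm]
  push_cast
  nlinarith [Nat.cast_nonneg (α := ℝ) m]

lemma GG_s2_le {p T : ℕ} (hT : 1 ≤ T) (hp : (T : ℝ) ^ 4 ≤ Real.log p) :
    ∑ q ∈ GG p T, 1 / (q : ℝ) ^ 2 ≤ Real.exp (-(T : ℝ) ^ 3 / 2) * ∑ q ∈ GG p T, 1 / (q : ℝ) := by
  rw [Finset.mul_sum]
  refine Finset.sum_le_sum (fun q hq => ?_)
  have hq0 : (0 : ℝ) < q := by exact_mod_cast (GG_prime q hq).pos
  have h1 := GG_log hT hp q hq
  have h2 : 1 / (q : ℝ) ≤ Real.exp (-(T : ℝ) ^ 3 / 2) := by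
    rw [one_div, ← Real.exp_log (inv_pos.mpr hq0), Real.log_inv]
    apply Real.exp_le_exp.mpr
    linarith
  calc 1 / (q : ℝ) ^ 2 = 1 / q * (1 / q) := by rw [one_div_mul_one_div, pow_two]
    _ ≤ Real.exp (-(T : ℝ) ^ 3 / 2) * (1 / q) := mul_le_mul_of_nonneg_right h2 (by positivity)

lemma GG_s1_le {p T : ℕ} (hp : 1 ≤ p) :
    ∑ q ∈ GG p T, 1 / (q : ℝ) ≤ 1 + Real.log p := by
  refine le_trans ?_ (sum_inv_le p hp)
  apply Finset.sum_le_sum_of_subset_of_nonneg
  · intro q hq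
    rw [Finset.mem_Ico]
    exact ⟨(GG_prime q hq).pos, GG_lt q hq⟩
  · intro i _ _; positivity

/-- the exceptional set for `GG`. -/
lemma GG_exceptional {p T : ℕ} (hT : 32 ≤ T) (hp1 : 1 ≤ p) (hp : (T : ℝ) ^ 4 ≤ Real.log p) :
    ∑ r ∈ (Finset.Ico 1 p).filter (fun r => NG (GG p T) r ≤ 1), 1 / (r : ℝ)
      ≤ 49152 * (1 + 3 * Real.log p) / (Real.log T) ^ 2 := by
  set s1 : ℝ := ∑ q ∈ GG p T, 1 / (q : ℝ) with hs1
  set s2 : ℝ := ∑ q ∈ GG p T, 1 / (q : ℝ) ^ 2 with hs2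
  set W : ℝ := ∑ r ∈ (Finset.Ico 1 p).filter (fun r => NG (GG p T) r ≤ 1), 1 / (r : ℝ) with hW
  have h := exceptional p hp1 (GG p T) GG_prime GG_lt
  rw [← hs1, ← hs2, ← hW] at h
  have hT' : (32 : ℝ) ≤ T := by exact_mod_cast hT
  have h1 : Real.log T / 64 ≤ s1 := GG_lower (by omega) hp
  have h2 : s2 ≤ Real.exp (-(T : ℝ) ^ 3 / 2) * s1 := GG_s2_le (by omega) hp
  have hlT : 1 ≤ Real.log T := by
    rw [← Real.log_exp 1]
    apply Real.log_le_log (Real.exp_pos _)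
    have := Real.exp_one_lt_d9
    linarith
  have hW0 : 0 ≤ W := by
    rw [hW]; exact Finset.sum_nonneg (fun i _ => by positivity)
  have hexp : Real.exp (-(T : ℝ) ^ 3 / 2) ≤ 1 / 128 := by
    have e1 : Real.exp (-(T : ℝ) ^ 3 / 2) = (Real.exp ((T : ℝ) ^ 3 / 2))⁻¹ := by
      rw [← Real.exp_neg]; congr 1; ring
    rw [e1, one_div]
    apply inv_anti₀ (by norm_num)
    have e2 : (T : ℝ) ^ 3 / 2 + 1 ≤ Real.exp ((T : ℝ) ^ 3 / 2) := Real.add_one_le_exp _
    have e3 : (32 : ℝ) ^ 3 ≤ (T : ℝ) ^ 3 := pow_le_pow_left₀ (by norm_num) hT' 3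
    linarith
  have hs1pos : 1 / 64 ≤ s1 := by linarith
  have h3 : s1 ^ 2 / 2 ≤ s1 ^ 2 - s2 := by
    have : s2 ≤ 1 / 128 * s1 := h2.trans (mul_le_mul_of_nonneg_right hexp (by linarith))
    nlinarith
  have h4 : (Real.log T) ^ 2 / 8192 ≤ s1 ^ 2 - s2 := by
    refine le_trans ?_ h3
    have : (Real.log T / 64) ^ 2 ≤ s1 ^ 2 := pow_le_pow_left₀ (by linarith) h1 2
    have e : (Real.log T / 64) ^ 2 = (Real.log T) ^ 2 / 4096 := by ring
    rw [e] at this
    linarith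
  have h5 : W * ((Real.log T) ^ 2 / 8192) ≤ 6 * (1 + 3 * Real.log p) :=
    (mul_le_mul_of_nonneg_left h4 hW0).trans h
  rw [le_div_iff₀ (by positivity)]
  linarith

/-- the bound for a column. -/
theorem col_bound {p m T R0 a : ℕ} [hp : Fact p.Prime] (hpm : p = 2 * m + 1) (hT : 32 ≤ T)
    (hlog : (T : ℝ) ^ 4 ≤ Real.log p) (ha0 : 0 < a) (hap : a < p) :
    |∑ k ∈ range m, (if R0 ≤ 2 * k + 1 then kap p (2 * k + 1) * eps p (2 * k + 1) a else 0)|
      ≤ 1 + (49152 * (1 + 3 * Real.log p) / (Real.log T) ^ 2 + 7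
        + (1 + Real.log p) * ((Real.exp (-(T : ℝ) ^ 3 / 2) * (1 + Real.log p))
          * (1 + 2 * (1 + Real.log p)))
        + ((T * (Nat.log 2 p + 1) : ℕ) : ℝ) ^ 2 *
          ((1 + Real.log p) * (8 * (1 + Real.log m) * Real.exp (-(T : ℝ) / 32)))) := by
  have hp1 : 1 ≤ p := hp.out.one_lt.le
  have hm1 : 1 ≤ m := by
    have := hp.out.two_le
    omega
  have hlm : 0 ≤ Real.log m := Real.log_nonneg (by exact_mod_cast hm1)
  have hlp : 0 ≤ Real.log p := Real.log_nonneg (by exact_mod_cast hp1)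
  have hrep := kap_replace (R0 := R0) (a := a) hpm
  have hcmp := ramare_compare p R0 hp1 (GG p T) GG_prime (ff p a) (abs_ff_le p a) (lab p T) XX
    (fun q hq => XX_lab hq) (labs p T) (fun q hq => lab_mem hq)
    (8 * (1 + Real.log m) * Real.exp (-(T : ℝ) / 32)) (by positivity) (by
      intro b₁ _ b₂ _ n hn
      rw [Finset.mem_Ico] at hn
      have ha : (a : ZMod p) ≠ 0 := by
        intro h
        rw [ZMod.natCast_eq_zero_iff] at h
        have := Nat.le_of_dvd ha0 h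
        omega
      have hn0 : (n : ZMod p) ≠ 0 := by
        intro h
        rw [ZMod.natCast_eq_zero_iff] at h
        have := Nat.le_of_dvd hn.1 h
        omega
      have hodd : ∀ q ∈ GG p T, Odd q := by
        intro q hq
        rcases (GG_prime q hq).eq_two_or_odd' with h | h
        · exfalso
          have h1 := GG_log (by omega) hlog q hq
          rw [h] at h1
          have h2 := Real.log_two_lt_d9
          have hT' : (32 : ℝ) ≤ T := by exact_mod_cast hT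
          have e3 : (32 : ℝ) ^ 3 ≤ (T : ℝ) ^ 3 := pow_le_pow_left₀ (by norm_num) hT' 3
          push_cast at h1
          linarith
        · exact h
      by_cases hno : Odd n
      · have hblock := GG_block hpm hT hlog b₁ b₂ (mul_ne_zero ha (inv_ne_zero hn0))
        refine le_trans (le_of_eq ?_) hblock
        congr 1
        refine Finset.sum_congr rfl (fun q₁ hq₁ => ?_)
        refine Finset.sum_congr rfl (fun q₂ hq₂ => ?_)
        rw [Finset.mem_filter] at hq₁ hq₂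
        unfold ff
        rw [if_pos (((hodd q₁ hq₁.1).mul (hodd q₂ hq₂.1)).mul hno)]
        push_cast
        rw [mul_inv, mul_inv, div_eq_mul_one_div, mul_comm]
        congr 2
        ring
      · have hz : ∑ q₁ ∈ (GG p T).filter (fun q => lab p T q = b₁),
            ∑ q₂ ∈ (GG p T).filter (fun q => lab p T q = b₂),
            ff p a (q₁ * q₂ * n) / ((q₁ * q₂ : ℕ) : ℝ) = 0 := by
          refine Finset.sum_eq_zero (fun q₁ _ => Finset.sum_eq_zero (fun q₂ _ => ?_))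
          unfold ff
          rw [if_neg, zero_div]
          intro h
          exact hno (Nat.odd_mul.mp h).2
        rw [hz, abs_zero]
        positivity)
  have hex := GG_exceptional hT hp1 hlog
  have hs1 : ∑ q ∈ GG p T, 1 / (q : ℝ) ≤ 1 + Real.log p := GG_s1_le hp1
  have hs1' : 0 ≤ ∑ q ∈ GG p T, 1 / (q : ℝ) := Finset.sum_nonneg (fun i _ => by positivity)
  have hs2 := GG_s2_le (T := T) (by omega) hlog
  have hs2' : ∑ q ∈ GG p T, 1 / (q : ℝ) ^ 2 ≤ Real.exp (-(T : ℝ) ^ 3 / 2) * (1 + Real.log p) :=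
    hs2.trans (mul_le_mul_of_nonneg_left hs1 (Real.exp_pos _).le)
  have herr : (1 + Real.log p) * ((∑ q ∈ GG p T, 1 / (q : ℝ) ^ 2) * (1 + 2 * ∑ q ∈ GG p T, 1 / (q : ℝ)))
      ≤ (1 + Real.log p) * ((Real.exp (-(T : ℝ) ^ 3 / 2) * (1 + Real.log p))
          * (1 + 2 * (1 + Real.log p))) := by
    apply mul_le_mul_of_nonneg_left _ (by linarith)
    apply mul_le_mul hs2' (by linarith) (by linarith) (by positivity)
  rw [card_labs] at hcmp
  rw [abs_le] at hrep hcmp ⊢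
  constructor <;> linarith

end Pool.Agent.ThetaSum
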