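import Mathlib

set_option autoImplicit false
set_option linter.style.haveILetI false

open Finset Real

namespace Pool.Agent.ThetaSum

/-- the completely multiplicative function `(3/2)^Ω(n) / n`. -/
noncomputable def fz : ℕ →* ℝ where
  toFun n := if n = 0 then 0 else (3 / 2 : ℝ) ^ (ArithmeticFunction.cardFactors n) / n
  map_one' := by simp
  map_mul' := by
    intro a b
    by_cases ha : a = 0
    · simp [ha]
    by_cases hb : b = 0
    · simp [hb]
    rw [if_neg (mul_ne_zero ha hb), if_neg ha, if_neg hb,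
      ArithmeticFunction.cardFactors_mul ha hb, pow_add]
    push_cast
    field_simp

lemma fz_apply {n : ℕ} (hn : n ≠ 0) :
    fz n = (3 / 2 : ℝ) ^ (ArithmeticFunction.cardFactors n) / n := by
  show (if n = 0 then 0 else (3 / 2 : ℝ) ^ (ArithmeticFunction.cardFactors n) / n) = _
  rw [if_neg hn]

lemma fz_prime {ℓ : ℕ} (hℓ : ℓ.Prime) : fz ℓ = (3 / 2 : ℝ) / ℓ := by
  rw [fz_apply hℓ.ne_zero, ArithmeticFunction.cardFactors_apply_prime hℓ, pow_one]

lemma fz_nonneg (n : ℕ) : 0 ≤ fz n := by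
  by_cases hn : n = 0
  · show 0 ≤ (if n = 0 then 0 else (3 / 2 : ℝ) ^ (ArithmeticFunction.cardFactors n) / n)
    rw [if_pos hn]
  · rw [fz_apply hn]; positivity

lemma prod_range_cube (N : ℕ) (hN : 2 ≤ N) :
    ∏ n ∈ Finset.Ico 2 N, ((n : ℝ) / (n - 1)) ^ 3 = ((N : ℝ) - 1) ^ 3 := by
  induction N, hN using Nat.le_induction with
  | base => norm_num
  | succ n hn ih =>
    rw [Finset.prod_Ico_succ_top hn, ih]
    have h1 : ((n : ℝ) - 1) ≠ 0 := by
      have : (2 : ℝ) ≤ n := by exact_mod_cast hn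
      linarith
    push_cast
    rw [div_pow]
    field_simp
    ring

lemma euler_prod_le (N : ℕ) (hN : 2 ≤ N) :
    ∏ ℓ ∈ N.primesBelow, (1 - fz ℓ)⁻¹ ≤ (N : ℝ) ^ 3 := by
  have h1 : ∀ ℓ ∈ N.primesBelow, (1 - fz ℓ)⁻¹ ≤ ((ℓ : ℝ) / (ℓ - 1)) ^ 3 := by
    intro ℓ hℓ
    have hpr := Nat.prime_of_mem_primesBelow hℓ
    rw [fz_prime hpr]
    have h2 : (2 : ℝ) ≤ ℓ := by exact_mod_cast hpr.two_le
    have h3 : (0 : ℝ) < ℓ - 1 := by linarith
    have h4 : (0 : ℝ) < ℓ := by linarith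
    have h5 : 0 < 1 - (3 / 2 : ℝ) / ℓ := by
      rw [sub_pos, div_lt_one h4]; linarith
    rw [inv_le_comm₀ h5 (by positivity), div_pow, inv_div, div_le_iff₀ (by positivity)]
    have e : (1 - (3 / 2 : ℝ) / ℓ) * (ℓ : ℝ) ^ 3 = ℓ ^ 3 - 3 / 2 * ℓ ^ 2 := by
      field_simp
    rw [e]
    nlinarith [sq_nonneg ((ℓ : ℝ) - 2), mul_self_nonneg ((ℓ : ℝ) - 2)]
  have h0 : ∀ ℓ ∈ N.primesBelow, 0 ≤ (1 - fz ℓ)⁻¹ := by
    intro ℓ hℓ
    have hpr := Nat.prime_of_mem_primesBelow hℓ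
    rw [fz_prime hpr]
    have h2 : (2 : ℝ) ≤ ℓ := by exact_mod_cast hpr.two_le
    have h4 : (0 : ℝ) < ℓ := by linarith
    have h5 : 0 < 1 - (3 / 2 : ℝ) / ℓ := by
      rw [sub_pos, div_lt_one h4]; linarith
    positivity
  calc ∏ ℓ ∈ N.primesBelow, (1 - fz ℓ)⁻¹ ≤ ∏ ℓ ∈ N.primesBelow, ((ℓ : ℝ) / (ℓ - 1)) ^ 3 :=
        Finset.prod_le_prod h0 h1
    _ ≤ ∏ ℓ ∈ Finset.Ico 2 N, ((ℓ : ℝ) / (ℓ - 1)) ^ 3 := by
        have hsub : N.primesBelow ⊆ Finset.Ico 2 N := by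
          intro ℓ hℓ
          rw [Finset.mem_Ico]
          exact ⟨(Nat.prime_of_mem_primesBelow hℓ).two_le, Nat.lt_of_mem_primesBelow hℓ⟩
        rw [← Finset.prod_sdiff hsub]
        apply le_mul_of_one_le_left
        · apply Finset.prod_nonneg
          intro ℓ hℓ
          have h2 : (2 : ℝ) ≤ ℓ := by exact_mod_cast (Nat.prime_of_mem_primesBelow hℓ).two_le
          have h3 : (0 : ℝ) < ℓ - 1 := by linarith
          positivity
        · calc (1 : ℝ) = ∏ ℓ ∈ Finset.Ico 2 N \ N.primesBelow, 1 := by simp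
            _ ≤ _ := by
              apply Finset.prod_le_prod
              · intro i _; norm_num
              · intro ℓ hℓ
                rw [Finset.mem_sdiff, Finset.mem_Ico] at hℓ
                have h2 : (2 : ℝ) ≤ ℓ := by exact_mod_cast hℓ.1.1
                have h3 : (0 : ℝ) < ℓ - 1 := by linarith
                apply one_le_pow₀
                rw [le_div_iff₀ h3]; linarith
    _ = ((N : ℝ) - 1) ^ 3 := prod_range_cube N hN
    _ ≤ (N : ℝ) ^ 3 := by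
        have : (2 : ℝ) ≤ N := by exact_mod_cast hN
        apply pow_le_pow_left₀ (by linarith) (by linarith)

/-- Logarithmic weight of large smooth numbers. -/
theorem smooth_sum {N u : ℕ} (hN : 2 ≤ N) (s : Finset ℕ)
    (hs : ∀ r ∈ s, N ^ u ≤ r ∧ ∀ ℓ, ℓ.Prime → ℓ ∣ r → ℓ < N) :
    ∑ r ∈ s, 1 / (r : ℝ) ≤ (2 / 3 : ℝ) ^ u * (N : ℝ) ^ 3 := by
  have hN0 : 0 < N ^ u := by positivity
  have hmem : ∀ r ∈ s, r ∈ N.smoothNumbers := by
    intro r hr
    have h1 := (hs r hr).1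
    rw [Nat.mem_smoothNumbers']
    intro ℓ hℓ hd
    exact (hs r hr).2 ℓ hℓ hd
  have hΩ : ∀ r ∈ s, u ≤ ArithmeticFunction.cardFactors r := by
    intro r hr
    have h1 := (hs r hr).1
    have hr0 : r ≠ 0 := by omega
    have h2 : r ≤ N ^ (ArithmeticFunction.cardFactors r) := by
      rw [ArithmeticFunction.cardFactors_apply]
      calc r = (r.primeFactorsList).prod := (Nat.prod_primeFactorsList hr0).symm
        _ ≤ N ^ (r.primeFactorsList).length := by
            apply List.prod_le_pow_card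
            intro x hx
            rw [Nat.mem_primeFactorsList hr0] at hx
            exact ((hs r hr).2 x hx.1 hx.2).le
    exact (Nat.pow_le_pow_iff_right (by omega : 1 < N)).mp (h1.trans h2)
  have hterm : ∀ r ∈ s, 1 / (r : ℝ) ≤ (2 / 3 : ℝ) ^ u * fz r := by
    intro r hr
    have h1 := (hs r hr).1
    have hr0 : r ≠ 0 := by omega
    have hrR : (0 : ℝ) < r := by positivity
    rw [fz_apply hr0, ← mul_div_assoc]
    apply div_le_div_of_nonneg_right _ hrR.le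
    calc (1 : ℝ) = (2 / 3 : ℝ) ^ u * (3 / 2 : ℝ) ^ u := by
          rw [← mul_pow]; norm_num
      _ ≤ (2 / 3 : ℝ) ^ u * (3 / 2 : ℝ) ^ (ArithmeticFunction.cardFactors r) := by
          apply mul_le_mul_of_nonneg_left _ (by positivity)
          exact pow_le_pow_right₀ (by norm_num) (hΩ r hr)
  obtain ⟨hsummable, hsum⟩ := EulerProduct.summable_and_hasSum_smoothNumbers_prod_primesBelow_geometric
    (f := fz) (fun {p} hp => by
      rw [fz_prime hp, Real.norm_eq_abs, abs_of_nonneg (by positivity)]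
      have h2 : (2 : ℝ) ≤ p := by exact_mod_cast hp.two_le
      rw [div_lt_one (by linarith)]; linarith) N
  have hle : ∑ r ∈ s, fz r ≤ ∏ ℓ ∈ N.primesBelow, (1 - fz ℓ)⁻¹ := by
    let ι : {x // x ∈ s} ↪ N.smoothNumbers := ⟨fun x => ⟨x.1, hmem x.1 x.2⟩,
      fun x y h => Subtype.ext (congrArg (fun t : N.smoothNumbers => (t : ℕ)) h)⟩
    have h3 : ∑ r ∈ s, fz r = ∑ r ∈ s.attach.map ι, fz (r : ℕ) := by
      rw [Finset.sum_map]
      exact (Finset.sum_attach s (fun r => fz r)).symm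
    rw [h3, ← hsum.tsum_eq]
    apply hsum.summable.sum_le_tsum
    intro i _
    exact fz_nonneg _
  calc ∑ r ∈ s, 1 / (r : ℝ) ≤ ∑ r ∈ s, (2 / 3 : ℝ) ^ u * fz r := Finset.sum_le_sum hterm
    _ = (2 / 3 : ℝ) ^ u * ∑ r ∈ s, fz r := by rw [Finset.mul_sum]
    _ ≤ (2 / 3 : ℝ) ^ u * (N : ℝ) ^ 3 := by
        apply mul_le_mul_of_nonneg_left (hle.trans (euler_prod_le N hN)) (by positivity)

end Pool.Agent.ThetaSum
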