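import Pool.Agent.Lib.MP_d4c1d0_nt.Abel

set_option autoImplicit false
set_option linter.style.haveILetI false

open Finset Real

namespace Pool.Agent.ThetaSum

lemma sum_inv_odd_le (m : ℕ) : ∑ l ∈ range m, 1 / (((2 * l + 1 : ℕ) : ℝ)) ≤ 1 + Real.log m := by
  calc ∑ l ∈ range m, 1 / (((2 * l + 1 : ℕ) : ℝ)) ≤ ∑ l ∈ range m, 1 / ((l : ℝ) + 1) := by
        apply Finset.sum_le_sum
        intro l _
        apply one_div_le_one_div_of_le (by positivity)
        push_cast; nlinarith [(Nat.cast_nonneg l : (0 : ℝ) ≤ l)]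
    _ = ((harmonic m : ℚ) : ℝ) := by
        unfold harmonic
        push_cast
        refine Finset.sum_congr rfl (fun l _ => ?_)
        rw [one_div]
    _ ≤ 1 + Real.log m := harmonic_le_one_add_log m

lemma sum_kap_le {p m : ℕ} (hpm : p = 2 * m + 1) :
    ∑ l ∈ range m, kap p (2 * l + 1) ≤ 1 + Real.log m := by
  refine le_trans (Finset.sum_le_sum (fun l hl => ?_)) (sum_inv_odd_le m)
  rw [Finset.mem_range] at hl
  exact kap_le (by omega) (by omega) (by omega)

/-- Tail estimate for a good modulus. -/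
theorem good_tail {p m : ℕ} (hpm : p = 2 * m + 1) {r : ℕ} {b c : ℕ}
    (heps : ∀ l : ℕ, 2 * l + 1 < p → eps p r (2 * l + 1) = sq (((c : ℝ) + l * b) / r))
    {q : ℕ} (hq : 0 < q) (a : ℤ) (hcop : IsCoprime a (q : ℤ))
    (hθ : |(b : ℝ) / r - a / q| ≤ 1 / (q : ℝ) ^ 2) {L0 : ℕ} (hL0 : L0 ≤ m) :
    |∑ l ∈ Ico L0 m, kap p (2 * l + 1) * eps p r (2 * l + 1)|
      ≤ 5 / q * (1 + Real.log m) + q * (1 / ((2 * L0 + 1 : ℕ) : ℝ)) := by
  have hqR : (0 : ℝ) < q := by exact_mod_cast hq
  rcases hL0.eq_or_lt with rfl | hL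
  · simp only [Finset.Ico_self, Finset.sum_empty, abs_zero]
    have : 0 ≤ Real.log L0 := Real.log_natCast_nonneg _
    positivity
  set θ : ℝ := (b : ℝ) / r with hθdef
  set γ : ℝ := ((c : ℝ) + L0 * b) / r with hγ
  have hsum : ∑ l ∈ Ico L0 m, kap p (2 * l + 1) * eps p r (2 * l + 1)
      = ∑ l ∈ range (m - L0), kap p (2 * (L0 + l) + 1) * sq (γ + l * θ) := by
    rw [Finset.sum_Ico_eq_sum_range]
    refine Finset.sum_congr rfl (fun l hl => ?_)
    rw [Finset.mem_range] at hl
    rw [heps (L0 + l) (by omega)]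
    congr 2
    rw [hγ, hθdef]; push_cast; ring
  rw [hsum]
  have hA := abel_bound (fun l => kap p (2 * (L0 + l) + 1)) (fun l => sq (γ + l * θ)) (m - L0)
    (fun l hl => (kap_pos (by omega) (by omega) (by omega)).le)
    (fun l hl => kap_anti (by omega) (by omega) (by omega) (by omega))
    (5 / q) q (fun n _ => partial_bound hq a hcop θ hθ γ n)
  refine hA.trans ?_
  rw [if_neg (by omega)]
  have h1 : ∑ l ∈ range (m - L0), kap p (2 * (L0 + l) + 1) ≤ 1 + Real.log m := by
    refine le_trans ?_ (sum_kap_le hpm)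
    have : ∑ l ∈ range (m - L0), kap p (2 * (L0 + l) + 1) = ∑ l ∈ Ico L0 m, kap p (2 * l + 1) := by
      rw [Finset.sum_Ico_eq_sum_range]
    rw [this]
    apply Finset.sum_le_sum_of_subset_of_nonneg
    · intro l hl
      rw [Finset.mem_Ico] at hl
      exact Finset.mem_range.mpr hl.2
    · intro l hl _
      rw [Finset.mem_range] at hl
      exact (kap_pos (by omega) (by omega) (by omega)).le
  have h2 : kap p (2 * (L0 + 0) + 1) ≤ 1 / ((2 * L0 + 1 : ℕ) : ℝ) :=
    kap_le (by omega) (by omega) (by omega)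
  have h5 : (0 : ℝ) ≤ 5 / q := by positivity
  exact add_le_add (mul_le_mul_of_nonneg_left h1 h5) (mul_le_mul_of_nonneg_left h2 hqR.le)

lemma periodic_partial {r : ℕ} (hr : 0 < r) (f : ℕ → ℝ) (hf1 : ∀ l, |f l| ≤ 1)
    (hblock : ∀ s, ∑ l ∈ range r, f (s + l) = 0) (s n : ℕ) :
    |∑ l ∈ range n, f (s + l)| ≤ r := by
  have hmul : ∀ t : ℕ, ∑ l ∈ range (r * t), f (s + l) = 0 := by
    intro t
    induction t with
    | zero => simp
    | succ t ih =>
      rw [Nat.mul_succ, Finset.sum_range_add, ih, zero_add]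
      rw [← hblock (s + r * t)]
      refine Finset.sum_congr rfl (fun l _ => ?_)
      congr 1; ring
  have hN : n = r * (n / r) + n % r := (Nat.div_add_mod n r).symm
  have hlt : n % r < r := Nat.mod_lt _ hr
  conv_lhs => rw [hN]
  rw [Finset.sum_range_add, hmul, zero_add]
  calc |∑ l ∈ range (n % r), f (s + (r * (n / r) + l))|
      ≤ ∑ l ∈ range (n % r), |f (s + (r * (n / r) + l))| := Finset.abs_sum_le_sum_abs _ _
    _ ≤ ∑ l ∈ range (n % r), (1 : ℝ) := Finset.sum_le_sum (fun l _ => hf1 _)
    _ = ((n % r : ℕ) : ℝ) := by simp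
    _ ≤ r := by exact_mod_cast hlt.le

/-- For `r ≥ 1` odd, the contribution of the `i` not divisible by `r` is `O(log r)`. -/
theorem small_r {p m : ℕ} (hpr : p.Prime) (hpm : p = 2 * m + 1) {r : ℕ} (hro : Odd r) (hrp : r < p) :
    |∑ l ∈ range m, (if r ∣ 2 * l + 1 then 0 else kap p (2 * l + 1) * eps p r (2 * l + 1))|
      ≤ 2 + Real.log r := by
  have hpo : Odd p := ⟨m, hpm⟩
  have hr : 0 < r := hro.pos
  have hrR : (0 : ℝ) < r := by exact_mod_cast hr
  obtain ⟨b, c, hbr, hcr, hb, hc, heps⟩ := eps_rotation hpr hpo hro hrp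
  -- the periodic sign
  set u : ℕ → ℝ := fun x => if x = 0 then 0 else if 2 * x < r then 1 else -1 with hu
  set f : ℕ → ℝ := fun l => u ((c + l * b) % r) with hf
  have hcopb : IsCoprime (b : ℤ) (r : ℤ) := by
    obtain ⟨w, hw⟩ := hb
    refine ⟨-(p : ℤ), w, ?_⟩
    have : ((p * b + 1 : ℕ) : ℤ) = ((r * w : ℕ) : ℤ) := by rw [hw]
    push_cast at this
    linarith
  have hcopp : Nat.Coprime r (2 * p) := by
    apply Nat.Coprime.mul_right
    · exact (Nat.coprime_two_right.mpr hro)
    · rw [Nat.coprime_comm, Nat.Prime.coprime_iff_not_dvd hpr]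
      intro h
      have := Nat.le_of_dvd hr h
      omega
  have hdvdx : ∀ l : ℕ, r ∣ 2 * p * ((c + l * b) % r) + (2 * l + 1) := by
    intro l
    have h1 : (r : ℤ) ∣ 2 * (p : ℤ) * (c + l * b) + (2 * l + 1) := by
      have hb' : (r : ℤ) ∣ (p : ℤ) * b + 1 := by exact_mod_cast hb
      have hc' : (r : ℤ) ∣ 2 * (p : ℤ) * c + 1 := by exact_mod_cast hc
      have e : 2 * (p : ℤ) * (c + l * b) + (2 * l + 1)
          = (2 * (p : ℤ) * c + 1) + 2 * l * ((p : ℤ) * b + 1) := by ring
      rw [e]
      exact dvd_add hc' (hb'.mul_left _)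
    have h1' : r ∣ 2 * p * (c + l * b) + (2 * l + 1) := by exact_mod_cast h1
    have h2 : 2 * p * ((c + l * b) % r) + (2 * l + 1) ≡ 2 * p * (c + l * b) + (2 * l + 1) [MOD r] :=
      ((Nat.mod_modEq _ _).mul_left _).add_right _
    exact (Nat.ModEq.dvd_iff h2 (dvd_refl r)).mpr h1'
  have hzero : ∀ l : ℕ, r ∣ 2 * l + 1 ↔ (c + l * b) % r = 0 := by
    intro l
    have h1 := hdvdx l
    constructor
    · intro h
      have h2 : r ∣ 2 * p * ((c + l * b) % r) := (Nat.dvd_add_left h).mp h1
      have h3 : r ∣ (c + l * b) % r := hcopp.dvd_of_dvd_mul_left h2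
      exact Nat.eq_zero_of_dvd_of_lt h3 (Nat.mod_lt _ hr)
    · intro h
      rw [h, mul_zero, zero_add] at h1
      exact h1
  have hterm : ∀ l, l < m → (if r ∣ 2 * l + 1 then 0 else kap p (2 * l + 1) * eps p r (2 * l + 1))
      = kap p (2 * l + 1) * f l := by
    intro l hl
    simp only [hf, hu]
    by_cases h : r ∣ 2 * l + 1
    · rw [if_pos h, if_pos ((hzero l).mp h), mul_zero]
    · rw [if_neg h, if_neg (fun h' => h ((hzero l).mpr h')), heps l (by omega)]
      congr 1
      unfold sq
      have hfract : Int.fract (((c : ℝ) + l * b) / r) = (((c + l * b) % r : ℕ) : ℝ) / r := by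
        have : ((c : ℝ) + l * b) = ((c + l * b : ℕ) : ℝ) := by push_cast; ring
        rw [this, Int.fract_div_natCast_eq_div_natCast_mod]
      rw [hfract]
      have hiff : ((((c + l * b) % r : ℕ) : ℝ) / r < 1 / 2) ↔ 2 * ((c + l * b) % r) < r := by
        rw [div_lt_div_iff₀ hrR two_pos]
        constructor
        · intro h'
          have : ((2 * ((c + l * b) % r) : ℕ) : ℝ) < r := by push_cast; push_cast at h'; linarith
          exact_mod_cast this
        · intro h'
          have : ((2 * ((c + l * b) % r) : ℕ) : ℝ) < r := by exact_mod_cast h'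
          push_cast at this ⊢; linarith
      by_cases h2 : 2 * ((c + l * b) % r) < r
      · rw [if_pos h2, if_pos (hiff.mpr h2)]
      · rw [if_neg h2, if_neg (fun h' => h2 (hiff.mp h'))]
  have hf1 : ∀ l, |f l| ≤ 1 := by
    intro l
    simp only [hf, hu]
    split_ifs <;> simp
  have hblock : ∀ s, ∑ l ∈ range r, f (s + l) = 0 := by
    intro s
    have e1 : ∀ l ∈ range r, f (s + l) = u ((((c + s * b : ℕ) : ℤ) + l * (b : ℤ)) % (r : ℤ)).toNat := by
      intro l _
      simp only [hf]
      congr 1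
      have : (((c + s * b : ℕ) : ℤ) + l * (b : ℤ)) % (r : ℤ) = (((c + (s + l) * b) % r : ℕ) : ℤ) := by
        push_cast; congr 1; ring
      rw [this, Int.toNat_natCast]
    rw [Finset.sum_congr rfl e1, sum_perm_mod hr _ _ hcopb u]
    -- sum of u over residues
    obtain ⟨w, hw⟩ := hro
    have : ∀ (w : ℕ), ∑ x ∈ range (2 * w + 1), (if x = 0 then (0 : ℝ) else if 2 * x < 2 * w + 1 then 1 else -1) = 0 := by
      intro w
      rw [Finset.sum_range_succ']
      simp only [if_true, add_zero]
      have e2 : ∀ x ∈ range (2 * w), (if x + 1 = 0 then (0 : ℝ) else if 2 * (x + 1) < 2 * w + 1 then 1 else -1)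
          = if x < w then 1 else -1 := by
        intro x _
        rw [if_neg (by omega)]
        by_cases h : x < w
        · rw [if_pos h, if_pos (by omega)]
        · rw [if_neg h, if_neg (by omega)]
      rw [Finset.sum_congr rfl e2, two_mul, Finset.sum_range_add]
      have e3 : ∀ x ∈ range w, (if x < w then (1 : ℝ) else -1) = 1 := by
        intro x hx; rw [if_pos (Finset.mem_range.mp hx)]
      have e4 : ∀ x ∈ range w, (if w + x < w then (1 : ℝ) else -1) = -1 := by
        intro x hx; rw [if_neg (by omega)]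
      rw [Finset.sum_congr rfl e3, Finset.sum_congr rfl e4]
      simp
    have h2 := this w
    rw [← hw] at h2
    exact h2
  have hsumeq : ∑ l ∈ range m, (if r ∣ 2 * l + 1 then 0 else kap p (2 * l + 1) * eps p r (2 * l + 1))
      = ∑ l ∈ range m, kap p (2 * l + 1) * f l :=
    Finset.sum_congr rfl (fun l hl => hterm l (Finset.mem_range.mp hl))
  rw [hsumeq]
  have hlogr : 0 ≤ Real.log r := Real.log_natCast_nonneg _
  have hsmall : ∀ n, n ≤ m → n ≤ r → |∑ l ∈ range n, kap p (2 * l + 1) * f l| ≤ 1 + Real.log r := by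
    intro n hn hnr
    calc |∑ l ∈ range n, kap p (2 * l + 1) * f l| ≤ ∑ l ∈ range n, |kap p (2 * l + 1) * f l| :=
          Finset.abs_sum_le_sum_abs _ _
      _ ≤ ∑ l ∈ range n, 1 / (((2 * l + 1 : ℕ) : ℝ)) := by
          apply Finset.sum_le_sum
          intro l hl
          rw [Finset.mem_range] at hl
          rw [abs_mul, abs_of_pos (kap_pos (by omega) (by omega) (by omega))]
          have h1 := kap_le (p := p) (i := 2 * l + 1) (by omega) (by omega) (by omega)
          have h2 := kap_pos (p := p) (i := 2 * l + 1) (by omega) (by omega) (by omega)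
          calc kap p (2 * l + 1) * |f l| ≤ kap p (2 * l + 1) * 1 :=
                mul_le_mul_of_nonneg_left (hf1 l) h2.le
            _ = kap p (2 * l + 1) := mul_one _
            _ ≤ _ := h1
      _ ≤ 1 + Real.log n := sum_inv_odd_le n
      _ ≤ 1 + Real.log r := by
          rcases Nat.eq_zero_or_pos n with rfl | hn0
          · simp [hlogr]
          · have : Real.log n ≤ Real.log r := by
              apply Real.log_le_log
              · exact_mod_cast hn0
              · exact_mod_cast hnr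
            linarith
  rcases le_total m r with hmr | hrm
  · exact (hsmall m le_rfl hmr).trans (by linarith)
  · -- split at r
    have hsplit : ∑ l ∈ range m, kap p (2 * l + 1) * f l
        = ∑ l ∈ range r, kap p (2 * l + 1) * f l
          + ∑ l ∈ range (m - r), kap p (2 * (r + l) + 1) * f (r + l) := by
      conv_lhs => rw [show m = r + (m - r) by omega]
      rw [Finset.sum_range_add]
    rw [hsplit]
    have hA := abel_bound (fun l => kap p (2 * (r + l) + 1)) (fun l => f (r + l)) (m - r)
      (fun l hl => (kap_pos (by omega) (by omega) (by omega)).le)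
      (fun l hl => kap_anti (by omega) (by omega) (by omega) (by omega))
      0 r (fun n _ => by
        have := periodic_partial hr f hf1 hblock r n
        simpa using this)
    have hB : |∑ l ∈ range (m - r), kap p (2 * (r + l) + 1) * f (r + l)| ≤ 1 := by
      refine hA.trans ?_
      rw [zero_mul, zero_add]
      split_ifs with h0
      · simp
      · have h2 : kap p (2 * (r + 0) + 1) ≤ 1 / ((2 * (r + 0) + 1 : ℕ) : ℝ) :=
          kap_le (by omega) (by omega) (by omega)
        calc (r : ℝ) * kap p (2 * (r + 0) + 1) ≤ r * (1 / ((2 * (r + 0) + 1 : ℕ) : ℝ)) :=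
              mul_le_mul_of_nonneg_left h2 hrR.le
          _ ≤ 1 := by
              rw [mul_one_div, div_le_one (by positivity)]
              push_cast; linarith
    calc |∑ l ∈ range r, kap p (2 * l + 1) * f l
          + ∑ l ∈ range (m - r), kap p (2 * (r + l) + 1) * f (r + l)|
        ≤ |∑ l ∈ range r, kap p (2 * l + 1) * f l|
          + |∑ l ∈ range (m - r), kap p (2 * (r + l) + 1) * f (r + l)| := abs_add_le _ _
      _ ≤ (1 + Real.log r) + 1 := add_le_add (hsmall r hrm le_rfl) hB
      _ = 2 + Real.log r := by ring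

end Pool.Agent.ThetaSum
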