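import Mathlib
import Pool.Agent.Lib.MP_d4c1d0_nt.Column
import Pool.Agent.Lib.MP_d4c1d0_nt.Tails
import Pool.Agent.Lib.MP_d4c1d0_nt.BadCount
import Pool.Agent.Lib.MP_d4c1d0_nt.Smooth
import Pool.Agent.Lib.MP_d4c1d0_nt.Change

set_option autoImplicit false
set_option linter.style.haveILetI false

open Finset Real

namespace Pool.Agent.ThetaSum

/-- row sums -/
noncomputable def Row (p m k : ℕ) : ℝ :=
  ∑ l ∈ range m, kap p (2 * l + 1) * eps p (2 * k + 1) (2 * l + 1)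

/-- the normalized double sum -/
noncomputable def AA (p m : ℕ) : ℝ := ∑ k ∈ range m, kap p (2 * k + 1) * Row p m k

lemma S_eq_AA {p m : ℕ} (hpr : p.Prime) (hpm : p = 2 * m + 1) :
    (S p : ℝ) = (8 * p / π ^ 2) * AA p m := by
  rw [S_eq hpr hpm]
  unfold AA Row
  have hp0 : (p : ℝ) ≠ 0 := by exact_mod_cast hpr.ne_zero
  have hpi : (π : ℝ) ≠ 0 := Real.pi_ne_zero
  rw [Finset.mul_sum, Finset.mul_sum]
  refine Finset.sum_congr rfl (fun k _ => ?_)
  rw [Finset.mul_sum, Finset.mul_sum, Finset.mul_sum]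
  refine Finset.sum_congr rfl (fun l _ => ?_)
  unfold kap
  push_cast
  field_simp
  ring

lemma eps_of_dvd {p r i : ℕ} (hpr : p.Prime) (hr : 0 < r) (hrp : r < p) (hi : Odd i) (hip : i < p)
    (hd : r ∣ i) : eps p r i = 1 := by
  haveI : Fact p.Prime := ⟨hpr⟩
  obtain ⟨j, rfl⟩ := hd
  have hr0 : (r : ZMod p) ≠ 0 := by
    intro h
    rw [ZMod.natCast_eq_zero_iff] at h
    have := Nat.le_of_dvd hr h
    omega
  have e : ((r * j : ℕ) : ZMod p) * (r : ZMod p)⁻¹ = (j : ZMod p) := by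
    push_cast
    field_simp
  unfold eps sg
  rw [e, ZMod.val_natCast_of_lt (lt_of_le_of_lt (Nat.le_mul_of_pos_left j hr) hip),
    if_pos (Nat.odd_mul.mp hi).2]

lemma row_lower {p m k : ℕ} (hpr : p.Prime) (hpm : p = 2 * m + 1) (hk : k < m) :
    -(2 + Real.log ((2 * k + 1 : ℕ) : ℝ)) ≤ Row p m k := by
  have h := small_r hpr hpm (r := 2 * k + 1) ⟨k, rfl⟩ (by omega)
  have h1 : Row p m k = ∑ l ∈ range m, (if 2 * k + 1 ∣ 2 * l + 1 then
        kap p (2 * l + 1) * eps p (2 * k + 1) (2 * l + 1) else 0)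
      + ∑ l ∈ range m, (if 2 * k + 1 ∣ 2 * l + 1 then 0 else
        kap p (2 * l + 1) * eps p (2 * k + 1) (2 * l + 1)) := by
    unfold Row
    rw [← Finset.sum_add_distrib]
    refine Finset.sum_congr rfl (fun l _ => ?_)
    split_ifs <;> ring
  have h2 : 0 ≤ ∑ l ∈ range m, (if 2 * k + 1 ∣ 2 * l + 1 then
        kap p (2 * l + 1) * eps p (2 * k + 1) (2 * l + 1) else 0) := by
    apply Finset.sum_nonneg
    intro l hl
    rw [Finset.mem_range] at hl
    split_ifs with hd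
    · rw [eps_of_dvd hpr (by omega) (by omega) ⟨l, rfl⟩ (by omega) hd, mul_one]
      exact (kap_pos hpr.pos (by omega) (by omega)).le
    · exact le_refl _
  rw [abs_le] at h
  rw [h1]
  linarith [h.1]

lemma row_zero {p m : ℕ} (hpr : p.Prime) (hpm : p = 2 * m + 1) :
    Row p m 0 = ∑ l ∈ range m, kap p (2 * l + 1) := by
  unfold Row
  refine Finset.sum_congr rfl (fun l hl => ?_)
  rw [Finset.mem_range] at hl
  rw [eps_of_dvd hpr (by omega) (by omega) ⟨l, rfl⟩ (by omega) (by simp), mul_one]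

lemma sum_kap_ge {p m : ℕ} (hpr : p.Prime) (hpm : p = 2 * m + 1) :
    1 / 2 * Real.log p - 1 ≤ ∑ l ∈ range m, kap p (2 * l + 1) := by
  have hp0 : 0 < p := hpr.pos
  have hpR : (0 : ℝ) < p := by exact_mod_cast hp0
  have h1 : ∑ l ∈ range m, (1 / (2 * ((l : ℝ) + 1)) - 2 / (p : ℝ) ^ 2 * (2 * l + 1))
      ≤ ∑ l ∈ range m, kap p (2 * l + 1) := by
    refine Finset.sum_le_sum (fun l hl => ?_)
    rw [Finset.mem_range] at hl
    have a2 := kap_ge hp0 (show 0 < 2 * l + 1 by omega) (by omega)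
    refine le_trans ?_ a2
    push_cast
    have e : 2 / (p : ℝ) ^ 2 * (2 * l + 1) = 2 * (2 * (l : ℝ) + 1) / (p : ℝ) ^ 2 := by ring
    rw [e]
    have : 1 / (2 * ((l : ℝ) + 1)) ≤ 1 / (2 * (l : ℝ) + 1) := by
      apply one_div_le_one_div_of_le (by positivity)
      linarith
    linarith
  refine le_trans ?_ h1
  rw [Finset.sum_sub_distrib, ← Finset.mul_sum]
  have h3 : ∀ n : ℕ, ∑ k ∈ range n, (2 * (k : ℝ) + 1) = (n : ℝ) ^ 2 := by
    intro n
    induction n with
    | zero => simp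
    | succ n ih => rw [Finset.sum_range_succ, ih]; push_cast; ring
  have h4 : 2 / (p : ℝ) ^ 2 * ∑ k ∈ range m, (2 * (k : ℝ) + 1) ≤ 1 / 2 := by
    rw [h3, div_mul_eq_mul_div, div_le_div_iff₀ (by positivity) (by norm_num), hpm]
    push_cast
    nlinarith [Nat.cast_nonneg (α := ℝ) m]
  have h5 : ∑ l ∈ range m, 1 / (2 * ((l : ℝ) + 1)) = 1 / 2 * ((harmonic m : ℚ) : ℝ) := by
    rw [harmonic, Rat.cast_sum, Finset.mul_sum]
    refine Finset.sum_congr rfl (fun l _ => ?_)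
    push_cast
    rw [one_div, one_div, mul_inv]
  have h6 : Real.log ((m + 1 : ℕ) : ℝ) ≤ (harmonic m : ℚ) := by exact_mod_cast log_add_one_le_harmonic m
  have h7 : Real.log p - Real.log 2 ≤ Real.log ((m + 1 : ℕ) : ℝ) := by
    rw [← Real.log_div hpR.ne' (by norm_num)]
    apply Real.log_le_log (by positivity)
    rw [hpm]; push_cast
    linarith
  have h8 := Real.log_two_lt_d9
  rw [h5]
  linarith

lemma sum_low {p m R0 : ℕ} (hpm : p = 2 * m + 1) (hR : 1 ≤ R0) :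
    ∑ k ∈ range m, (if 2 * k + 1 < R0 then 1 / ((2 * k + 1 : ℕ) : ℝ) else 0) ≤ 1 + Real.log R0 := by
  rw [← sum_odd_eq hpm (fun r => if r < R0 then 1 / (r : ℝ) else 0)]
  refine le_trans ?_ (sum_inv_le R0 hR)
  have h1 : ∀ r ∈ Finset.Ico 1 p, (if Odd r then (if r < R0 then 1 / (r : ℝ) else 0) else 0)
      ≤ (if r < R0 then 1 / (r : ℝ) else 0) := by
    intro r _
    split_ifs
    · exact le_refl _
    · exact le_refl _
    · positivity
    · exact le_refl _
  refine (Finset.sum_le_sum h1).trans ?_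
  rw [← Finset.sum_filter]
  apply Finset.sum_le_sum_of_subset_of_nonneg
  · intro r hr
    rw [Finset.mem_filter, Finset.mem_Ico] at hr
    rw [Finset.mem_Ico]
    exact ⟨hr.1.1, hr.2⟩
  · intro i _ _; positivity

/-- contribution of the small rows. -/
lemma low_rows {p m R0 : ℕ} (hpr : p.Prime) (hpm : p = 2 * m + 1) (hm : 1 ≤ m) (hR : 2 ≤ R0) :
    kap p 1 * Row p m 0 - (2 + Real.log R0) * (1 + Real.log R0)
      ≤ ∑ k ∈ range m, (if 2 * k + 1 < R0 then kap p (2 * k + 1) * Row p m k else 0) := by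
  have hlR : 0 ≤ Real.log R0 := Real.log_nonneg (by exact_mod_cast (by omega : 1 ≤ R0))
  have hsum := sum_low (R0 := R0) hpm (by omega)
  obtain ⟨m', rfl⟩ : ∃ m', m = m' + 1 := ⟨m - 1, by omega⟩
  rw [Finset.sum_range_succ'] at hsum ⊢
  have h0 : (if 2 * 0 + 1 < R0 then kap p (2 * 0 + 1) * Row p (m' + 1) 0 else 0)
      = kap p 1 * Row p (m' + 1) 0 := by
    rw [if_pos (by omega)]
  rw [h0]
  have h1 : ∀ k ∈ range m', -((2 + Real.log R0) *
      (if 2 * (k + 1) + 1 < R0 then 1 / ((2 * (k + 1) + 1 : ℕ) : ℝ) else 0))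
      ≤ (if 2 * (k + 1) + 1 < R0 then kap p (2 * (k + 1) + 1) * Row p (m' + 1) (k + 1) else 0) := by
    intro k hk
    rw [Finset.mem_range] at hk
    split_ifs with h
    · have a1 := kap_le hpr.pos (show 0 < 2 * (k + 1) + 1 by omega) (by omega)
      have a2 := (kap_pos hpr.pos (show 0 < 2 * (k + 1) + 1 by omega) (by omega : 2 * (k + 1) + 1 < p)).le
      have a3 := row_lower hpr hpm (show k + 1 < m' + 1 by omega)
      have a4 : Real.log ((2 * (k + 1) + 1 : ℕ) : ℝ) ≤ Real.log R0 := by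
        apply Real.log_le_log
        · exact_mod_cast (by omega : 0 < 2 * (k + 1) + 1)
        · exact_mod_cast h.le
      have a5 : -(2 + Real.log R0) ≤ Row p (m' + 1) (k + 1) := by linarith
      have a6 : kap p (2 * (k + 1) + 1) * (-(2 + Real.log R0))
          ≤ kap p (2 * (k + 1) + 1) * Row p (m' + 1) (k + 1) := mul_le_mul_of_nonneg_left a5 a2
      have a7 : kap p (2 * (k + 1) + 1) * (2 + Real.log R0)
          ≤ 1 / ((2 * (k + 1) + 1 : ℕ) : ℝ) * (2 + Real.log R0) :=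
        mul_le_mul_of_nonneg_right a1 (by linarith)
      linarith
    · simp
  have h2 := Finset.sum_le_sum h1
  rw [Finset.sum_neg_distrib, ← Finset.mul_sum] at h2
  have h3 : ∑ k ∈ range m', (if 2 * (k + 1) + 1 < R0 then 1 / ((2 * (k + 1) + 1 : ℕ) : ℝ) else 0)
      ≤ 1 + Real.log R0 := by
    refine le_trans ?_ hsum
    have : (0 : ℝ) ≤ (if 2 * 0 + 1 < R0 then 1 / ((2 * 0 + 1 : ℕ) : ℝ) else 0) := by
      split_ifs <;> positivity
    linarith
  have h4 := mul_le_mul_of_nonneg_left h3 (show 0 ≤ 2 + Real.log R0 by linarith)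
  linarith

/-- tails of rows -/
noncomputable def Tl (p m L0 k : ℕ) : ℝ :=
  ∑ l ∈ Finset.Ico L0 m, kap p (2 * l + 1) * eps p (2 * k + 1) (2 * l + 1)

lemma tail_abs {p m L0 k : ℕ} (hpm : p = 2 * m + 1) : |Tl p m L0 k| ≤ 1 + Real.log m := by
  unfold Tl
  refine (Finset.abs_sum_le_sum_abs _ _).trans ?_
  refine le_trans ?_ (sum_kap_le hpm)
  have h1 : ∀ l ∈ Finset.Ico L0 m, |kap p (2 * l + 1) * eps p (2 * k + 1) (2 * l + 1)|
      ≤ kap p (2 * l + 1) := by
    intro l hl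
    rw [Finset.mem_Ico] at hl
    rw [abs_mul, abs_eps, mul_one, abs_of_nonneg]
    exact (kap_pos (by omega) (by omega) (by omega)).le
  refine (Finset.sum_le_sum h1).trans ?_
  apply Finset.sum_le_sum_of_subset_of_nonneg
  · intro l hl
    rw [Finset.mem_Ico] at hl
    exact Finset.mem_range.mpr hl.2
  · intro l hl _
    rw [Finset.mem_range] at hl
    exact (kap_pos (by omega) (by omega) (by omega)).le

lemma tail_good {p m L0 k Q0 H : ℕ} (hpr : p.Prime) (hpm : p = 2 * m + 1) (hk : k < m)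
    (hL0 : L0 ≤ m) (hQ0 : 1 ≤ Q0) (hH : 0 < H) (hbad : ¬ Bad p Q0 H (2 * k + 1)) :
    |Tl p m L0 k| ≤ 5 / Q0 * (1 + Real.log m) + H * (1 / ((2 * L0 + 1 : ℕ) : ℝ)) := by
  have hpo : Odd p := ⟨m, hpm⟩
  obtain ⟨b, c, hb, hc, h1, h2, h3⟩ := eps_rotation hpr hpo (r := 2 * k + 1) ⟨k, rfl⟩ (by omega)
  obtain ⟨q, a, hq1, hq2, hcop, hθ⟩ := exists_approx (by omega) hH h1 hbad
  have h := good_tail hpm h3 (by omega) a hcop hθ hL0
  refine h.trans ?_
  have hm1 : 1 ≤ m := by omega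
  have hlm : 0 ≤ Real.log m := Real.log_nonneg (by exact_mod_cast hm1)
  have hQR : (0 : ℝ) < Q0 := by exact_mod_cast hQ0
  have hqR : (Q0 : ℝ) ≤ q := by exact_mod_cast hq1.le
  have hqH : (q : ℝ) ≤ H := by exact_mod_cast hq2
  apply add_le_add
  · apply mul_le_mul_of_nonneg_right _ (by linarith)
    exact div_le_div_of_nonneg_left (by norm_num) hQR hqR
  · exact mul_le_mul_of_nonneg_right hqH (by positivity)

end Pool.Agent.ThetaSum
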