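import Pool.Agent.Lib.MP_d4c1d0_nt.RecipSums

set_option autoImplicit false
set_option linter.style.haveILetI false

open Finset

namespace Pool.Agent.ThetaSum

section
variable {p : ℕ} [hp : Fact p.Prime]

/-- the standard additive character modulo `p` -/
noncomputable def ee (p : ℕ) [hp : Fact p.Prime] : AddChar (ZMod p) ℂ :=
  haveI : NeZero p := ⟨hp.out.ne_zero⟩
  ZMod.stdAddChar

lemma norm_ee (x : ZMod p) : ‖ee p x‖ = 1 := by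
  haveI : NeZero p := ⟨hp.out.ne_zero⟩
  exact AddChar.norm_apply _ _

lemma ee_neg (x : ZMod p) : ee p (-x) = (starRingEnd ℂ) (ee p x) := by
  haveI : NeZero p := ⟨hp.out.ne_zero⟩
  exact AddChar.map_neg_eq_conj _ _

lemma ee_sum (b : ZMod p) : ∑ x : ZMod p, ee p (x * b) = if b = 0 then (p : ℂ) else 0 := by
  haveI : NeZero p := ⟨hp.out.ne_zero⟩
  have h := AddChar.sum_mulShift (ψ := ee p) b (ZMod.isPrimitive_stdAddChar p)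
  rw [h, ZMod.card]
  split_ifs <;> simp

lemma ee_map_sum {ι : Type*} (s : Finset ι) (f : ι → ZMod p) :
    ee p (∑ i ∈ s, f i) = ∏ i ∈ s, ee p (f i) := by
  classical
  induction s using Finset.induction_on with
  | empty => simp
  | insert i s hi ih =>
    rw [Finset.sum_insert hi, Finset.prod_insert hi, AddChar.map_add_eq_mul, ih]

lemma parseval (a : ZMod p → ℂ) :
    ∑ l : ZMod p, ‖∑ μ : ZMod p, a μ * ee p (l * μ)‖ ^ 2 = p * ∑ μ : ZMod p, ‖a μ‖ ^ 2 := by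
  have h1 : (((∑ l : ZMod p, ‖∑ μ : ZMod p, a μ * ee p (l * μ)‖ ^ 2 : ℝ)) : ℂ)
      = ((p * ∑ μ : ZMod p, ‖a μ‖ ^ 2 : ℝ) : ℂ) := by
    push_cast
    have e1 : ∀ z : ℂ, ((‖z‖ : ℂ)) ^ 2 = z * (starRingEnd ℂ) z := by
      intro z
      rw [Complex.mul_conj, Complex.normSq_eq_norm_sq]
      push_cast; rfl
    calc ∑ l : ZMod p, ((‖∑ μ : ZMod p, a μ * ee p (l * μ)‖ : ℂ)) ^ 2
        = ∑ l : ZMod p, ∑ μ : ZMod p, ∑ ν : ZMod p, (a μ * (starRingEnd ℂ) (a ν)) * ee p (l * (μ - ν)) := by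
          refine Finset.sum_congr rfl (fun l _ => ?_)
          rw [e1, map_sum, Finset.sum_mul_sum]
          refine Finset.sum_congr rfl (fun μ _ => Finset.sum_congr rfl (fun ν _ => ?_))
          rw [(starRingEnd ℂ).map_mul, ← ee_neg]
          have : ee p (l * (μ - ν)) = ee p (l * μ) * ee p (-(l * ν)) := by
            rw [← AddChar.map_add_eq_mul]; congr 1; ring
          rw [this]; ring
      _ = ∑ μ : ZMod p, ∑ ν : ZMod p, (a μ * (starRingEnd ℂ) (a ν)) * ∑ l : ZMod p, ee p (l * (μ - ν)) := by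
          rw [Finset.sum_comm]
          refine Finset.sum_congr rfl (fun μ _ => ?_)
          rw [Finset.sum_comm]
          refine Finset.sum_congr rfl (fun ν _ => ?_)
          rw [Finset.mul_sum]
      _ = ∑ μ : ZMod p, (p : ℂ) * (a μ * (starRingEnd ℂ) (a μ)) := by
          refine Finset.sum_congr rfl (fun μ _ => ?_)
          have e2 : ∀ ν : ZMod p, (a μ * (starRingEnd ℂ) (a ν)) * ∑ l : ZMod p, ee p (l * (μ - ν))
              = if ν = μ then (p : ℂ) * (a μ * (starRingEnd ℂ) (a ν)) else 0 := by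
            intro ν
            rw [ee_sum]
            by_cases h : ν = μ
            · subst h; simp; ring
            · have h' : μ - ν ≠ 0 := sub_ne_zero.mpr (Ne.symm h)
              rw [if_neg h', if_neg h, mul_zero]
          rw [Finset.sum_congr rfl (fun ν _ => e2 ν)]
          simp
      _ = (p : ℂ) * ∑ μ : ZMod p, ((‖a μ‖ : ℂ)) ^ 2 := by
          rw [Finset.mul_sum]
          refine Finset.sum_congr rfl (fun μ _ => ?_)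
          rw [e1]
  exact_mod_cast h1

/-- coefficients of the `k`-th power of a sum over reciprocals. -/
noncomputable def coef (p : ℕ) (k : ℕ) (Q : Finset ℕ) (θ : ℕ → ℂ) (μ : ZMod p) : ℂ :=
  ∑ x ∈ (Fintype.piFinset (fun _ : Fin k => Q)).filter (fun x => ∑ i, ((x i : ZMod p))⁻¹ = μ),
    ∏ i, θ (x i)

lemma norm_coef_le (k : ℕ) (Q : Finset ℕ) (θ : ℕ → ℂ) (hθ : ∀ q ∈ Q, ‖θ q‖ ≤ 1) (μ : ZMod p) :
    ‖coef p k Q θ μ‖ ≤ J p k Q μ := by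
  unfold coef J
  calc ‖∑ x ∈ (Fintype.piFinset (fun _ : Fin k => Q)).filter (fun x => ∑ i, ((x i : ZMod p))⁻¹ = μ),
    ∏ i, θ (x i)‖ ≤ ∑ x ∈ (Fintype.piFinset (fun _ : Fin k => Q)).filter (fun x => ∑ i, ((x i : ZMod p))⁻¹ = μ),
      ‖∏ i, θ (x i)‖ := norm_sum_le _ _
    _ ≤ ∑ x ∈ (Fintype.piFinset (fun _ : Fin k => Q)).filter (fun x => ∑ i, ((x i : ZMod p))⁻¹ = μ), (1 : ℝ) := by
        apply Finset.sum_le_sum
        intro x hx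
        rw [Finset.mem_filter, Fintype.mem_piFinset] at hx
        rw [norm_prod]
        apply Finset.prod_le_one
        · intro i _; exact norm_nonneg _
        · intro i _; exact hθ _ (hx.1 i)
    _ = _ := by simp

lemma pow_expand (k : ℕ) (Q : Finset ℕ) (θ : ℕ → ℂ) (l : ZMod p) :
    (∑ q ∈ Q, θ q * ee p (l * ((q : ZMod p))⁻¹)) ^ k
      = ∑ μ : ZMod p, coef p k Q θ μ * ee p (l * μ) := by
  have h1 : (∑ q ∈ Q, θ q * ee p (l * ((q : ZMod p))⁻¹)) ^ k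
      = ∏ _i : Fin k, ∑ q ∈ Q, θ q * ee p (l * ((q : ZMod p))⁻¹) := by simp
  rw [h1, Finset.prod_univ_sum]
  have h2 : ∀ x : Fin k → ℕ, ∏ i, (θ (x i) * ee p (l * ((x i : ZMod p))⁻¹))
      = (∏ i, θ (x i)) * ee p (l * ∑ i, ((x i : ZMod p))⁻¹) := by
    intro x
    rw [Finset.prod_mul_distrib, Finset.mul_sum]
    congr 1
    rw [ee_map_sum]
  rw [Finset.sum_congr rfl (fun x _ => h2 x)]
  rw [← Finset.sum_fiberwise_of_maps_to (s := Fintype.piFinset (fun _ : Fin k => Q)) (t := Finset.univ)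
    (g := fun x => ∑ i, ((x i : ZMod p))⁻¹) (fun x _ => Finset.mem_univ _)]
  refine Finset.sum_congr rfl (fun μ _ => ?_)
  unfold coef
  rw [Finset.sum_mul]
  refine Finset.sum_congr rfl (fun x hx => ?_)
  rw [(Finset.mem_filter.mp hx).2]

/-- even moments of sums over reciprocals -/
lemma moment_bound {k X : ℕ} {Q : Finset ℕ}
    (hQ : ∀ q ∈ Q, q.Prime ∧ k < q ∧ q ≤ X ∧ q < p) (hX : k * X ^ (2 * k - 1) < p)
    (θ : ℕ → ℂ) (hθ : ∀ q ∈ Q, ‖θ q‖ ≤ 1) :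
    ∑ l : ZMod p, ‖∑ q ∈ Q, θ q * ee p (l * ((q : ZMod p))⁻¹)‖ ^ (2 * k)
      ≤ p * (k.factorial * (Q.card : ℝ) ^ k) := by
  have h1 : ∀ l : ZMod p, ‖∑ q ∈ Q, θ q * ee p (l * ((q : ZMod p))⁻¹)‖ ^ (2 * k)
      = ‖∑ μ : ZMod p, coef p k Q θ μ * ee p (l * μ)‖ ^ 2 := by
    intro l
    rw [← pow_expand, norm_pow, ← pow_mul, mul_comm 2 k]
  rw [Finset.sum_congr rfl (fun l _ => h1 l), parseval]
  apply mul_le_mul_of_nonneg_left _ (by positivity)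
  calc ∑ μ : ZMod p, ‖coef p k Q θ μ‖ ^ 2 ≤ ∑ μ : ZMod p, (k.factorial : ℝ) * J p k Q μ := by
        apply Finset.sum_le_sum
        intro μ _
        have a1 := norm_coef_le (p := p) k Q θ hθ μ
        have a2 : (J p k Q μ : ℝ) ≤ k.factorial := by exact_mod_cast J_le hQ hX μ
        have a3 : (0 : ℝ) ≤ J p k Q μ := by positivity
        calc ‖coef p k Q θ μ‖ ^ 2 ≤ (J p k Q μ : ℝ) ^ 2 := pow_le_pow_left₀ (norm_nonneg _) a1 2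
          _ = (J p k Q μ : ℝ) * J p k Q μ := by ring
          _ ≤ k.factorial * J p k Q μ := mul_le_mul_of_nonneg_right a2 a3
    _ = (k.factorial : ℝ) * (Q.card : ℝ) ^ k := by
        rw [← Finset.mul_sum]
        congr 1
        have := sum_J (p := p) k Q
        exact_mod_cast this

lemma sum_J_sq_le {k X : ℕ} {Q : Finset ℕ}
    (hQ : ∀ q ∈ Q, q.Prime ∧ k < q ∧ q ≤ X ∧ q < p) (hX : k * X ^ (2 * k - 1) < p) :
    ∑ μ : ZMod p, (J p k Q μ : ℝ) ^ 2 ≤ k.factorial * (Q.card : ℝ) ^ k := by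
  calc ∑ μ : ZMod p, (J p k Q μ : ℝ) ^ 2 ≤ ∑ μ : ZMod p, (k.factorial : ℝ) * J p k Q μ := by
        apply Finset.sum_le_sum
        intro μ _
        have a2 : (J p k Q μ : ℝ) ≤ k.factorial := by exact_mod_cast J_le hQ hX μ
        have a3 : (0 : ℝ) ≤ J p k Q μ := by positivity
        calc (J p k Q μ : ℝ) ^ 2 = (J p k Q μ : ℝ) * J p k Q μ := by ring
          _ ≤ k.factorial * J p k Q μ := mul_le_mul_of_nonneg_right a2 a3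
    _ = (k.factorial : ℝ) * (Q.card : ℝ) ^ k := by
        rw [← Finset.mul_sum]
        congr 1
        have := sum_J (p := p) k Q
        exact_mod_cast this

/-- weighted power mean inequality without normalisation -/
lemma weighted_pow {ι : Type*} (s : Finset ι) (w z : ι → ℝ) (hw : ∀ i ∈ s, 0 ≤ w i)
    (hz : ∀ i ∈ s, 0 ≤ z i) {n : ℕ} (hn : 1 ≤ n) :
    (∑ i ∈ s, w i * z i) ^ n ≤ (∑ i ∈ s, w i) ^ (n - 1) * ∑ i ∈ s, w i * z i ^ n := by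
  set W : ℝ := ∑ i ∈ s, w i with hW
  have hW0 : 0 ≤ W := Finset.sum_nonneg hw
  rcases hW0.eq_or_lt with h0 | hpos
  · have hzero : ∀ i ∈ s, w i = 0 := (Finset.sum_eq_zero_iff_of_nonneg hw).mp h0.symm
    have e1 : ∑ i ∈ s, w i * z i = 0 := Finset.sum_eq_zero (fun i hi => by rw [hzero i hi, zero_mul])
    have e2 : ∑ i ∈ s, w i * z i ^ n = 0 := Finset.sum_eq_zero (fun i hi => by rw [hzero i hi, zero_mul])
    rw [e1, e2, mul_zero, zero_pow (by omega)]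
  · have h := Real.pow_arith_mean_le_arith_mean_pow s (fun i => w i / W) z
      (fun i hi => div_nonneg (hw i hi) hW0) (by rw [← Finset.sum_div, div_self hpos.ne']) hz n
    have e1 : ∑ i ∈ s, w i / W * z i = (∑ i ∈ s, w i * z i) / W := by
      rw [Finset.sum_div]; refine Finset.sum_congr rfl (fun i _ => by ring)
    have e2 : ∑ i ∈ s, w i / W * z i ^ n = (∑ i ∈ s, w i * z i ^ n) / W := by
      rw [Finset.sum_div]; refine Finset.sum_congr rfl (fun i _ => by ring)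
    rw [e1, e2, div_pow, div_le_div_iff₀ (by positivity) hpos] at h
    obtain ⟨m, rfl⟩ : ∃ m, n = m + 1 := ⟨n - 1, by omega⟩
    rw [Nat.add_sub_cancel]
    have h2 : (∑ i ∈ s, w i * z i) ^ (m + 1) * W ≤ (W ^ m * ∑ i ∈ s, w i * z i ^ (m + 1)) * W := by
      calc (∑ i ∈ s, w i * z i) ^ (m + 1) * W ≤ (∑ i ∈ s, w i * z i ^ (m + 1)) * W ^ (m + 1) := h
        _ = (W ^ m * ∑ i ∈ s, w i * z i ^ (m + 1)) * W := by ring
    exact le_of_mul_le_mul_right h2 hpos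

/-- Karatsuba's bound for bilinear Kloosterman sums over small primes. -/
theorem bilinear_bound {k₁ k₂ X₁ X₂ : ℕ} (hk₁ : 1 ≤ k₁) (hk₂ : 1 ≤ k₂) {Q₁ Q₂ : Finset ℕ}
    (hQ₁ : ∀ q ∈ Q₁, q.Prime ∧ k₂ < q ∧ q ≤ X₁ ∧ q < p) (hX₁ : k₂ * X₁ ^ (2 * k₂ - 1) < p)
    (hQ₂ : ∀ q ∈ Q₂, q.Prime ∧ k₁ < q ∧ q ≤ X₂ ∧ q < p) (hX₂ : k₁ * X₂ ^ (2 * k₁ - 1) < p)
    (α β : ℕ → ℂ) (hα : ∀ q ∈ Q₁, ‖α q‖ ≤ 1) (hβ : ∀ q ∈ Q₂, ‖β q‖ ≤ 1)
    {c : ZMod p} (hc : c ≠ 0) :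
    ‖∑ q₁ ∈ Q₁, ∑ q₂ ∈ Q₂, α q₁ * β q₂ * ee p (c * ((q₁ : ZMod p))⁻¹ * ((q₂ : ZMod p))⁻¹)‖ ^ (2 * k₁ * k₂)
      ≤ (Q₁.card : ℝ) ^ (2 * k₁ * k₂ - k₂) * (Q₂.card : ℝ) ^ (2 * k₁ * k₂ - k₁)
        * (k₁.factorial * k₂.factorial * p) := by
  set Xs : ℝ := ‖∑ q₁ ∈ Q₁, ∑ q₂ ∈ Q₂, α q₁ * β q₂ * ee p (c * ((q₁ : ZMod p))⁻¹ * ((q₂ : ZMod p))⁻¹)‖ with hXs
  -- inner sums
  set I : ℕ → ℂ := fun q₁ => ∑ q₂ ∈ Q₂, β q₂ * ee p (c * ((q₁ : ZMod p))⁻¹ * ((q₂ : ZMod p))⁻¹) with hI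
  have h1 : Xs ≤ ∑ q₁ ∈ Q₁, 1 * ‖I q₁‖ := by
    rw [hXs]
    have e : ∑ q₁ ∈ Q₁, ∑ q₂ ∈ Q₂, α q₁ * β q₂ * ee p (c * ((q₁ : ZMod p))⁻¹ * ((q₂ : ZMod p))⁻¹)
        = ∑ q₁ ∈ Q₁, α q₁ * I q₁ := by
      refine Finset.sum_congr rfl (fun q₁ _ => ?_)
      rw [hI, Finset.mul_sum]
      refine Finset.sum_congr rfl (fun q₂ _ => ?_)
      ring
    rw [e]
    refine (norm_sum_le _ _).trans (Finset.sum_le_sum (fun q₁ hq₁ => ?_))
    rw [norm_mul]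
    exact mul_le_mul_of_nonneg_right (hα q₁ hq₁) (norm_nonneg _)
  have hXs0 : 0 ≤ Xs := norm_nonneg _
  have h2 : Xs ^ k₁ ≤ (Q₁.card : ℝ) ^ (k₁ - 1) * ∑ q₁ ∈ Q₁, ‖I q₁‖ ^ k₁ := by
    have h := weighted_pow Q₁ (fun _ => (1 : ℝ)) (fun q₁ => ‖I q₁‖) (fun _ _ => zero_le_one)
      (fun _ _ => norm_nonneg _) hk₁
    have e1 : ∑ q₁ ∈ Q₁, (1 : ℝ) = Q₁.card := by simp
    rw [e1] at h
    have e2 : ∑ q₁ ∈ Q₁, (1 : ℝ) * ‖I q₁‖ ^ k₁ = ∑ q₁ ∈ Q₁, ‖I q₁‖ ^ k₁ := by simp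
    rw [e2] at h
    exact (pow_le_pow_left₀ hXs0 h1 k₁).trans h
  -- unimodular factors
  have hsign : ∀ z : ℂ, ∃ u : ℂ, ‖u‖ ≤ 1 ∧ u * z = (‖z‖ : ℂ) := by
    intro z
    by_cases hz : z = 0
    · exact ⟨0, by simp, by simp [hz]⟩
    · refine ⟨(starRingEnd ℂ) z / ‖z‖, ?_, ?_⟩
      · rw [norm_div, RCLike.norm_conj, Complex.norm_real, norm_norm, div_self (norm_ne_zero_iff.mpr hz)]
      · have hn : ((‖z‖ : ℝ) : ℂ) ≠ 0 := by exact_mod_cast norm_ne_zero_iff.mpr hz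
        rw [div_mul_eq_mul_div, mul_comm, Complex.mul_conj, Complex.normSq_eq_norm_sq]
        push_cast
        field_simp
  choose u hu1 hu2 using hsign
  set θ : ℕ → ℂ := fun q₁ => u ((I q₁) ^ k₁) with hθ
  set V : ZMod p → ℂ := fun l => ∑ q₁ ∈ Q₁, θ q₁ * ee p (l * ((q₁ : ZMod p))⁻¹) with hV
  set Y : ℝ := ∑ μ : ZMod p, (J p k₁ Q₂ μ : ℝ) * ‖V (c * μ)‖ with hY
  have h3 : ∑ q₁ ∈ Q₁, ‖I q₁‖ ^ k₁ ≤ Y := by
    have e1 : ((∑ q₁ ∈ Q₁, ‖I q₁‖ ^ k₁ : ℝ) : ℂ) = ∑ μ : ZMod p, coef p k₁ Q₂ β μ * V (c * μ) := by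
      push_cast
      have e2 : ∀ q₁ ∈ Q₁, ((‖I q₁‖ : ℂ)) ^ k₁
          = ∑ μ : ZMod p, coef p k₁ Q₂ β μ * (θ q₁ * ee p (c * μ * ((q₁ : ZMod p))⁻¹)) := by
        intro q₁ _
        have a1 : ((‖I q₁‖ : ℂ)) ^ k₁ = θ q₁ * (I q₁) ^ k₁ := by
          rw [hθ, hu2, norm_pow]; push_cast; rfl
        rw [a1, hI, pow_expand, Finset.mul_sum]
        refine Finset.sum_congr rfl (fun μ _ => ?_)
        have : c * ((q₁ : ZMod p))⁻¹ * μ = c * μ * ((q₁ : ZMod p))⁻¹ := by ring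
        rw [this]; ring
      rw [Finset.sum_congr rfl e2, Finset.sum_comm]
      refine Finset.sum_congr rfl (fun μ _ => ?_)
      rw [hV, Finset.mul_sum]
    have e3 : (∑ q₁ ∈ Q₁, ‖I q₁‖ ^ k₁ : ℝ) = ‖((∑ q₁ ∈ Q₁, ‖I q₁‖ ^ k₁ : ℝ) : ℂ)‖ := by
      rw [Complex.norm_real, Real.norm_eq_abs, abs_of_nonneg]
      exact Finset.sum_nonneg (fun _ _ => by positivity)
    rw [e3, e1, hY]
    refine (norm_sum_le _ _).trans (Finset.sum_le_sum (fun μ _ => ?_))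
    rw [norm_mul]
    exact mul_le_mul_of_nonneg_right (norm_coef_le k₁ Q₂ β hβ μ) (norm_nonneg _)
  have hY0 : 0 ≤ Y := Finset.sum_nonneg (fun μ _ => by positivity)
  -- bound for Y
  have h4 : Y ^ k₂ ≤ ((Q₂.card : ℝ) ^ k₁) ^ (k₂ - 1) * ∑ μ : ZMod p, (J p k₁ Q₂ μ : ℝ) * ‖V (c * μ)‖ ^ k₂ := by
    have h := weighted_pow Finset.univ (fun μ : ZMod p => (J p k₁ Q₂ μ : ℝ)) (fun μ => ‖V (c * μ)‖)
      (fun _ _ => by positivity) (fun _ _ => norm_nonneg _) hk₂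
    have e1 : ∑ μ : ZMod p, (J p k₁ Q₂ μ : ℝ) = (Q₂.card : ℝ) ^ k₁ := by
      exact_mod_cast sum_J (p := p) k₁ Q₂
    rw [e1] at h
    exact h
  have h5 : (∑ μ : ZMod p, (J p k₁ Q₂ μ : ℝ) * ‖V (c * μ)‖ ^ k₂) ^ 2
      ≤ (k₁.factorial * (Q₂.card : ℝ) ^ k₁) * (p * (k₂.factorial * (Q₁.card : ℝ) ^ k₂)) := by
    refine (Finset.sum_mul_sq_le_sq_mul_sq _ _ _).trans ?_
    apply mul_le_mul (sum_J_sq_le hQ₂ hX₂) _ (Finset.sum_nonneg (fun _ _ => by positivity)) (by positivity)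
    have e1 : ∑ μ : ZMod p, (‖V (c * μ)‖ ^ k₂) ^ 2 = ∑ l : ZMod p, ‖V l‖ ^ (2 * k₂) := by
      have : ∑ μ : ZMod p, (‖V (c * μ)‖ ^ k₂) ^ 2 = ∑ μ : ZMod p, (fun l => ‖V l‖ ^ (2 * k₂)) ((Equiv.mulLeft₀ c hc) μ) := by
        refine Finset.sum_congr rfl (fun μ _ => ?_)
        simp only [Equiv.mulLeft₀_apply]
        rw [← pow_mul, mul_comm k₂ 2]
      rw [this, Equiv.sum_comp (Equiv.mulLeft₀ c hc) (fun l => ‖V l‖ ^ (2 * k₂))]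
    rw [e1]
    exact moment_bound hQ₁ hX₁ θ (fun q _ => hu1 _)
  -- combine
  set Z : ℝ := ∑ μ : ZMod p, (J p k₁ Q₂ μ : ℝ) * ‖V (c * μ)‖ ^ k₂ with hZ
  have hZ0 : 0 ≤ Z := Finset.sum_nonneg (fun μ _ => by positivity)
  have h6 : Xs ^ k₁ ≤ (Q₁.card : ℝ) ^ (k₁ - 1) * Y :=
    h2.trans (mul_le_mul_of_nonneg_left h3 (by positivity))
  have h7 : Xs ^ (2 * k₁ * k₂) ≤ ((Q₁.card : ℝ) ^ (k₁ - 1)) ^ (2 * k₂) * (Y ^ k₂) ^ 2 := by
    calc Xs ^ (2 * k₁ * k₂) = (Xs ^ k₁) ^ (2 * k₂) := by rw [← pow_mul]; congr 1; ring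
      _ ≤ ((Q₁.card : ℝ) ^ (k₁ - 1) * Y) ^ (2 * k₂) := pow_le_pow_left₀ (by positivity) h6 _
      _ = ((Q₁.card : ℝ) ^ (k₁ - 1)) ^ (2 * k₂) * (Y ^ k₂) ^ 2 := by
          rw [mul_pow, ← pow_mul Y, mul_comm k₂ 2]
  have h8 : (Y ^ k₂) ^ 2 ≤ (((Q₂.card : ℝ) ^ k₁) ^ (k₂ - 1)) ^ 2 *
      ((k₁.factorial * (Q₂.card : ℝ) ^ k₁) * (p * (k₂.factorial * (Q₁.card : ℝ) ^ k₂))) := by
    calc (Y ^ k₂) ^ 2 ≤ (((Q₂.card : ℝ) ^ k₁) ^ (k₂ - 1) * Z) ^ 2 := pow_le_pow_left₀ (by positivity) h4 2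
      _ = (((Q₂.card : ℝ) ^ k₁) ^ (k₂ - 1)) ^ 2 * Z ^ 2 := by rw [mul_pow]
      _ ≤ _ := mul_le_mul_of_nonneg_left h5 (by positivity)
  calc Xs ^ (2 * k₁ * k₂) ≤ ((Q₁.card : ℝ) ^ (k₁ - 1)) ^ (2 * k₂) * (Y ^ k₂) ^ 2 := h7
    _ ≤ ((Q₁.card : ℝ) ^ (k₁ - 1)) ^ (2 * k₂) * ((((Q₂.card : ℝ) ^ k₁) ^ (k₂ - 1)) ^ 2 *
      ((k₁.factorial * (Q₂.card : ℝ) ^ k₁) * (p * (k₂.factorial * (Q₁.card : ℝ) ^ k₂)))) :=
        mul_le_mul_of_nonneg_left h8 (by positivity)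
    _ = (Q₁.card : ℝ) ^ (2 * k₁ * k₂ - k₂) * (Q₂.card : ℝ) ^ (2 * k₁ * k₂ - k₁)
        * (k₁.factorial * k₂.factorial * p) := by
        obtain ⟨a, rfl⟩ : ∃ a, k₁ = a + 1 := ⟨k₁ - 1, by omega⟩
        obtain ⟨b, rfl⟩ : ∃ b, k₂ = b + 1 := ⟨k₂ - 1, by omega⟩
        have e1 : 2 * (a + 1) * (b + 1) - (b + 1) = a * (2 * (b + 1)) + (b + 1) := by
          have : 2 * (a + 1) * (b + 1) = (a * (2 * (b + 1)) + (b + 1)) + (b + 1) := by ring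
          omega
        have e2 : 2 * (a + 1) * (b + 1) - (a + 1) = (a + 1) * b * 2 + (a + 1) := by
          have : 2 * (a + 1) * (b + 1) = ((a + 1) * b * 2 + (a + 1)) + (a + 1) := by ring
          omega
        rw [e1, e2, Nat.add_sub_cancel, Nat.add_sub_cancel]
        ring

end

end Pool.Agent.ThetaSum
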