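import Mathlib
import Pool.Agent.Lib.MP_d4c1d0_nt.Assembly

set_option autoImplicit false
set_option linter.style.haveILetI false

open Finset Real

namespace Pool.Agent.ThetaSum

lemma ite_split (O C D : Prop) [Decidable O] [Decidable C] [Decidable D] (x : ℝ) (hx : 0 ≤ x) :
    (if O then (if C then x else 0) else 0) ≤ (if C ∧ D then x else 0) + (if C ∧ ¬ D then x else 0) := by
  by_cases hO : O <;> by_cases hC : C <;> by_cases hD : D <;> simp [hO, hC, hD, hx]

open Classical in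
/-- reciprocal sum over bad moduli. -/
lemma bad_total {p m Q0 H y u R0 : ℕ} (hpr : p.Prime) (hpm : p = 2 * m + 1) (hQp : Q0 < p)
    (hH : 2 ≤ H) (hy : 2 ≤ y) (hR : 2 * H ≤ R0) (hRy : y ^ u ≤ R0) :
    ∑ k ∈ range m, (if R0 ≤ 2 * k + 1 ∧ Bad p Q0 H (2 * k + 1) then 1 / ((2 * k + 1 : ℕ) : ℝ) else 0)
      ≤ (Nat.log 2 p + 1) *
      (Q0 * (2 * (Nat.log 2 p + 1)) * (5 * (2 + Real.log p) / H + 2 / y))
        + (2 / 3 : ℝ) ^ u * (y : ℝ) ^ 3 := by
  rw [← sum_odd_eq hpm (fun r => if R0 ≤ r ∧ Bad p Q0 H r then 1 / (r : ℝ) else 0)]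
  have h1 : ∀ r ∈ Finset.Ico 1 p, (if Odd r then (if R0 ≤ r ∧ Bad p Q0 H r then 1 / (r : ℝ) else 0) else 0)
      ≤ (if (R0 ≤ r ∧ Bad p Q0 H r) ∧ (∃ ℓ, ℓ.Prime ∧ y ≤ ℓ ∧ ℓ ∣ r) then 1 / (r : ℝ) else 0)
       + (if (R0 ≤ r ∧ Bad p Q0 H r) ∧ ¬ (∃ ℓ, ℓ.Prime ∧ y ≤ ℓ ∧ ℓ ∣ r) then 1 / (r : ℝ) else 0) := by
    intro r _
    exact ite_split _ _ _ _ (by positivity)
  refine (Finset.sum_le_sum h1).trans ?_
  rw [Finset.sum_add_distrib, ← Finset.sum_filter, ← Finset.sum_filter]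
  apply add_le_add
  · apply bad_sum hpr hQp hH (by omega)
    intro r hr
    rw [Finset.mem_filter, Finset.mem_Ico] at hr
    exact ⟨hR.trans hr.2.1.1, hr.1.2, hr.2.1.2, hr.2.2⟩
  · apply smooth_sum hy
    intro r hr
    rw [Finset.mem_filter, Finset.mem_Ico] at hr
    refine ⟨hRy.trans hr.2.1.1, ?_⟩
    intro ℓ hℓ hd
    by_contra hcon
    exact hr.2.2 ⟨ℓ, hℓ, not_lt.mp hcon, hd⟩

open Classical in
/-- **Lower bound** for the normalized double sum. -/
theorem main_lower {p m Q0 H y u R0 L0 : ℕ} (hpr : p.Prime) (hpm : p = 2 * m + 1) (hm : 1 ≤ m)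
    (hQ0 : 1 ≤ Q0) (hQp : Q0 < p)
    (hH : 2 ≤ H) (hy : 2 ≤ y) (hR : 2 * H ≤ R0) (hRy : y ^ u ≤ R0) (hL0 : L0 ≤ m) {V : ℝ}
    (hV : ∀ l ∈ range L0,
      |∑ k ∈ range m, (if R0 ≤ 2 * k + 1 then kap p (2 * k + 1) * eps p (2 * k + 1) (2 * l + 1) else 0)|
        ≤ V) :
    1 / 4 * Real.log p - 1 - (2 + Real.log R0) * (1 + Real.log R0) - (1 + Real.log L0) * |V|
      - (1 + Real.log m) * (5 / Q0 * (1 + Real.log m) + H * (1 / ((2 * L0 + 1 : ℕ) : ℝ)))
      - (1 + Real.log m) * ((Nat.log 2 p + 1) *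
      (Q0 * (2 * (Nat.log 2 p + 1)) * (5 * (2 + Real.log p) / H + 2 / y))
        + (2 / 3 : ℝ) ^ u * (y : ℝ) ^ 3) ≤ AA p m := by
  have hp0 := hpr.pos
  have hlm : 0 ≤ Real.log m := Real.log_nonneg (by exact_mod_cast hm)
  set E1 : ℝ := 5 / Q0 * (1 + Real.log m) + H * (1 / ((2 * L0 + 1 : ℕ) : ℝ)) with hE1
  have hE10 : 0 ≤ E1 := by rw [hE1]; positivity
  -- splitting into low and high rows
  have hsplit : AA p m = ∑ k ∈ range m, (if 2 * k + 1 < R0 then kap p (2 * k + 1) * Row p m k else 0)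
      + ∑ k ∈ range m, (if R0 ≤ 2 * k + 1 then kap p (2 * k + 1) * Row p m k else 0) := by
    unfold AA
    rw [← Finset.sum_add_distrib]
    refine Finset.sum_congr rfl (fun k _ => ?_)
    by_cases h : 2 * k + 1 < R0
    · rw [if_pos h, if_neg (by omega), add_zero]
    · rw [if_neg h, if_pos (by omega), zero_add]
  have hlow := low_rows hpr hpm hm (R0 := R0) (by omega)
  -- main term
  have hmain : 1 / 4 * Real.log p - 1 ≤ kap p 1 * Row p m 0 := by
    rw [row_zero hpr hpm]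
    have h1 := sum_kap_ge hpr hpm
    have h2 := kap_ge hp0 (show 0 < 1 by norm_num) hpr.one_lt
    have h3 : (1 : ℝ) / 2 ≤ kap p 1 := by
      refine le_trans ?_ h2
      have hp2 : (2 : ℝ) ≤ p := by exact_mod_cast hpr.two_le
      have : 2 * ((1 : ℕ) : ℝ) / (p : ℝ) ^ 2 ≤ 1 / 2 := by
        rw [div_le_div_iff₀ (by positivity) (by norm_num)]
        push_cast
        nlinarith
      push_cast at this ⊢
      linarith
    have h4 : 0 ≤ ∑ l ∈ range m, kap p (2 * l + 1) := by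
      apply Finset.sum_nonneg
      intro l hl
      rw [Finset.mem_range] at hl
      exact (kap_pos hp0 (by omega) (by omega)).le
    have h5 : 1 / 2 * ∑ l ∈ range m, kap p (2 * l + 1) ≤ kap p 1 * ∑ l ∈ range m, kap p (2 * l + 1) :=
      mul_le_mul_of_nonneg_right h3 h4
    linarith
  -- high rows
  have hhigh : ∑ k ∈ range m, (if R0 ≤ 2 * k + 1 then kap p (2 * k + 1) * Row p m k else 0)
      = ∑ l ∈ range L0, kap p (2 * l + 1) * (∑ k ∈ range m,
        (if R0 ≤ 2 * k + 1 then kap p (2 * k + 1) * eps p (2 * k + 1) (2 * l + 1) else 0))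
      + ∑ k ∈ range m, (if R0 ≤ 2 * k + 1 then kap p (2 * k + 1) * Tl p m L0 k else 0) := by
    have h1 : ∀ k ∈ range m, (if R0 ≤ 2 * k + 1 then kap p (2 * k + 1) * Row p m k else 0)
        = ∑ l ∈ range L0, kap p (2 * l + 1) *
          (if R0 ≤ 2 * k + 1 then kap p (2 * k + 1) * eps p (2 * k + 1) (2 * l + 1) else 0)
        + (if R0 ≤ 2 * k + 1 then kap p (2 * k + 1) * Tl p m L0 k else 0) := by
      intro k _
      split_ifs
      · unfold Row Tl
        rw [← Finset.sum_range_add_sum_Ico _ hL0, mul_add, Finset.mul_sum]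
        congr 1
        refine Finset.sum_congr rfl (fun l _ => ?_)
        ring
      · simp
    rw [Finset.sum_congr rfl h1, Finset.sum_add_distrib, Finset.sum_comm]
    congr 1
    refine Finset.sum_congr rfl (fun l _ => ?_)
    rw [Finset.mul_sum]
  have hC : |∑ l ∈ range L0, kap p (2 * l + 1) * (∑ k ∈ range m,
        (if R0 ≤ 2 * k + 1 then kap p (2 * k + 1) * eps p (2 * k + 1) (2 * l + 1) else 0))|
      ≤ (1 + Real.log L0) * |V| := by
    refine (Finset.abs_sum_le_sum_abs _ _).trans ?_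
    have h1 : ∀ l ∈ range L0, |kap p (2 * l + 1) * (∑ k ∈ range m,
        (if R0 ≤ 2 * k + 1 then kap p (2 * k + 1) * eps p (2 * k + 1) (2 * l + 1) else 0))|
        ≤ 1 / ((2 * l + 1 : ℕ) : ℝ) * |V| := by
      intro l hl
      have hl' := Finset.mem_range.mp hl
      have a1 := kap_le hp0 (show 0 < 2 * l + 1 by omega) (by omega)
      have a2 := (kap_pos hp0 (show 0 < 2 * l + 1 by omega) (by omega : 2 * l + 1 < p)).le
      rw [abs_mul, abs_of_nonneg a2]
      exact mul_le_mul a1 ((hV l hl).trans (le_abs_self V)) (abs_nonneg _) (by positivity)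
    refine (Finset.sum_le_sum h1).trans ?_
    rw [← Finset.sum_mul]
    exact mul_le_mul_of_nonneg_right (sum_inv_odd_le L0) (abs_nonneg _)
  have hbad := bad_total hpr hpm hQp hH hy hR hRy
  have hD : |∑ k ∈ range m, (if R0 ≤ 2 * k + 1 then kap p (2 * k + 1) * Tl p m L0 k else 0)|
      ≤ (1 + Real.log m) * E1 + (1 + Real.log m) * ((Nat.log 2 p + 1) *
      (Q0 * (2 * (Nat.log 2 p + 1)) * (5 * (2 + Real.log p) / H + 2 / y))
        + (2 / 3 : ℝ) ^ u * (y : ℝ) ^ 3) := by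
    refine (Finset.abs_sum_le_sum_abs _ _).trans ?_
    have h1 : ∀ k ∈ range m, |(if R0 ≤ 2 * k + 1 then kap p (2 * k + 1) * Tl p m L0 k else 0)|
        ≤ 1 / ((2 * k + 1 : ℕ) : ℝ) * E1 + (1 + Real.log m) *
          (if R0 ≤ 2 * k + 1 ∧ Bad p Q0 H (2 * k + 1) then 1 / ((2 * k + 1 : ℕ) : ℝ) else 0) := by
      intro k hk
      rw [Finset.mem_range] at hk
      have a1 := kap_le hp0 (show 0 < 2 * k + 1 by omega) (by omega)
      have a2 := (kap_pos hp0 (show 0 < 2 * k + 1 by omega) (by omega : 2 * k + 1 < p)).le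
      have a3 : 0 ≤ 1 / ((2 * k + 1 : ℕ) : ℝ) * E1 := by positivity
      by_cases c1 : R0 ≤ 2 * k + 1
      · rw [if_pos c1, abs_mul, abs_of_nonneg a2]
        by_cases c2 : Bad p Q0 H (2 * k + 1)
        · rw [if_pos ⟨c1, c2⟩]
          have := mul_le_mul a1 (tail_abs (L0 := L0) (k := k) hpm) (abs_nonneg _) (by positivity)
          linarith
        · rw [if_neg (fun h => c2 h.2), mul_zero, add_zero]
          exact mul_le_mul a1 (tail_good hpr hpm hk hL0 hQ0 (by omega) c2) (abs_nonneg _) (by positivity)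
      · rw [if_neg c1, abs_zero, if_neg (fun h => c1 h.1), mul_zero, add_zero]
        exact a3
    refine (Finset.sum_le_sum h1).trans ?_
    rw [Finset.sum_add_distrib, ← Finset.sum_mul, ← Finset.mul_sum]
    apply add_le_add
    · exact mul_le_mul_of_nonneg_right (sum_inv_odd_le m) hE10
    · exact mul_le_mul_of_nonneg_left hbad (by linarith)
  rw [hsplit, hhigh]
  rw [abs_le] at hC hD
  linarith [hC.1, hD.1]

end Pool.Agent.ThetaSum
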