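import Mathlib
import Pool.Agent.Lib.MP_d4c1d0_nt.Lower

set_option autoImplicit false
set_option linter.style.haveILetI false

open Finset Real Filter Topology

namespace Pool.Agent.ThetaSum

/-- the size conditions on `T`. -/
structure TBig (T : ℕ) : Prop where
  h1 : (1000 : ℝ) ≤ T
  h2 : Real.log T ≤ (T : ℝ) / 1000
  h3 : (2000000000 : ℝ) ≤ Real.log T
  h4 : (T : ℝ) ^ 200 * Real.exp (-(T : ℝ) / 32) ≤ 1

lemma eventually_TBig : ∀ᶠ T : ℕ in atTop, TBig T := by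
  have hcast : Tendsto (fun T : ℕ => (T : ℝ)) atTop atTop := tendsto_natCast_atTop_atTop
  have e1 : ∀ᶠ x : ℝ in atTop, (1000 : ℝ) ≤ x := eventually_ge_atTop _
  have e2 : ∀ᶠ x : ℝ in atTop, Real.log x ≤ x / 1000 := by
    have h := Real.isLittleO_log_id_atTop.bound (show (0 : ℝ) < 1 / 1000 by norm_num)
    filter_upwards [h, eventually_ge_atTop (0 : ℝ)] with x hx hx0
    have h1 : Real.log x ≤ ‖Real.log x‖ := Real.le_norm_self _
    rw [id, Real.norm_eq_abs x, abs_of_nonneg hx0] at hx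
    linarith
  have e3 : ∀ᶠ x : ℝ in atTop, (2000000000 : ℝ) ≤ Real.log x :=
    Real.tendsto_log_atTop.eventually_ge_atTop _
  have e4 : ∀ᶠ x : ℝ in atTop, x ^ 200 * Real.exp (-x / 32) ≤ 1 := by
    have h := Real.tendsto_pow_mul_exp_neg_atTop_nhds_zero 200
    have h' : Tendsto (fun x : ℝ => x / 32) atTop atTop := tendsto_id.atTop_div_const (by norm_num)
    have h2 := h.comp h'
    have h3 : ∀ᶠ x : ℝ in atTop, ((fun x : ℝ => x ^ 200 * Real.exp (-x)) ∘ fun x : ℝ => x / 32) x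
        < 1 / 32 ^ 200 := by
      apply h2.eventually_lt_const
      positivity
    filter_upwards [h3] with x hx
    simp only [Function.comp] at hx
    rw [div_pow, div_mul_eq_mul_div, div_lt_div_iff_of_pos_right (by positivity)] at hx
    have e : -x / 32 = -(x / 32) := by ring
    rw [e]
    exact hx.le
  filter_upwards [hcast.eventually e1, hcast.eventually e2, hcast.eventually e3, hcast.eventually e4]
    with T h1 h2 h3 h4
  exact ⟨h1, h2, h3, h4⟩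

lemma natlog_le {p T : ℕ} (hp : 1 ≤ p) (hlog : Real.log p ≤ 2 * (T : ℝ) ^ 4) :
    (Nat.log 2 p : ℝ) ≤ 3 * (T : ℝ) ^ 4 := by
  have h1 : 2 ^ (Nat.log 2 p) ≤ p := Nat.pow_log_le_self 2 (by omega)
  have h2 : ((2 : ℝ) ^ (Nat.log 2 p)) ≤ p := by exact_mod_cast h1
  have h3 : (Nat.log 2 p : ℝ) * Real.log 2 ≤ Real.log p := by
    rw [← Real.log_pow]
    exact Real.log_le_log (by positivity) h2
  have h4 := Real.log_two_gt_d9
  have h5 : (0 : ℝ) ≤ Nat.log 2 p := Nat.cast_nonneg _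
  nlinarith

lemma pow_exp_small {T : ℕ} (hT : TBig T) (n : ℕ) (hn : n ≤ 199) (c : ℝ) (hc : c ≤ T) :
    c * (T : ℝ) ^ n * Real.exp (-(T : ℝ) / 32) ≤ 1 := by
  refine le_trans ?_ hT.h4
  apply mul_le_mul_of_nonneg_right _ (Real.exp_pos _).le
  have hT1 : (1 : ℝ) ≤ T := by linarith [hT.h1]
  calc c * (T : ℝ) ^ n ≤ T * (T : ℝ) ^ n := mul_le_mul_of_nonneg_right hc (by positivity)
    _ = (T : ℝ) ^ (n + 1) := by ring
    _ ≤ (T : ℝ) ^ 200 := pow_le_pow_right₀ hT1 (by omega)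

/-- simplification of the column bound. -/
lemma V_bound {p m T : ℕ} (hT : TBig T) (hp : 1 ≤ p) (hm : 1 ≤ m) (hmp : m ≤ p)
    (hlog2 : Real.log p ≤ 2 * (T : ℝ) ^ 4) :
    1 + (49152 * (1 + 3 * Real.log p) / (Real.log T) ^ 2 + 7
        + (1 + Real.log p) * ((Real.exp (-(T : ℝ) ^ 3 / 2) * (1 + Real.log p))
          * (1 + 2 * (1 + Real.log p)))
        + ((T * (Nat.log 2 p + 1) : ℕ) : ℝ) ^ 2 *
          ((1 + Real.log p) * (8 * (1 + Real.log m) * Real.exp (-(T : ℝ) / 32))))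
      ≤ 344064 * (T : ℝ) ^ 4 / (Real.log T) ^ 2 + 12 := by
  have hT1 : (1000 : ℝ) ≤ T := hT.h1
  have hTpos : (0 : ℝ) < T := by linarith
  have hT4 : (1 : ℝ) ≤ (T : ℝ) ^ 4 := one_le_pow₀ (by linarith)
  have hlT : (0 : ℝ) < Real.log T := by linarith [hT.h3]
  have hlp : 0 ≤ Real.log p := Real.log_nonneg (by exact_mod_cast hp)
  have hlm : 0 ≤ Real.log m := Real.log_nonneg (by exact_mod_cast hm)
  have hlmp : Real.log m ≤ Real.log p := by
    apply Real.log_le_log (by exact_mod_cast hm)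
    exact_mod_cast hmp
  have b1 : 1 + Real.log p ≤ 3 * (T : ℝ) ^ 4 := by linarith
  have b2 : 1 + Real.log m ≤ 3 * (T : ℝ) ^ 4 := by linarith
  have b3 : 1 + 2 * (1 + Real.log p) ≤ 7 * (T : ℝ) ^ 4 := by linarith
  have t1 : 49152 * (1 + 3 * Real.log p) / (Real.log T) ^ 2 ≤ 344064 * (T : ℝ) ^ 4 / (Real.log T) ^ 2 := by
    apply div_le_div_of_nonneg_right _ (by positivity)
    linarith
  have hexp : Real.exp (-(T : ℝ) ^ 3 / 2) ≤ Real.exp (-(T : ℝ) / 32) := by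
    apply Real.exp_le_exp.mpr
    have : (T : ℝ) * 1 ≤ (T : ℝ) * (T : ℝ) ^ 2 := by
      apply mul_le_mul_of_nonneg_left _ hTpos.le
      nlinarith
    have e : (T : ℝ) ^ 3 = T * T ^ 2 := by ring
    rw [e]
    linarith
  have hexp0 := Real.exp_pos (-(T : ℝ) / 32)
  have hexp1 := Real.exp_pos (-(T : ℝ) ^ 3 / 2)
  have t2 : (1 + Real.log p) * ((Real.exp (-(T : ℝ) ^ 3 / 2) * (1 + Real.log p))
          * (1 + 2 * (1 + Real.log p))) ≤ 1 := by
    calc (1 + Real.log p) * ((Real.exp (-(T : ℝ) ^ 3 / 2) * (1 + Real.log p))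
          * (1 + 2 * (1 + Real.log p)))
        ≤ (3 * (T : ℝ) ^ 4) * ((Real.exp (-(T : ℝ) / 32) * (3 * (T : ℝ) ^ 4)) * (7 * (T : ℝ) ^ 4)) := by
          apply mul_le_mul b1 _ (by positivity) (by positivity)
          apply mul_le_mul _ b3 (by positivity) (by positivity)
          exact mul_le_mul hexp b1 (by positivity) hexp0.le
      _ = 63 * (T : ℝ) ^ 12 * Real.exp (-(T : ℝ) / 32) := by ring
      _ ≤ 1 := pow_exp_small hT 12 (by norm_num) 63 (by linarith)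
  have b4 : ((T * (Nat.log 2 p + 1) : ℕ) : ℝ) ≤ 4 * (T : ℝ) ^ 5 := by
    have := natlog_le hp hlog2
    push_cast
    calc (T : ℝ) * ((Nat.log 2 p : ℝ) + 1) ≤ T * (3 * (T : ℝ) ^ 4 + (T : ℝ) ^ 4) := by
          apply mul_le_mul_of_nonneg_left _ hTpos.le
          linarith
      _ = 4 * (T : ℝ) ^ 5 := by ring
  have t3 : ((T * (Nat.log 2 p + 1) : ℕ) : ℝ) ^ 2 *
          ((1 + Real.log p) * (8 * (1 + Real.log m) * Real.exp (-(T : ℝ) / 32))) ≤ 3 := by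
    calc ((T * (Nat.log 2 p + 1) : ℕ) : ℝ) ^ 2 *
          ((1 + Real.log p) * (8 * (1 + Real.log m) * Real.exp (-(T : ℝ) / 32)))
        ≤ (4 * (T : ℝ) ^ 5) ^ 2 * ((3 * (T : ℝ) ^ 4) * (8 * (3 * (T : ℝ) ^ 4) * Real.exp (-(T : ℝ) / 32))) := by
          apply mul_le_mul _ _ (by positivity) (by positivity)
          · exact pow_le_pow_left₀ (Nat.cast_nonneg _) b4 2
          · apply mul_le_mul b1 _ (by positivity) (by positivity)
            apply mul_le_mul_of_nonneg_right _ hexp0.le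
            linarith
      _ = 2 * (576 * (T : ℝ) ^ 18 * Real.exp (-(T : ℝ) / 32)) := by ring
      _ ≤ 2 * 1 := by
          apply mul_le_mul_of_nonneg_left _ (by norm_num)
          exact pow_exp_small hT 18 (by norm_num) 576 (by linarith)
      _ ≤ 3 := by norm_num
  linarith

lemma err1 {T : ℕ} (hT : TBig T) {R0 : ℕ} (hR : R0 = T ^ (32 * T)) :
    (2 + Real.log R0) * (1 + Real.log R0) ≤ (T : ℝ) ^ 4 / 400 := by
  have hT1 : (1000 : ℝ) ≤ T := hT.h1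
  have hl3 := hT.h3
  have hl2 := hT.h2
  have e : Real.log R0 = 32 * T * Real.log T := by
    rw [hR]; push_cast; rw [Real.log_pow]; push_cast; ring
  rw [e]
  have h1 : 1 ≤ T * Real.log T := by nlinarith
  have h2 : 2 + 32 * T * Real.log T ≤ 34 * (T * Real.log T) := by linarith
  have h3 : 1 + 32 * T * Real.log T ≤ 34 * (T * Real.log T) := by linarith
  calc (2 + 32 * T * Real.log T) * (1 + 32 * T * Real.log T)
      ≤ (34 * (T * Real.log T)) * (34 * (T * Real.log T)) :=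
        mul_le_mul h2 h3 (by linarith) (by linarith)
    _ = 1156 * (T : ℝ) ^ 2 * (Real.log T) ^ 2 := by ring
    _ ≤ 1156 * (T : ℝ) ^ 2 * ((T : ℝ) / 1000) ^ 2 := by
        apply mul_le_mul_of_nonneg_left _ (by positivity)
        exact pow_le_pow_left₀ (by linarith) hl2 2
    _ = (T : ℝ) ^ 4 * (1156 / 1000000) := by ring
    _ ≤ (T : ℝ) ^ 4 * (1 / 400) := by
        apply mul_le_mul_of_nonneg_left _ (by positivity)
        norm_num
    _ = (T : ℝ) ^ 4 / 400 := by ring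

lemma err2 {T : ℕ} (hT : TBig T) {L0 : ℕ} (hL : L0 = T ^ 40) {V : ℝ}
    (hV : V = 344064 * (T : ℝ) ^ 4 / (Real.log T) ^ 2 + 12) :
    (1 + Real.log L0) * |V| ≤ (T : ℝ) ^ 4 / 50 := by
  have hT1 : (1000 : ℝ) ≤ T := hT.h1
  have hl3 := hT.h3
  have hl2 := hT.h2
  have hlpos : 0 < Real.log T := by linarith
  have hVpos : 0 ≤ V := by rw [hV]; positivity
  rw [abs_of_nonneg hVpos]
  have e : Real.log L0 = 40 * Real.log T := by
    rw [hL]; push_cast; rw [Real.log_pow]; push_cast; ring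
  rw [e, hV]
  have h1 : 1 + 40 * Real.log T ≤ 41 * Real.log T := by linarith
  calc (1 + 40 * Real.log T) * (344064 * (T : ℝ) ^ 4 / (Real.log T) ^ 2 + 12)
      ≤ (41 * Real.log T) * (344064 * (T : ℝ) ^ 4 / (Real.log T) ^ 2 + 12) :=
        mul_le_mul_of_nonneg_right h1 (by positivity)
    _ = 14106624 * (T : ℝ) ^ 4 / Real.log T + 492 * Real.log T := by
        field_simp
        ring
    _ ≤ (T : ℝ) ^ 4 / 100 + (T : ℝ) ^ 4 / 100 := by
        apply add_le_add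
        · rw [div_le_div_iff₀ hlpos (by norm_num)]
          have : 0 ≤ (T : ℝ) ^ 4 := by positivity
          nlinarith
        · have h5 : (T : ℝ) * 1000 ≤ (T : ℝ) ^ 4 := by
            have : (1000 : ℝ) ≤ (T : ℝ) ^ 3 := by
              calc (1000 : ℝ) ≤ T := hT1
                _ = (T : ℝ) ^ 1 := (pow_one _).symm
                _ ≤ (T : ℝ) ^ 3 := pow_le_pow_right₀ (by linarith) (by norm_num)
            calc (T : ℝ) * 1000 ≤ T * T ^ 3 := mul_le_mul_of_nonneg_left this (by linarith)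
              _ = (T : ℝ) ^ 4 := by ring
          linarith
    _ = (T : ℝ) ^ 4 / 50 := by ring

lemma err3 {T m : ℕ} (hT : TBig T) (hm : 1 ≤ m) (hlm : Real.log m ≤ 2 * (T : ℝ) ^ 4) :
    (1 + Real.log m) * (5 / ((T ^ 8 : ℕ) : ℝ) * (1 + Real.log m)
      + ((T ^ 32 : ℕ) : ℝ) * (1 / ((2 * T ^ 40 + 1 : ℕ) : ℝ))) ≤ 50 := by
  have hT1 : (1000 : ℝ) ≤ T := hT.h1
  have hTpos : (0 : ℝ) < T := by linarith
  have hT4 : (1 : ℝ) ≤ (T : ℝ) ^ 4 := one_le_pow₀ (by linarith)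
  have hlm0 : 0 ≤ Real.log m := Real.log_nonneg (by exact_mod_cast hm)
  have b2 : 1 + Real.log m ≤ 3 * (T : ℝ) ^ 4 := by linarith
  have b3 : ((T ^ 32 : ℕ) : ℝ) * (1 / ((2 * T ^ 40 + 1 : ℕ) : ℝ)) ≤ 1 / (T : ℝ) ^ 8 := by
    push_cast
    rw [mul_one_div, div_le_div_iff₀ (by positivity) (by positivity)]
    have : (T : ℝ) ^ 32 * T ^ 8 = T ^ 40 := by ring
    rw [this]
    have : 0 ≤ (T : ℝ) ^ 40 := by positivity
    linarith
  have b4 : 5 / ((T ^ 8 : ℕ) : ℝ) * (1 + Real.log m) ≤ 15 / (T : ℝ) ^ 4 := by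
    push_cast
    calc 5 / (T : ℝ) ^ 8 * (1 + Real.log m) ≤ 5 / (T : ℝ) ^ 8 * (3 * (T : ℝ) ^ 4) :=
          mul_le_mul_of_nonneg_left b2 (by positivity)
      _ = 15 / (T : ℝ) ^ 4 := by field_simp; ring
  calc _ ≤ (3 * (T : ℝ) ^ 4) * (15 / (T : ℝ) ^ 4 + 1 / (T : ℝ) ^ 8) :=
        mul_le_mul b2 (add_le_add b4 b3) (by positivity) (by positivity)
    _ = 45 + 3 / (T : ℝ) ^ 4 := by field_simp; ring
    _ ≤ 50 := by
        have : 3 / (T : ℝ) ^ 4 ≤ 3 := div_le_self (by norm_num) hT4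
        linarith

lemma err4 {T m p : ℕ} (hT : TBig T) (hp : 1 ≤ p) (hm : 1 ≤ m) (hlm : Real.log m ≤ 2 * (T : ℝ) ^ 4)
    (hlp : Real.log p ≤ 2 * (T : ℝ) ^ 4) :
    (1 + Real.log m) * ((Nat.log 2 p + 1) *
      (((T ^ 8 : ℕ) : ℝ) * (2 * (Nat.log 2 p + 1)) * (5 * (2 + Real.log p) / ((T ^ 32 : ℕ) : ℝ)
        + 2 / ((T ^ 32 : ℕ) : ℝ)))
        + (2 / 3 : ℝ) ^ T * ((T ^ 32 : ℕ) : ℝ) ^ 3) ≤ 10 := by
  have hT1 : (1000 : ℝ) ≤ T := hT.h1
  have hTpos : (0 : ℝ) < T := by linarith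
  have hT4 : (1 : ℝ) ≤ (T : ℝ) ^ 4 := one_le_pow₀ (by linarith)
  have hlm0 : 0 ≤ Real.log m := Real.log_nonneg (by exact_mod_cast hm)
  have hlp0 : 0 ≤ Real.log p := Real.log_nonneg (by exact_mod_cast hp)
  have b2 : 1 + Real.log m ≤ 3 * (T : ℝ) ^ 4 := by linarith
  have hN := natlog_le hp hlp
  have hN0 : (0 : ℝ) ≤ Nat.log 2 p := Nat.cast_nonneg _
  have b1 : (Nat.log 2 p : ℝ) + 1 ≤ 4 * (T : ℝ) ^ 4 := by linarith
  have b5 : 5 * (2 + Real.log p) / ((T ^ 32 : ℕ) : ℝ) + 2 / ((T ^ 32 : ℕ) : ℝ) ≤ 22 / (T : ℝ) ^ 28 := by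
    push_cast
    rw [← add_div, div_le_div_iff₀ (by positivity) (by positivity)]
    have : (5 * (2 + Real.log p) + 2) * (T : ℝ) ^ 28 ≤ (22 * (T : ℝ) ^ 4) * (T : ℝ) ^ 28 := by
      apply mul_le_mul_of_nonneg_right _ (by positivity)
      linarith
    calc _ ≤ (22 * (T : ℝ) ^ 4) * (T : ℝ) ^ 28 := this
      _ = 22 * (T : ℝ) ^ 32 := by ring
  have b6 : ((T ^ 8 : ℕ) : ℝ) * (2 * (Nat.log 2 p + 1)) * (5 * (2 + Real.log p) / ((T ^ 32 : ℕ) : ℝ)
        + 2 / ((T ^ 32 : ℕ) : ℝ)) ≤ 176 / (T : ℝ) ^ 16 := by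
    calc _ ≤ ((T : ℝ) ^ 8 * (2 * (4 * (T : ℝ) ^ 4))) * (22 / (T : ℝ) ^ 28) := by
          apply mul_le_mul _ b5 (by positivity) (by positivity)
          push_cast
          apply mul_le_mul_of_nonneg_left _ (by positivity)
          linarith
      _ = 176 / (T : ℝ) ^ 16 := by field_simp; ring
  have b7 : ((Nat.log 2 p : ℝ) + 1) *
      (((T ^ 8 : ℕ) : ℝ) * (2 * (Nat.log 2 p + 1)) * (5 * (2 + Real.log p) / ((T ^ 32 : ℕ) : ℝ)
        + 2 / ((T ^ 32 : ℕ) : ℝ))) ≤ 704 / (T : ℝ) ^ 12 := by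
    calc _ ≤ (4 * (T : ℝ) ^ 4) * (176 / (T : ℝ) ^ 16) :=
          mul_le_mul b1 b6 (by positivity) (by positivity)
      _ = 704 / (T : ℝ) ^ 12 := by field_simp; ring
  have b8 : (2 / 3 : ℝ) ^ T ≤ Real.exp (-(T : ℝ) / 32) := by
    have h1 : (2 / 3 : ℝ) ≤ Real.exp (-1 / 32) := by
      have := Real.add_one_le_exp (-1 / 32 : ℝ)
      linarith
    calc (2 / 3 : ℝ) ^ T ≤ (Real.exp (-1 / 32)) ^ T := pow_le_pow_left₀ (by norm_num) h1 T
      _ = Real.exp (-(T : ℝ) / 32) := by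
          rw [← Real.exp_nat_mul]
          congr 1
          ring
  have b9 : (1 + Real.log m) * ((2 / 3 : ℝ) ^ T * ((T ^ 32 : ℕ) : ℝ) ^ 3) ≤ 1 := by
    calc _ ≤ (3 * (T : ℝ) ^ 4) * (Real.exp (-(T : ℝ) / 32) * ((T ^ 32 : ℕ) : ℝ) ^ 3) := by
          apply mul_le_mul b2 _ (by positivity) (by positivity)
          exact mul_le_mul_of_nonneg_right b8 (by positivity)
      _ = 3 * (T : ℝ) ^ 100 * Real.exp (-(T : ℝ) / 32) := by push_cast; ring
      _ ≤ 1 := pow_exp_small hT 100 (by norm_num) 3 (by linarith)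
  have b10 : (1 + Real.log m) * (((Nat.log 2 p : ℝ) + 1) *
      (((T ^ 8 : ℕ) : ℝ) * (2 * (Nat.log 2 p + 1)) * (5 * (2 + Real.log p) / ((T ^ 32 : ℕ) : ℝ)
        + 2 / ((T ^ 32 : ℕ) : ℝ)))) ≤ 3 := by
    calc _ ≤ (3 * (T : ℝ) ^ 4) * (704 / (T : ℝ) ^ 12) :=
          mul_le_mul b2 b7 (by positivity) (by positivity)
      _ = 2112 / (T : ℝ) ^ 8 := by field_simp; ring
      _ ≤ 3 := by
          rw [div_le_iff₀ (by positivity)]
          have : (T : ℝ) ^ 1 ≤ (T : ℝ) ^ 8 := pow_le_pow_right₀ (by linarith) (by norm_num)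
          rw [pow_one] at this
          linarith
  rw [mul_add]
  linarith

lemma pow_le_exp_aux {T : ℕ} (hT : TBig T) (n : ℕ) (hn : n ≤ 199) (c : ℝ) (hc : c ≤ T) :
    c * (T : ℝ) ^ n ≤ Real.exp ((T : ℝ) ^ 4) := by
  have h := pow_exp_small hT n hn c hc
  have hT1 : (1000 : ℝ) ≤ T := hT.h1
  have h1 : Real.exp ((T : ℝ) / 32) * Real.exp (-(T : ℝ) / 32) = 1 := by
    rw [← Real.exp_add]
    have : (T : ℝ) / 32 + -(T : ℝ) / 32 = 0 := by ring
    rw [this, Real.exp_zero]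
  have h2 : c * (T : ℝ) ^ n ≤ Real.exp ((T : ℝ) / 32) := by
    have h3 := Real.exp_pos (-(T : ℝ) / 32)
    by_contra hcon
    rw [not_le] at hcon
    have := mul_lt_mul_of_pos_right hcon h3
    linarith
  refine h2.trans (Real.exp_le_exp.mpr ?_)
  have : (T : ℝ) ^ 1 ≤ (T : ℝ) ^ 4 := pow_le_pow_right₀ (by linarith) (by norm_num)
  rw [pow_one] at this
  linarith

/-- the double sum is at least of order `T ^ 4`. -/
theorem AA_lower {p m T : ℕ} (hpr : p.Prime) (hpm : p = 2 * m + 1) (hT : TBig T)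
    (hlog1 : (T : ℝ) ^ 4 ≤ Real.log p) (hlog2 : Real.log p ≤ 2 * (T : ℝ) ^ 4) :
    (T : ℝ) ^ 4 / 8 ≤ AA p m := by
  haveI : Fact p.Prime := ⟨hpr⟩
  have hT1 : (1000 : ℝ) ≤ T := hT.h1
  have hTn : 1000 ≤ T := by exact_mod_cast hT1
  have hp1 : 1 ≤ p := hpr.one_lt.le
  have hpR : (0 : ℝ) < p := by exact_mod_cast hpr.pos
  have hm : 1 ≤ m := by have := hpr.two_le; omega
  have hmp : m ≤ p := by omega
  have hlmp : Real.log m ≤ Real.log p := by
    apply Real.log_le_log (by exact_mod_cast hm)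
    exact_mod_cast hmp
  have hlm : Real.log m ≤ 2 * (T : ℝ) ^ 4 := by linarith
  have hexp : Real.exp ((T : ℝ) ^ 4) ≤ p := by
    rw [← Real.exp_log hpR]
    exact Real.exp_le_exp.mpr hlog1
  have hQp : T ^ 8 < p := by
    have h := pow_le_exp_aux hT 8 (by norm_num) 2 (by linarith)
    have h2 : (T : ℝ) ^ 8 < p := by
      have : 0 < (T : ℝ) ^ 8 := by positivity
      linarith
    exact_mod_cast h2
  have hL0 : T ^ 40 ≤ m := by
    have h := pow_le_exp_aux hT 40 (by norm_num) 3 (by linarith)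
    have h2 : 3 * (T : ℝ) ^ 40 ≤ p := by linarith
    have h3 : 3 * T ^ 40 ≤ p := by exact_mod_cast h2
    have h4 : 1 ≤ T ^ 40 := Nat.one_le_pow _ _ (by omega)
    omega
  have hTT : T ^ 32 * T ^ 32 ≤ T ^ (32 * T) := by
    rw [← pow_add]
    exact Nat.pow_le_pow_right (by omega) (by omega)
  have hT32 : 2 ≤ T ^ 32 := by
    calc 2 ≤ T ^ 1 := by rw [pow_one]; omega
      _ ≤ T ^ 32 := Nat.pow_le_pow_right (by omega) (by norm_num)
  set V : ℝ := 344064 * (T : ℝ) ^ 4 / (Real.log T) ^ 2 + 12 with hV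
  have hmain := main_lower (Q0 := T ^ 8) (H := T ^ 32) (y := T ^ 32) (u := T) (R0 := T ^ (32 * T))
    (L0 := T ^ 40) (V := V) hpr hpm hm (Nat.one_le_pow _ _ (by omega)) hQp hT32 hT32
    ((Nat.mul_le_mul_right _ hT32).trans hTT) (by rw [← pow_mul]) hL0 (by
      intro l hl
      have hl' := Finset.mem_range.mp hl
      have hc := col_bound (R0 := T ^ (32 * T)) (a := 2 * l + 1) hpm (by omega : 32 ≤ T) hlog1
        (by omega) (by omega)
      exact hc.trans (V_bound hT hp1 hm hmp hlog2))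
  have e1 := err1 hT (R0 := T ^ (32 * T)) rfl
  have e2 := err2 hT (L0 := T ^ 40) rfl hV
  have e3 := err3 hT hm hlm
  have e4 := err4 hT hp1 hm hlm hlog2
  have hT4 : (1000000000000 : ℝ) ≤ (T : ℝ) ^ 4 := by
    calc (1000000000000 : ℝ) = 1000 ^ 4 := by norm_num
      _ ≤ (T : ℝ) ^ 4 := pow_le_pow_left₀ (by norm_num) hT1 4
  refine le_trans ?_ hmain
  linarith

/-- `S p / p` tends to infinity along the odd primes. -/
theorem S_large (n : ℕ) : ∃ K : ℕ, ∀ p : ℕ, K ≤ p → p.Prime → Odd p → (n : ℤ) * p < S p := by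
  obtain ⟨T0, hT0⟩ := (eventually_TBig.and (eventually_ge_atTop (10 * n + 10))).exists_forall_of_atTop
  refine ⟨⌈Real.exp ((T0 : ℝ) ^ 4 + 1)⌉₊, ?_⟩
  intro p hp hpr hodd
  obtain ⟨m, hpm⟩ := hodd
  have hpR : (0 : ℝ) < p := by exact_mod_cast hpr.pos
  have hexp : Real.exp ((T0 : ℝ) ^ 4 + 1) ≤ p := by
    have := Nat.le_ceil (Real.exp ((T0 : ℝ) ^ 4 + 1))
    have h2 : ((⌈Real.exp ((T0 : ℝ) ^ 4 + 1)⌉₊ : ℕ) : ℝ) ≤ p := by exact_mod_cast hp
    linarith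
  have hlog : (T0 : ℝ) ^ 4 + 1 ≤ Real.log p := by
    rw [← Real.exp_le_exp, Real.exp_log hpR]
    exact hexp
  -- choice of T
  set N : ℕ := ⌊Real.log p⌋₊ with hN
  have hlp0 : 0 ≤ Real.log p := by
    have : (0 : ℝ) ≤ (T0 : ℝ) ^ 4 := by positivity
    linarith
  have hN1 : (N : ℝ) ≤ Real.log p := Nat.floor_le hlp0
  have hN2 : Real.log p < N + 1 := Nat.lt_floor_add_one _
  set T : ℕ := Nat.sqrt (Nat.sqrt N) with hTdef
  have hT04 : T0 ^ 4 ≤ N := by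
    rw [hN]
    apply Nat.le_floor
    push_cast
    linarith
  have hT0T : T0 ≤ T := by
    rw [hTdef, Nat.le_sqrt, Nat.le_sqrt]
    calc T0 * T0 * (T0 * T0) = T0 ^ 4 := by ring
      _ ≤ N := hT04
  obtain ⟨hTB, hTn⟩ := hT0 T hT0T
  have hTpow : T ^ 4 ≤ N := by
    have h1 : T * T ≤ Nat.sqrt N := Nat.sqrt_le _
    have h2 : Nat.sqrt N * Nat.sqrt N ≤ N := Nat.sqrt_le _
    calc T ^ 4 = (T * T) * (T * T) := by ring
      _ ≤ Nat.sqrt N * Nat.sqrt N := Nat.mul_le_mul h1 h1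
      _ ≤ N := h2
  have hTpow2 : N + 1 ≤ (T + 1) ^ 4 := by
    have h1 : Nat.sqrt N < (T + 1) * (T + 1) := Nat.lt_succ_sqrt _
    have h2 : N < (Nat.sqrt N + 1) * (Nat.sqrt N + 1) := Nat.lt_succ_sqrt _
    calc N + 1 ≤ (Nat.sqrt N + 1) * (Nat.sqrt N + 1) := h2
      _ ≤ ((T + 1) * (T + 1)) * ((T + 1) * (T + 1)) := Nat.mul_le_mul h1 h1
      _ = (T + 1) ^ 4 := by ring
  have hT1 : (1000 : ℝ) ≤ T := hTB.h1
  have hlog1 : (T : ℝ) ^ 4 ≤ Real.log p := by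
    refine le_trans ?_ hN1
    exact_mod_cast hTpow
  have hlog2 : Real.log p ≤ 2 * (T : ℝ) ^ 4 := by
    have h1 : (N : ℝ) + 1 ≤ ((T : ℝ) + 1) ^ 4 := by exact_mod_cast hTpow2
    have h2 : ((T : ℝ) + 1) ^ 4 ≤ 2 * (T : ℝ) ^ 4 := by
      have h3 : (T : ℝ) + 1 ≤ 1.1 * T := by linarith
      calc ((T : ℝ) + 1) ^ 4 ≤ (1.1 * T) ^ 4 := pow_le_pow_left₀ (by positivity) h3 4
        _ = 1.4641 * (T : ℝ) ^ 4 := by ring
        _ ≤ 2 * (T : ℝ) ^ 4 := by
            apply mul_le_mul_of_nonneg_right (by norm_num) (by positivity)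
    linarith
  have hAA := AA_lower hpr hpm hTB hlog1 hlog2
  have hS := S_eq_AA hpr hpm
  have hreal : ((n : ℝ)) * p < (S p : ℝ) := by
    rw [hS]
    have hpi : 0 < π ^ 2 := by positivity
    have hpi2 : π ^ 2 < 10 := by
      have := Real.pi_lt_d2
      have h0 := Real.pi_pos
      nlinarith
    have h1 : (8 * p / π ^ 2) * ((T : ℝ) ^ 4 / 8) ≤ (8 * p / π ^ 2) * AA p m :=
      mul_le_mul_of_nonneg_left hAA (by positivity)
    refine lt_of_lt_of_le ?_ h1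
    have e : (8 * (p : ℝ) / π ^ 2) * ((T : ℝ) ^ 4 / 8) = p * ((T : ℝ) ^ 4 / π ^ 2) := by
      field_simp
    rw [e, mul_comm (n : ℝ)]
    apply mul_lt_mul_of_pos_left _ hpR
    rw [lt_div_iff₀ hpi]
    have hTnR : 10 * (n : ℝ) + 10 ≤ T := by exact_mod_cast hTn
    have h5 : (T : ℝ) ^ 1 ≤ (T : ℝ) ^ 4 := pow_le_pow_right₀ (by linarith) (by norm_num)
    rw [pow_one] at h5
    have hn0 : (0 : ℝ) ≤ n := Nat.cast_nonneg n
    nlinarith
  exact_mod_cast hreal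

end Pool.Agent.ThetaSum
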