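import Pool.Agent.Lib.MP_d4c1d0_nt.Trig

set_option autoImplicit false

open Finset Real

namespace Pool.Agent.ThetaSum

lemma ct_add_period {p : ℕ} (hp : 0 < p) (m k : ℤ) : ct p (m + 2 * p * k) = ct p m := by
  have hp' : (p : ℝ) ≠ 0 := by positivity
  unfold ct
  have e : π * ((m + 2 * p * k : ℤ) : ℝ) / (2 * p) = π * m / (2 * p) + k * π := by
    push_cast; field_simp
  rw [e, Real.cot_eq_cos_div_sin, Real.cot_eq_cos_div_sin, Real.cos_add_int_mul_pi,
    Real.sin_add_int_mul_pi]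
  have hne : ((-1 : ℝ) ^ k) ≠ 0 := by
    apply zpow_ne_zero; norm_num
  rw [mul_div_mul_left _ _ hne]

lemma ct_neg (p : ℕ) (m : ℤ) : ct p (-m) = - ct p m := by
  unfold ct
  have e : π * ((-m : ℤ) : ℝ) / (2 * p) = -(π * m / (2 * p)) := by
    push_cast; ring
  rw [e, Real.cot_eq_cos_div_sin, Real.cot_eq_cos_div_sin, Real.cos_neg, Real.sin_neg, div_neg]

lemma ct_self {p : ℕ} (hp : 0 < p) : ct p p = 0 := by
  have hp' : (p : ℝ) ≠ 0 := by positivity
  unfold ct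
  have e : π * ((p : ℤ) : ℝ) / (2 * p) = π / 2 := by
    push_cast; field_simp
  rw [e, Real.cot_eq_cos_div_sin, Real.cos_pi_div_two, zero_div]

lemma ct_zero (p : ℕ) : ct p 0 = 0 := by
  unfold ct
  rw [Real.cot_eq_cos_div_sin]; simp

lemma sum_Icc_pairs (g : ℕ → ℝ) (m : ℕ) :
    ∑ j ∈ Icc 1 (2 * m), g j = ∑ l ∈ range m, (g (2 * l + 1) + g (2 * l + 2)) := by
  induction m with
  | zero => simp
  | succ m ih =>
    rw [Finset.sum_range_succ, ← ih]
    have : 2 * (m + 1) = (2 * m + 1) + 1 := by ring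
    rw [this, Finset.sum_Icc_succ_top (by omega), Finset.sum_Icc_succ_top (by omega)]
    ring

lemma sum_range_eq_Icc (g : ℕ → ℝ) (h0 : g 0 = 0) (p : ℕ) (hp : 0 < p) :
    ∑ h ∈ range p, g h = ∑ h ∈ Icc 1 (p - 1), g h := by
  obtain ⟨q, rfl⟩ : ∃ q, p = q + 1 := ⟨p - 1, by omega⟩
  rw [Finset.sum_range_succ', h0, add_zero]
  simp only [Nat.add_sub_cancel]
  induction q with
  | zero => simp
  | succ q ih =>
    rw [Finset.sum_range_succ, Finset.sum_Icc_succ_top (by omega), ih (by omega)]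

/-- the sum of the problem -/
def S (p : ℕ) : ℤ :=
  ∑ h ∈ Finset.Icc 1 (p - 1), ∑ j ∈ Finset.Icc 1 (p - 1), (-1 : ℤ) ^ (j + 1 + h * j / p)

lemma S_eq_one {p m : ℕ} (hpr : p.Prime) (hpm : p = 2 * m + 1) :
    (S p : ℝ) = (1 / p) * ∑ k ∈ range p, ct p (2 * k + 1) *
      ∑ l ∈ range m, ct p ((2 * k + 1) * (2 * l + 1)) := by
  have hp0 : 0 < p := hpr.pos
  have hp1 : 1 < p := hpr.one_lt
  have hp' : (p : ℝ) ≠ 0 := by positivity
  have hterm : ∀ h ∈ Icc 1 (p - 1), ∀ j ∈ Icc 1 (p - 1),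
      ((-1 : ℝ) ^ (h * j / p)) = (1 / p) * ∑ k ∈ range p, ct p (2 * k + 1) *
        Real.sin (π * (2 * k + 1) * (h * j : ℕ) / p) := by
    intro h hh j hj
    rw [Finset.mem_Icc] at hh hj
    have hnd : ¬ p ∣ h * j := by
      intro hd
      rcases (hpr.dvd_mul).mp hd with h1 | h1
      · have := Nat.le_of_dvd (by omega) h1; omega
      · have := Nat.le_of_dvd (by omega) h1; omega
    rw [square_wave hp1, if_neg hnd]
    field_simp
  have hinner : ∀ j : ℕ, ∀ k : ℕ, ∑ h ∈ Icc 1 (p - 1), Real.sin (π * (2 * k + 1) * (h * j : ℕ) / p)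
      = if Odd j then ct p ((2 * k + 1) * j) else 0 := by
    intro j k
    have hconv : ∑ h ∈ Icc 1 (p - 1), Real.sin (π * (2 * k + 1) * (h * j : ℕ) / p)
        = ∑ h ∈ range p, Real.sin (π * (((2 * k + 1) * j : ℤ) : ℝ) * h / p) := by
      rw [← sum_range_eq_Icc _ _ p hp0]
      · refine Finset.sum_congr rfl (fun h _ => ?_)
        congr 1
        push_cast
        ring
      · simp
    rw [hconv]
    split_ifs with hj
    · have hodd : Odd ((2 * (k : ℤ) + 1) * j) := by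
        have hk1 : Odd (2 * (k : ℤ) + 1) := ⟨(k : ℤ), rfl⟩
        have hj1 : Odd (j : ℤ) := by exact_mod_cast hj
        exact hk1.mul hj1
      rw [sum_sin_odd hp0 hodd]
    · have heven : Even ((2 * (k : ℤ) + 1) * j) := by
        apply Even.mul_left
        have := Nat.not_odd_iff_even.mp hj
        exact_mod_cast this
      rw [sum_sin_even heven]
  unfold S
  push_cast
  have e1 : ∑ h ∈ Icc 1 (p - 1), ∑ j ∈ Icc 1 (p - 1), ((-1 : ℝ) ^ (j + 1 + h * j / p))
      = ∑ h ∈ Icc 1 (p - 1), ∑ j ∈ Icc 1 (p - 1), ((-1 : ℝ) ^ (j + 1)) *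
        ((1 / p) * ∑ k ∈ range p, ct p (2 * k + 1) *
        Real.sin (π * (2 * k + 1) * (h * j : ℕ) / p)) := by
    refine Finset.sum_congr rfl (fun h hh => Finset.sum_congr rfl (fun j hj => ?_))
    rw [pow_add, hterm h hh j hj]
  rw [e1, Finset.sum_comm]
  have e2 : ∀ j ∈ Icc 1 (p - 1), ∑ h ∈ Icc 1 (p - 1), ((-1 : ℝ) ^ (j + 1)) *
        ((1 / p) * ∑ k ∈ range p, ct p (2 * k + 1) *
        Real.sin (π * (2 * k + 1) * (h * j : ℕ) / p))
      = if Odd j then (1 / p) * ∑ k ∈ range p, ct p (2 * k + 1) * ct p ((2 * k + 1) * j) else 0 := by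
    intro j _
    rw [← Finset.mul_sum, ← Finset.mul_sum, Finset.sum_comm]
    have e3 : ∑ k ∈ range p, ∑ h ∈ Icc 1 (p - 1), ct p (2 * k + 1) *
        Real.sin (π * (2 * k + 1) * (h * j : ℕ) / p)
        = ∑ k ∈ range p, ct p (2 * k + 1) * (if Odd j then ct p ((2 * k + 1) * j) else 0) := by
      refine Finset.sum_congr rfl (fun k _ => ?_)
      rw [← Finset.mul_sum, hinner]
    rw [e3]
    split_ifs with hj
    · have : (-1 : ℝ) ^ (j + 1) = 1 := (Odd.add_one hj).neg_one_pow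
      rw [this, one_mul]
    · simp
  rw [Finset.sum_congr rfl e2]
  have hp2 : p - 1 = 2 * m := by omega
  rw [hp2, sum_Icc_pairs]
  have e4 : ∀ l ∈ range m, ((if Odd (2 * l + 1) then (1 / (p : ℝ)) * ∑ k ∈ range p, ct p (2 * k + 1) *
      ct p ((2 * k + 1) * ((2 * l + 1 : ℕ) : ℤ)) else 0) +
      (if Odd (2 * l + 2) then (1 / (p : ℝ)) * ∑ k ∈ range p, ct p (2 * k + 1) *
      ct p ((2 * k + 1) * ((2 * l + 2 : ℕ) : ℤ)) else 0))
      = (1 / (p : ℝ)) * ∑ k ∈ range p, ct p (2 * k + 1) * ct p ((2 * k + 1) * (2 * l + 1)) := by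
    intro l _
    have h1 : Odd (2 * l + 1) := ⟨l, rfl⟩
    have h2 : ¬ Odd (2 * l + 2) := by
      rw [Nat.not_odd_iff_even]; exact ⟨l + 1, by ring⟩
    rw [if_pos h1, if_neg h2, add_zero]
    push_cast
    rfl
  rw [Finset.sum_congr rfl e4, ← Finset.mul_sum, Finset.sum_comm]
  congr 1
  refine Finset.sum_congr rfl (fun k _ => ?_)
  rw [Finset.mul_sum]

lemma S_eq_two {p m : ℕ} (hpr : p.Prime) (hpm : p = 2 * m + 1) :
    (S p : ℝ) = (2 / p) * ∑ k ∈ range m, ct p (2 * k + 1) *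
      ∑ l ∈ range m, ct p ((2 * k + 1) * (2 * l + 1)) := by
  have hp0 : 0 < p := hpr.pos
  have hp' : (p : ℝ) ≠ 0 := by positivity
  rw [S_eq_one hpr hpm]
  set F : ℕ → ℝ := fun k => ct p (2 * k + 1) * ∑ l ∈ range m, ct p ((2 * k + 1) * (2 * l + 1)) with hF
  have hmid : F m = 0 := by
    have h1 : ct p (2 * m + 1) = 0 := by
      have : (2 * (m : ℤ) + 1) = (p : ℤ) := by rw [hpm]; push_cast; ring
      rw [this, ct_self hp0]
    simp only [hF, h1, zero_mul]
  have hrefl : ∀ k ∈ range m, F (m + 1 + (m - 1 - k)) = F k := by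
    intro k hk
    rw [Finset.mem_range] at hk
    have e : ((m + 1 + (m - 1 - k) : ℕ) : ℤ) = 2 * m - k := by omega
    have e1 : (2 * ((m + 1 + (m - 1 - k) : ℕ) : ℤ) + 1) = -(2 * k + 1) + 2 * p * 1 := by
      rw [e, hpm]; push_cast; ring
    simp only [hF]
    rw [e1, ct_add_period hp0, ct_neg]
    have e5 : ∀ l ∈ range m, ct p ((-(2 * (k : ℤ) + 1) + 2 * p * 1) * (2 * l + 1))
        = - ct p ((2 * k + 1) * (2 * l + 1)) := by
      intro l _
      have : (-(2 * (k : ℤ) + 1) + 2 * p * 1) * (2 * l + 1)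
          = -((2 * k + 1) * (2 * l + 1)) + 2 * p * (2 * l + 1) := by ring
      rw [this, ct_add_period hp0, ct_neg]
    rw [Finset.sum_congr rfl e5, Finset.sum_neg_distrib]
    ring
  have hsplit : ∑ k ∈ range p, F k = 2 * ∑ k ∈ range m, F k := by
    rw [hpm]
    have : 2 * m + 1 = (m + 1) + m := by ring
    rw [this, Finset.sum_range_add, Finset.sum_range_succ, hmid, add_zero]
    rw [← Finset.sum_range_reflect (fun k => F (m + 1 + k)), Finset.sum_congr rfl hrefl]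
    ring
  have : ∑ k ∈ range p, ct p (2 * k + 1) * ∑ l ∈ range m, ct p ((2 * k + 1) * (2 * l + 1))
      = ∑ k ∈ range p, F k := rfl
  rw [this, hsplit]
  ring

end Pool.Agent.ThetaSum
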