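import Pool.Agent.Lib.MP_d4c1d0_nt.Change

set_option autoImplicit false
set_option linter.style.haveILetI false

open Finset Real

namespace Pool.Agent.ThetaSum

/-- the square wave of period one -/
noncomputable def sq (x : ℝ) : ℝ := if Int.fract x < 1 / 2 then 1 else -1

lemma abs_sq (x : ℝ) : |sq x| = 1 := by unfold sq; split_ifs <;> simp

lemma exists_inv {p r : ℕ} (hcop : Nat.Coprime (2 * p) r) (hr : 0 < r) :
    ∃ u : ℕ, r ∣ 2 * p * u + 1 := by
  haveI : NeZero r := ⟨hr.ne'⟩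
  set U : (ZMod r)ˣ := ZMod.unitOfCoprime (2 * p) hcop with hU
  refine ⟨(-((U⁻¹ : (ZMod r)ˣ) : ZMod r)).val, ?_⟩
  rw [← ZMod.natCast_eq_zero_iff]
  push_cast
  rw [ZMod.natCast_zmod_val]
  have h1 : ((2 * p : ℕ) : ZMod r) * ((U⁻¹ : (ZMod r)ˣ) : ZMod r) = 1 := by
    rw [← ZMod.coe_unitOfCoprime (2 * p) hcop]
    exact Units.mul_inv U
  have h2 : (2 * (p : ZMod r)) * ((U⁻¹ : (ZMod r)ˣ) : ZMod r) = 1 := by
    rw [← h1]; push_cast; ring
  rw [mul_neg, h2]
  ring

/-- Reciprocity: for fixed odd `r < p`, the sign `ε(r, 2l+1)` is a rotation sequence. -/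
theorem eps_rotation {p r : ℕ} (hpr : p.Prime) (hpo : Odd p) (hro : Odd r) (hrp : r < p) :
    ∃ b c : ℕ, b < r ∧ c < r ∧ r ∣ p * b + 1 ∧ r ∣ 2 * p * c + 1 ∧
      ∀ l : ℕ, 2 * l + 1 < p → eps p r (2 * l + 1) = sq (((c : ℝ) + l * b) / r) := by
  have hp : 0 < p := hpr.pos
  have hr : 0 < r := hro.pos
  haveI : NeZero p := ⟨hp.ne'⟩
  haveI : Fact p.Prime := ⟨hpr⟩
  have hcop0 : Nat.Coprime p r := by
    rw [Nat.Prime.coprime_iff_not_dvd hpr]
    intro h
    have := Nat.le_of_dvd hr h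
    omega
  have hcop : Nat.Coprime (2 * p) r := by
    apply Nat.Coprime.mul_left _ hcop0
    exact (Nat.coprime_two_left.mpr hro)
  obtain ⟨u, hu⟩ := exists_inv hcop hr
  have hbmod : (r : ℤ) ∣ (p : ℤ) * ((2 * u % r : ℕ) : ℤ) + 1 := by
    have h1 : (r : ℤ) ∣ 2 * (p : ℤ) * u + 1 := by exact_mod_cast hu
    have h2 : ((2 * u % r : ℕ) : ℤ) = 2 * u - r * (2 * u / r : ℤ) := by
      have := Int.emod_def (2 * (u : ℤ)) r
      push_cast
      exact this
    rw [h2]
    have : (p : ℤ) * (2 * u - r * (2 * u / r : ℤ)) + 1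
        = (2 * (p : ℤ) * u + 1) - r * (p * (2 * u / r : ℤ)) := by ring
    rw [this]
    exact dvd_sub h1 (dvd_mul_right _ _)
  have hcmod : (r : ℤ) ∣ 2 * (p : ℤ) * ((u % r : ℕ) : ℤ) + 1 := by
    have h1 : (r : ℤ) ∣ 2 * (p : ℤ) * u + 1 := by exact_mod_cast hu
    have h2 : ((u % r : ℕ) : ℤ) = u - r * (u / r : ℤ) := by
      have := Int.emod_def (u : ℤ) r
      push_cast
      exact this
    rw [h2]
    have : 2 * (p : ℤ) * (u - r * (u / r : ℤ)) + 1
        = (2 * (p : ℤ) * u + 1) - r * (2 * p * (u / r : ℤ)) := by ring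
    rw [this]
    exact dvd_sub h1 (dvd_mul_right _ _)
  refine ⟨2 * u % r, u % r, Nat.mod_lt _ hr, Nat.mod_lt _ hr, by exact_mod_cast hbmod,
    by exact_mod_cast hcmod, ?_⟩
  intro l hl
  set b : ℕ := 2 * u % r with hb
  set c : ℕ := u % r with hc
  -- x
  set x : ℕ := (c + l * b) % r with hx
  have hxr : x < r := Nat.mod_lt _ hr
  have hfract : Int.fract (((c : ℝ) + l * b) / r) = (x : ℝ) / r := by
    have : ((c : ℝ) + l * b) = ((c + l * b : ℕ) : ℝ) := by push_cast; ring
    rw [this, Int.fract_div_natCast_eq_div_natCast_mod]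
  -- z
  set z : ℕ := (((2 * l + 1 : ℕ) : ZMod p) * (r : ZMod p)⁻¹).val with hz
  have hzlt : z < p := ZMod.val_lt _
  have hr0 : (r : ZMod p) ≠ 0 := by
    intro h
    rw [ZMod.natCast_eq_zero_iff] at h
    have := Nat.le_of_dvd hr h
    omega
  have hzeq : ((r * z : ℕ) : ZMod p) = ((2 * l + 1 : ℕ) : ZMod p) := by
    rw [hz]
    push_cast
    rw [ZMod.natCast_zmod_val]
    field_simp
  have hdvd : (p : ℤ) ∣ (r : ℤ) * z - (2 * l + 1) := by
    have h1 := (ZMod.intCast_eq_intCast_iff_dvd_sub (2 * l + 1 : ℤ) ((r : ℤ) * z) p).mp (by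
      push_cast at hzeq ⊢
      exact hzeq.symm)
    exact h1
  obtain ⟨t, ht⟩ := hdvd
  have hpZ : (0 : ℤ) < p := by exact_mod_cast hp
  have hrZ : (0 : ℤ) < r := by exact_mod_cast hr
  have ht0 : 0 ≤ t := by
    by_contra hneg
    have h1 : t ≤ -1 := by omega
    have h2 : (p : ℤ) * t ≤ p * (-1) := by nlinarith
    have h3 : (0 : ℤ) ≤ (r : ℤ) * z := by positivity
    have h4 : (2 * (l : ℤ) + 1) < p := by exact_mod_cast hl
    nlinarith
  have htr : t < r := by
    by_contra hge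
    have h1 : (r : ℤ) ≤ t := by omega
    have h2 : (p : ℤ) * r ≤ p * t := by nlinarith
    have h3 : (z : ℤ) < p := by exact_mod_cast hzlt
    have h4 : (r : ℤ) * z < r * p := by nlinarith
    have h5 : (0 : ℤ) < 2 * l + 1 := by positivity
    nlinarith
  -- congruence t ≡ 2x mod r
  have hcong : (r : ℤ) ∣ t - 2 * x := by
    have hux : (r : ℤ) ∣ 2 * (p : ℤ) * x + (2 * l + 1) := by
      have h1 : (r : ℤ) ∣ 2 * (p : ℤ) * u + 1 := by exact_mod_cast hu
      have h2 : (x : ℤ) ≡ c + l * b [ZMOD r] := by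
        rw [hx]; push_cast; exact Int.mod_modEq _ _
      have h3 : (c : ℤ) ≡ u [ZMOD r] := by
        rw [hc]; push_cast; exact Int.mod_modEq _ _
      have h4 : (b : ℤ) ≡ 2 * u [ZMOD r] := by
        rw [hb]; push_cast; exact Int.mod_modEq _ _
      have h5 : (x : ℤ) ≡ u + l * (2 * u) [ZMOD r] :=
        h2.trans (h3.add (h4.mul_left _))
      have h6 : 2 * (p : ℤ) * x + (2 * l + 1) ≡ 2 * (p : ℤ) * (u + l * (2 * u)) + (2 * l + 1) [ZMOD r] :=
        (h5.mul_left _).add_right _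
      have h7 : 2 * (p : ℤ) * (u + l * (2 * u)) + (2 * l + 1) = (2 * p * u + 1) * (2 * l + 1) := by ring
      rw [h7] at h6
      exact (Int.ModEq.dvd_iff h6).mpr (h1.mul_right _)
    have h8 : (r : ℤ) ∣ (p : ℤ) * (t - 2 * x) := by
      have : (p : ℤ) * (t - 2 * x) = r * z - (2 * (p : ℤ) * x + (2 * l + 1)) := by
        have := ht; linarith
      rw [this]
      exact dvd_sub (dvd_mul_right _ _) hux
    have hcopZ : IsCoprime (r : ℤ) (p : ℤ) := by
      rw [Nat.isCoprime_iff_coprime]; exact hcop0.symm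
    exact hcopZ.dvd_of_dvd_mul_left h8
  obtain ⟨w, hw⟩ := hcong
  have hxZ : (x : ℤ) < r := by exact_mod_cast hxr
  have hx0 : (0 : ℤ) ≤ x := by positivity
  -- parity of z
  have hpar : Odd z ↔ Even t := by
    have hpoZ : Odd (p : ℤ) := by exact_mod_cast hpo
    have hroZ : Odd (r : ℤ) := by exact_mod_cast hro
    have hzz : Odd z ↔ Odd (z : ℤ) := by
      constructor <;> intro h <;> exact_mod_cast h
    rw [hzz]
    have e1 : (r : ℤ) * z = p * t + (2 * l + 1) := by linarith
    constructor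
    · intro h
      have h1 : Odd ((r : ℤ) * z) := hroZ.mul h
      rw [e1] at h1
      by_contra hne
      rw [Int.not_even_iff_odd] at hne
      have h2 : Odd ((p : ℤ) * t) := hpoZ.mul hne
      have h3 : Odd (2 * (l : ℤ) + 1) := ⟨_, rfl⟩
      exact (Int.not_even_iff_odd.mpr h1) (h2.add_odd h3)
    · intro h
      by_contra hne
      rw [Int.not_odd_iff_even] at hne
      have h1 : Even ((r : ℤ) * z) := hne.mul_left _
      rw [e1] at h1
      have h2 : Even ((p : ℤ) * t) := h.mul_left _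
      have h3 : Odd (2 * (l : ℤ) + 1) := ⟨_, rfl⟩
      exact (Int.not_even_iff_odd.mpr (h2.add_odd h3)) h1
  unfold eps sg sq
  rw [hfract, ← hz]
  have hrR : (0 : ℝ) < r := by exact_mod_cast hr
  by_cases hcase : 2 * x < r
  · have hlt : (x : ℝ) / r < 1 / 2 := by
      rw [div_lt_div_iff₀ hrR two_pos]
      have : ((2 * x : ℕ) : ℝ) < r := by exact_mod_cast hcase
      push_cast at this
      linarith
    rw [if_pos hlt, if_pos]
    rw [hpar]
    have hcZ : 2 * (x : ℤ) < r := by exact_mod_cast hcase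
    have hw0 : w = 0 := by
      have h1 : -(r : ℤ) < r * w := by linarith
      have h2 : (r : ℤ) * w < r := by linarith
      have h3 : -1 < w := by
        apply lt_of_mul_lt_mul_left _ hrZ.le
        linarith
      have h4 : w < 1 := by
        apply lt_of_mul_lt_mul_left _ hrZ.le
        linarith
      omega
    rw [hw0, mul_zero] at hw
    exact ⟨x, by linarith⟩
  · have hne : 2 * x ≠ r := by
      intro h
      rw [← h] at hro
      exact (Nat.not_even_iff_odd.mpr hro) ⟨x, by ring⟩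
    have hgt : r < 2 * x := by omega
    have hnlt : ¬ ((x : ℝ) / r < 1 / 2) := by
      rw [not_lt, div_le_div_iff₀ two_pos hrR]
      have : (r : ℝ) < ((2 * x : ℕ) : ℝ) := by exact_mod_cast hgt
      push_cast at this
      linarith
    rw [if_neg hnlt, if_neg]
    rw [hpar, Int.not_even_iff_odd]
    have hcZ : (r : ℤ) < 2 * x := by exact_mod_cast hgt
    have hw0 : w = -1 := by
      have h1 : (r : ℤ) * w < 0 := by linarith
      have h2 : -(2 * (r : ℤ)) < r * w := by linarith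
      have h3 : -2 < w := by
        apply lt_of_mul_lt_mul_left _ hrZ.le
        linarith
      have h4 : w < 0 := by
        apply lt_of_mul_lt_mul_left _ hrZ.le
        linarith
      omega
    rw [hw0] at hw
    have hroZ : Odd (r : ℤ) := by exact_mod_cast hro
    have : t = 2 * x - r := by linarith
    rw [this]
    exact (even_two_mul _).sub_odd hroZ

end Pool.Agent.ThetaSum
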