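import Mathlib

set_option autoImplicit false
set_option linter.style.haveILetI false

open Finset

namespace Pool.Agent.ThetaSum

/-- From equality of sums of reciprocals of primes (cleared of denominators) to equality of
multiplicities. -/
lemma counts_eq {k : ℕ} {Q : Finset ℕ} (hQ : ∀ q ∈ Q, q.Prime ∧ k < q) (n m : ℕ → ℕ)
    (hn : ∀ q ∈ Q, n q ≤ k) (hm : ∀ q ∈ Q, m q ≤ k)
    (h : ∑ q ∈ Q, (n q : ℚ) / q = ∑ q ∈ Q, (m q : ℚ) / q) :
    ∀ q ∈ Q, n q = m q := by
  intro q0 hq0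
  have hq0' := hQ q0 hq0
  have hne : ∀ q ∈ Q, (q : ℚ) ≠ 0 := fun q hq => by
    exact_mod_cast (hQ q hq).1.ne_zero
  -- multiply by the product
  have key : ∀ (f : ℕ → ℕ), (∏ q ∈ Q, (q : ℚ)) * ∑ q ∈ Q, (f q : ℚ) / q
      = ((∑ q ∈ Q, f q * ∏ q' ∈ Q.erase q, q' : ℕ) : ℚ) := by
    intro f
    push_cast
    rw [Finset.mul_sum]
    refine Finset.sum_congr rfl (fun q hq => ?_)
    rw [← Finset.mul_prod_erase Q (fun q => (q : ℚ)) hq]
    have := hne q hq
    field_simp
  have h1 : (∑ q ∈ Q, n q * ∏ q' ∈ Q.erase q, q' : ℕ) = (∑ q ∈ Q, m q * ∏ q' ∈ Q.erase q, q' : ℕ) := by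
    have := key n
    rw [h, key m] at this
    exact_mod_cast this.symm
  have hmod : ∀ (f : ℕ → ℕ), (∑ q ∈ Q, f q * ∏ q' ∈ Q.erase q, q' : ℕ)
      ≡ f q0 * ∏ q' ∈ Q.erase q0, q' [MOD q0] := by
    intro f
    rw [← Finset.add_sum_erase Q _ hq0]
    have hz : q0 ∣ ∑ q ∈ Q.erase q0, f q * ∏ q' ∈ Q.erase q, q' := by
      apply Finset.dvd_sum
      intro q hq
      rw [Finset.mem_erase] at hq
      apply Dvd.dvd.mul_left
      apply Finset.dvd_prod_of_mem
      rw [Finset.mem_erase]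
      exact ⟨Ne.symm hq.1, hq0⟩
    have h2 := (Nat.modEq_zero_iff_dvd.mpr hz)
    simpa using h2.add_left (f q0 * ∏ q' ∈ Q.erase q0, q')
  have h2 : n q0 * ∏ q' ∈ Q.erase q0, q' ≡ m q0 * ∏ q' ∈ Q.erase q0, q' [MOD q0] := by
    have := (hmod n).symm
    rw [h1] at this
    exact this.trans (hmod m)
  have hcop : Nat.gcd q0 (∏ q' ∈ Q.erase q0, q') = 1 := by
    rw [← Nat.coprime_iff_gcd_eq_one]
    apply Nat.Coprime.prod_right
    intro q hq
    rw [Finset.mem_erase] at hq
    exact (Nat.coprime_primes hq0'.1 (hQ q hq.2).1).mpr (Ne.symm hq.1)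
  have h3 : n q0 ≡ m q0 [MOD q0] := Nat.ModEq.cancel_right_of_coprime hcop h2
  have h4 : n q0 < q0 := lt_of_le_of_lt (hn q0 hq0) hq0'.2
  have h5 : m q0 < q0 := lt_of_le_of_lt (hm q0 hq0) hq0'.2
  exact Nat.ModEq.eq_of_lt_of_lt h3 h4 h5

lemma sum_inv_eq_count {k : ℕ} {Q : Finset ℕ} (x : Fin k → ℕ) (hx : ∀ i, x i ∈ Q) :
    ∑ i, (1 : ℚ) / x i = ∑ q ∈ Q, (((Finset.univ.filter (fun i => x i = q)).card : ℕ) : ℚ) / q := by
  rw [← Finset.sum_fiberwise_of_maps_to (s := Finset.univ) (t := Q) (g := x) (fun i _ => hx i)]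
  refine Finset.sum_congr rfl (fun q _ => ?_)
  have : ∀ i ∈ Finset.univ.filter (fun i => x i = q), (1 : ℚ) / x i = 1 / q := by
    intro i hi
    rw [(Finset.mem_filter.mp hi).2]
  rw [Finset.sum_congr rfl this, Finset.sum_const, nsmul_eq_mul]
  ring

/-- If two `k`-fold sums of reciprocals of small primes agree modulo `p`, then the tuples are
permutations of each other. -/
lemma perm_of_sum_eq {p : ℕ} [hp : Fact p.Prime] {k X : ℕ} {Q : Finset ℕ}
    (hQ : ∀ q ∈ Q, q.Prime ∧ k < q ∧ q ≤ X ∧ q < p) (hX : k * X ^ (2 * k - 1) < p)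
    (x y : Fin k → ℕ) (hx : ∀ i, x i ∈ Q) (hy : ∀ i, y i ∈ Q)
    (h : ∑ i, ((x i : ZMod p))⁻¹ = ∑ i, ((y i : ZMod p))⁻¹) :
    (List.ofFn y).Perm (List.ofFn x) := by
  have hne : ∀ q ∈ Q, (q : ZMod p) ≠ 0 := by
    intro q hq h0
    rw [ZMod.natCast_eq_zero_iff] at h0
    have := Nat.le_of_dvd (hQ q hq).1.pos h0
    have := (hQ q hq).2.2.2
    omega
  have hneQ : ∀ q ∈ Q, (q : ℚ) ≠ 0 := fun q hq => by
    exact_mod_cast (hQ q hq).1.ne_zero
  -- integers
  set A : ℕ := (∑ i, ∏ j ∈ Finset.univ.erase i, x j) * ∏ j, y j with hA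
  set B : ℕ := (∑ i, ∏ j ∈ Finset.univ.erase i, y j) * ∏ j, x j with hB
  have keyZ : ∀ (z : Fin k → ℕ), (∀ i, z i ∈ Q) →
      ((∑ i, ∏ j ∈ Finset.univ.erase i, z j : ℕ) : ZMod p) = (∏ j, (z j : ZMod p)) * ∑ i, ((z i : ZMod p))⁻¹ := by
    intro z hz
    push_cast
    rw [Finset.mul_sum]
    refine Finset.sum_congr rfl (fun i _ => ?_)
    rw [← Finset.mul_prod_erase Finset.univ (fun j => (z j : ZMod p)) (Finset.mem_univ i)]
    have := hne _ (hz i)
    field_simp
  have keyQ : ∀ (z : Fin k → ℕ), (∀ i, z i ∈ Q) →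
      ((∑ i, ∏ j ∈ Finset.univ.erase i, z j : ℕ) : ℚ) = (∏ j, (z j : ℚ)) * ∑ i, (1 : ℚ) / (z i : ℚ) := by
    intro z hz
    push_cast
    rw [Finset.mul_sum]
    refine Finset.sum_congr rfl (fun i _ => ?_)
    rw [← Finset.mul_prod_erase Finset.univ (fun j => (z j : ℚ)) (Finset.mem_univ i)]
    have := hneQ _ (hz i)
    field_simp
  have hmodeq : (A : ZMod p) = (B : ZMod p) := by
    rw [hA, hB, Nat.cast_mul, Nat.cast_mul, keyZ x hx, keyZ y hy, h]
    push_cast
    ring
  have hbound : ∀ (z w : Fin k → ℕ), (∀ i, z i ∈ Q) → (∀ i, w i ∈ Q) →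
      (∑ i, ∏ j ∈ Finset.univ.erase i, z j) * ∏ j, w j ≤ k * X ^ (2 * k - 1) := by
    intro z w hz hw
    rcases Nat.eq_zero_or_pos k with rfl | hk
    · simp
    have h1 : ∀ i ∈ (Finset.univ : Finset (Fin k)), ∏ j ∈ Finset.univ.erase i, z j ≤ X ^ (k - 1) := by
      intro i _
      calc ∏ j ∈ Finset.univ.erase i, z j ≤ ∏ j ∈ Finset.univ.erase i, X := by
            apply Finset.prod_le_prod'
            intro j _
            exact (hQ _ (hz j)).2.2.1
        _ = X ^ (k - 1) := by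
            rw [Finset.prod_const, Finset.card_erase_of_mem (Finset.mem_univ _), Finset.card_univ,
              Fintype.card_fin]
    have h2 : ∏ j, w j ≤ X ^ k := by
      calc ∏ j, w j ≤ ∏ j : Fin k, X := by
            apply Finset.prod_le_prod'
            intro j _
            exact (hQ _ (hw j)).2.2.1
        _ = X ^ k := by
            rw [Finset.prod_const, Finset.card_univ, Fintype.card_fin]
    have h3 : ∑ i, ∏ j ∈ Finset.univ.erase i, z j ≤ k * X ^ (k - 1) := by
      calc ∑ i, ∏ j ∈ Finset.univ.erase i, z j ≤ ∑ i : Fin k, X ^ (k - 1) := Finset.sum_le_sum h1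
        _ = k * X ^ (k - 1) := by simp
    calc (∑ i, ∏ j ∈ Finset.univ.erase i, z j) * ∏ j, w j ≤ (k * X ^ (k - 1)) * X ^ k :=
          Nat.mul_le_mul h3 h2
      _ = k * X ^ (2 * k - 1) := by
          rw [mul_assoc, ← pow_add]
          congr 2
          omega
  have hAlt : A < p := lt_of_le_of_lt (hbound x y hx hy) hX
  have hBlt : B < p := lt_of_le_of_lt (hbound y x hy hx) hX
  have hAB : A = B := by
    rw [ZMod.natCast_eq_natCast_iff] at hmodeq
    exact Nat.ModEq.eq_of_lt_of_lt hmodeq hAlt hBlt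
  have hQeq : ∑ i, (1 : ℚ) / (x i : ℚ) = ∑ i, (1 : ℚ) / (y i : ℚ) := by
    have h1 : (A : ℚ) = (B : ℚ) := by rw [hAB]
    rw [hA, hB, Nat.cast_mul, Nat.cast_mul, keyQ x hx, keyQ y hy] at h1
    push_cast at h1
    have hpx : (∏ j, (x j : ℚ)) ≠ 0 := Finset.prod_ne_zero_iff.mpr (fun j _ => hneQ _ (hx j))
    have hpy : (∏ j, (y j : ℚ)) ≠ 0 := Finset.prod_ne_zero_iff.mpr (fun j _ => hneQ _ (hy j))
    have h2 : ((∏ j, (x j : ℚ)) * ∏ j, (y j : ℚ)) * (∑ i, (1 : ℚ) / (x i : ℚ))
        = ((∏ j, (x j : ℚ)) * ∏ j, (y j : ℚ)) * (∑ i, (1 : ℚ) / (y i : ℚ)) := by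
      linear_combination h1
    exact mul_left_cancel₀ (mul_ne_zero hpx hpy) h2
  rw [sum_inv_eq_count x hx, sum_inv_eq_count y hy] at hQeq
  have hcounts := counts_eq (k := k) (Q := Q) (fun q hq => ⟨(hQ q hq).1, (hQ q hq).2.1⟩)
    (fun q => (Finset.univ.filter (fun i => x i = q)).card)
    (fun q => (Finset.univ.filter (fun i => y i = q)).card)
    (fun q _ => by
      refine (Finset.card_filter_le _ _).trans ?_
      simp)
    (fun q _ => by
      refine (Finset.card_filter_le _ _).trans ?_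
      simp) hQeq
  -- multiset equality
  have hall : ∀ q, (Finset.univ.filter (fun i => x i = q)).card = (Finset.univ.filter (fun i => y i = q)).card := by
    intro q
    by_cases hq : q ∈ Q
    · exact hcounts q hq
    · have h1 : Finset.univ.filter (fun i => x i = q) = ∅ := by
        apply Finset.filter_eq_empty_iff.mpr
        intro i _ hi
        exact hq (hi ▸ hx i)
      have h2 : Finset.univ.filter (fun i => y i = q) = ∅ := by
        apply Finset.filter_eq_empty_iff.mpr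
        intro i _ hi
        exact hq (hi ▸ hy i)
      rw [h1, h2]
  have hms : (Finset.univ : Finset (Fin k)).val.map y = (Finset.univ : Finset (Fin k)).val.map x := by
    ext q
    rw [Multiset.count_map, Multiset.count_map]
    have e1 : Multiset.card (Multiset.filter (fun a => q = y a) (Finset.univ : Finset (Fin k)).val)
        = (Finset.univ.filter (fun i => y i = q)).card := by
      rw [Finset.card_def, Finset.filter_val]
      congr 1
      apply Multiset.filter_congr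
      intro a _
      exact eq_comm
    have e2 : Multiset.card (Multiset.filter (fun a => q = x a) (Finset.univ : Finset (Fin k)).val)
        = (Finset.univ.filter (fun i => x i = q)).card := by
      rw [Finset.card_def, Finset.filter_val]
      congr 1
      apply Multiset.filter_congr
      intro a _
      exact eq_comm
    rw [e1, e2, hall q]
  rw [Fin.univ_val_map, Fin.univ_val_map] at hms
  exact Multiset.coe_eq_coe.mp hms

/-- number of representations of `μ` as a sum of `k` reciprocals of elements of `Q`. -/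
noncomputable def J (p k : ℕ) (Q : Finset ℕ) (μ : ZMod p) : ℕ :=
  ((Fintype.piFinset (fun _ : Fin k => Q)).filter (fun x => ∑ i, ((x i : ZMod p))⁻¹ = μ)).card

lemma J_le {p : ℕ} [hp : Fact p.Prime] {k X : ℕ} {Q : Finset ℕ}
    (hQ : ∀ q ∈ Q, q.Prime ∧ k < q ∧ q ≤ X ∧ q < p) (hX : k * X ^ (2 * k - 1) < p) (μ : ZMod p) :
    J p k Q μ ≤ k.factorial := by
  unfold J
  rcases Finset.eq_empty_or_nonempty
    ((Fintype.piFinset (fun _ : Fin k => Q)).filter (fun x => ∑ i, ((x i : ZMod p))⁻¹ = μ)) with he | ⟨x0, hx0⟩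
  · rw [he]; simp
  · rw [Finset.mem_filter, Fintype.mem_piFinset] at hx0
    have hle : ((Fintype.piFinset (fun _ : Fin k => Q)).filter (fun x => ∑ i, ((x i : ZMod p))⁻¹ = μ)).card
        ≤ (List.ofFn x0).permutations.toFinset.card := by
      apply Finset.card_le_card_of_injOn (fun y => List.ofFn y)
      · intro y hy
        rw [Finset.mem_coe, Finset.mem_filter, Fintype.mem_piFinset] at hy
        rw [Finset.mem_coe, List.mem_toFinset, List.mem_permutations]
        exact perm_of_sum_eq hQ hX x0 y hx0.1 hy.1 (by rw [hx0.2, hy.2])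
      · intro y _ z _ hyz
        exact List.ofFn_injective hyz
    refine hle.trans ?_
    refine (List.toFinset_card_le _).trans ?_
    rw [List.length_permutations, List.length_ofFn]

lemma sum_J {p : ℕ} [hp : Fact p.Prime] (k : ℕ) (Q : Finset ℕ) :
    ∑ μ : ZMod p, J p k Q μ = Q.card ^ k := by
  unfold J
  rw [← Finset.card_eq_sum_card_fiberwise (fun x _ => Finset.mem_coe.mpr (Finset.mem_univ _))]
  rw [Fintype.card_piFinset]
  simp

end Pool.Agent.ThetaSum
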