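import Pool.Agent.Lib.MP_d4c1d0_nt.Recip

set_option autoImplicit false
set_option linter.style.haveILetI false

open Finset Real

namespace Pool.Agent.ThetaSum

lemma sq_le_one (x : ℝ) : sq x ≤ 1 := by unfold sq; split_ifs <;> norm_num

lemma neg_one_le_sq (x : ℝ) : -1 ≤ sq x := by unfold sq; split_ifs <;> norm_num

lemma sum_perm_mod {q : ℕ} (hq : 0 < q) (A a : ℤ) (hcop : IsCoprime a (q : ℤ)) (u : ℕ → ℝ) :
    ∑ l ∈ range q, u (((A + l * a) % q).toNat) = ∑ m ∈ range q, u m := by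
  have hqZ : (0 : ℤ) < q := by exact_mod_cast hq
  set φ : ℕ → ℕ := fun l => ((A + l * a) % q).toNat with hφ
  have hφcast : ∀ l, ((φ l : ℕ) : ℤ) = (A + l * a) % q := by
    intro l
    rw [hφ]
    exact Int.toNat_of_nonneg (Int.emod_nonneg _ hqZ.ne')
  have hmaps : ∀ l, φ l < q := by
    intro l
    have h1 := Int.emod_lt_of_pos (A + l * a) hqZ
    rw [← hφcast] at h1
    exact_mod_cast h1
  have hinj : Set.InjOn φ (range q : Set ℕ) := by
    intro l hl l' hl' h
    simp only [Finset.coe_range, Set.mem_Iio] at hl hl'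
    have h1 : (A + l * a) % q = (A + l' * a) % q := by
      rw [← hφcast, ← hφcast, h]
    have h2 : (q : ℤ) ∣ (A + l * a) - (A + l' * a) := Int.ModEq.dvd (Eq.symm h1)
    have h3 : (q : ℤ) ∣ a * ((l : ℤ) - l') := by
      have : (A + l * a) - (A + l' * a) = a * ((l : ℤ) - l') := by ring
      rwa [this] at h2
    have h4 : (q : ℤ) ∣ (l : ℤ) - l' := hcop.symm.dvd_of_dvd_mul_left h3
    have h5 : (l : ℤ) - l' = 0 := by
      apply Int.eq_zero_of_abs_lt_dvd h4
      rw [abs_lt]
      constructor <;> omega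
    omega
  have himg : (range q).image φ = range q := by
    apply Finset.eq_of_subset_of_card_le
    · intro x hx
      rw [Finset.mem_image] at hx
      obtain ⟨l, _, rfl⟩ := hx
      exact Finset.mem_range.mpr (hmaps l)
    · rw [Finset.card_image_of_injOn hinj]
  calc ∑ l ∈ range q, u (φ l) = ∑ m ∈ (range q).image φ, u m := by
        rw [Finset.sum_image hinj]
    _ = ∑ m ∈ range q, u m := by rw [himg]

/-- Discrepancy of one block of a rotation sequence. -/
theorem block_bound {q : ℕ} (hq : 0 < q) (a : ℤ) (hcop : IsCoprime a (q : ℤ)) (θ : ℝ)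
    (hθ : |θ - a / q| ≤ 1 / (q : ℝ) ^ 2) (γ : ℝ) :
    |∑ l ∈ range q, sq (γ + l * θ)| ≤ 5 := by
  have hqZ : (0 : ℤ) < q := by exact_mod_cast hq
  have hqR : (0 : ℝ) < q := by exact_mod_cast hq
  set A : ℤ := ⌊q * γ⌋ with hA
  have hA1 : (A : ℝ) ≤ q * γ := Int.floor_le _
  have hA2 : q * γ < A + 1 := Int.lt_floor_add_one _
  -- position of the points
  have hpos : ∀ l ∈ range q, ∃ w : ℤ,
      ((((A + l * a) % q).toNat : ℝ) - 1) / q < γ + l * θ - w ∧
      γ + l * θ - w < ((((A + l * a) % q).toNat : ℝ) + 2) / q := by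
    intro l hl
    rw [Finset.mem_range] at hl
    have hlR : (l : ℝ) < q := by exact_mod_cast hl
    have hl0 : (0 : ℝ) ≤ l := by positivity
    refine ⟨(A + l * a) / q, ?_⟩
    have h1 : (((A + l * a) % q).toNat : ℝ) = (A : ℝ) + l * a - q * (((A + l * a) / q : ℤ) : ℝ) := by
      have e1 : ((((A + l * a) % q).toNat : ℕ) : ℤ) = (A + l * a) % q :=
        Int.toNat_of_nonneg (Int.emod_nonneg _ hqZ.ne')
      have e2 : (A + l * a) % q = (A + l * a) - q * ((A + l * a) / q) := Int.emod_def _ _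
      have e3 : (((((A + l * a) % q).toNat : ℕ) : ℤ) : ℝ)
          = (((A + l * a) - q * ((A + l * a) / q) : ℤ) : ℝ) := by rw [e1, ← e2]
      push_cast at e3 ⊢
      exact e3
    set mm : ℝ := (((A + l * a) % q).toNat : ℝ) with hmm
    set w : ℝ := (((A + l * a) / q : ℤ) : ℝ) with hw
    set δ : ℝ := θ - a / q with hδ
    have hδ1 : |q * l * δ| < 1 := by
      rw [abs_mul, abs_of_nonneg (by positivity)]
      calc (q : ℝ) * l * |δ| ≤ q * l * (1 / (q : ℝ) ^ 2) := by
            apply mul_le_mul_of_nonneg_left hθ (by positivity)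
        _ = l / q := by field_simp
        _ < 1 := by rw [div_lt_one hqR]; exact hlR
    rw [abs_lt] at hδ1
    have hθe : θ = a / q + δ := by rw [hδ]; ring
    have hy : q * (γ + l * θ - w) = (q * γ - A) + mm + q * l * δ := by
      rw [h1, hθe]; field_simp; ring
    constructor
    · rw [div_lt_iff₀ hqR]
      nlinarith [hy]
    · rw [lt_div_iff₀ hqR]
      nlinarith [hy]
  -- upper bound function
  have hup : ∀ l ∈ range q, sq (γ + l * θ) ≤
      (fun m : ℕ => if (q + 2 ≤ 2 * m ∧ m + 2 ≤ q) then (-1 : ℝ) else 1) (((A + l * a) % q).toNat) := by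
    intro l hl
    obtain ⟨w, hw1, hw2⟩ := hpos l hl
    set mm : ℕ := ((A + l * a) % q).toNat with hmm
    simp only []
    split_ifs with hc
    · obtain ⟨hc1, hc2⟩ := hc
      have hc1' : ((q : ℝ) + 2) ≤ 2 * mm := by exact_mod_cast hc1
      have hc2' : (mm : ℝ) + 2 ≤ q := by exact_mod_cast hc2
      have h1 : (1 / 2 : ℝ) ≤ ((mm : ℝ) - 1) / q := by
        rw [le_div_iff₀ hqR]; linarith
      have h2 : ((mm : ℝ) + 2) / q ≤ 1 := by
        rw [div_le_one hqR]; exact hc2'
      have hf : Int.fract (γ + l * θ) = γ + l * θ - w := by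
        rw [Int.fract_eq_iff]
        refine ⟨by linarith, by linarith, w, by ring⟩
      unfold sq
      rw [hf, if_neg (by linarith)]
    · exact sq_le_one _
  have hlow : ∀ l ∈ range q,
      (fun m : ℕ => if (1 ≤ m ∧ 2 * (m + 2) ≤ q) then (1 : ℝ) else -1) (((A + l * a) % q).toNat)
      ≤ sq (γ + l * θ) := by
    intro l hl
    obtain ⟨w, hw1, hw2⟩ := hpos l hl
    set mm : ℕ := ((A + l * a) % q).toNat with hmm
    simp only []
    split_ifs with hc
    · obtain ⟨hc1, hc2⟩ := hc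
      have hc1' : (1 : ℝ) ≤ mm := by exact_mod_cast hc1
      have hc2' : 2 * ((mm : ℝ) + 2) ≤ q := by exact_mod_cast hc2
      have h1 : (0 : ℝ) ≤ ((mm : ℝ) - 1) / q := by
        apply div_nonneg <;> linarith
      have h2 : ((mm : ℝ) + 2) / q ≤ 1 / 2 := by
        rw [div_le_iff₀ hqR]; linarith
      have hf : Int.fract (γ + l * θ) = γ + l * θ - w := by
        rw [Int.fract_eq_iff]
        refine ⟨by linarith, by linarith, w, by ring⟩
      unfold sq
      rw [hf, if_pos (by linarith)]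
    · exact neg_one_le_sq _
  have hsumup := Finset.sum_le_sum hup
  have hsumlow := Finset.sum_le_sum hlow
  rw [sum_perm_mod hq A a hcop (fun m : ℕ => if (q + 2 ≤ 2 * m ∧ m + 2 ≤ q) then (-1 : ℝ) else 1)] at hsumup
  rw [sum_perm_mod hq A a hcop (fun m : ℕ => if (1 ≤ m ∧ 2 * (m + 2) ≤ q) then (1 : ℝ) else -1)] at hsumlow
  have hU : ∑ m ∈ range q, (if (q + 2 ≤ 2 * m ∧ m + 2 ≤ q) then (-1 : ℝ) else 1) ≤ 5 := by
    have e : ∀ m ∈ range q, (if (q + 2 ≤ 2 * m ∧ m + 2 ≤ q) then (-1 : ℝ) else 1)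
        = 1 - 2 * (if (q + 2 ≤ 2 * m ∧ m + 2 ≤ q) then (1 : ℝ) else 0) := by
      intro m _; split_ifs <;> norm_num
    rw [Finset.sum_congr rfl e, Finset.sum_sub_distrib, ← Finset.mul_sum, Finset.sum_boole]
    simp only [Finset.sum_const, Finset.card_range, nsmul_eq_mul, mul_one]
    have hsub : Finset.Ico ((q + 3) / 2) (q - 1) ⊆
        (range q).filter (fun m => q + 2 ≤ 2 * m ∧ m + 2 ≤ q) := by
      intro m hm
      rw [Finset.mem_Ico] at hm
      rw [Finset.mem_filter, Finset.mem_range]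
      omega
    have hcard := Finset.card_le_card hsub
    rw [Nat.card_Ico] at hcard
    have h2 : q ≤ 2 * ((range q).filter (fun m => q + 2 ≤ 2 * m ∧ m + 2 ≤ q)).card + 5 := by omega
    have h3 : (q : ℝ) ≤ 2 * (((range q).filter (fun m => q + 2 ≤ 2 * m ∧ m + 2 ≤ q)).card : ℝ) + 5 := by
      exact_mod_cast h2
    linarith
  have hL : -5 ≤ ∑ m ∈ range q, (if (1 ≤ m ∧ 2 * (m + 2) ≤ q) then (1 : ℝ) else -1) := by
    have e : ∀ m ∈ range q, (if (1 ≤ m ∧ 2 * (m + 2) ≤ q) then (1 : ℝ) else -1)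
        = 2 * (if (1 ≤ m ∧ 2 * (m + 2) ≤ q) then (1 : ℝ) else 0) - 1 := by
      intro m _; split_ifs <;> norm_num
    rw [Finset.sum_congr rfl e, Finset.sum_sub_distrib, ← Finset.mul_sum, Finset.sum_boole]
    simp only [Finset.sum_const, Finset.card_range, nsmul_eq_mul, mul_one]
    have hsub : Finset.Ico 1 ((q - 2) / 2) ⊆
        (range q).filter (fun m => 1 ≤ m ∧ 2 * (m + 2) ≤ q) := by
      intro m hm
      rw [Finset.mem_Ico] at hm
      rw [Finset.mem_filter, Finset.mem_range]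
      omega
    have hcard := Finset.card_le_card hsub
    rw [Nat.card_Ico] at hcard
    have h2 : q ≤ 2 * ((range q).filter (fun m => 1 ≤ m ∧ 2 * (m + 2) ≤ q)).card + 5 := by omega
    have h3 : (q : ℝ) ≤ 2 * (((range q).filter (fun m => 1 ≤ m ∧ 2 * (m + 2) ≤ q)).card : ℝ) + 5 := by
      exact_mod_cast h2
    linarith
  rw [abs_le]
  constructor
  · exact hL.trans hsumlow
  · exact hsumup.trans hU

end Pool.Agent.ThetaSum
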