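import Pool.Agent.Lib.MP_d4c1d0_nt.Tails
import Pool.Agent.Lib.MP_d4c1d0_nt.Bilinear

set_option autoImplicit false
set_option linter.style.haveILetI false

open Finset Real

namespace Pool.Agent.ThetaSum

section
variable {p : ℕ} [hp : Fact p.Prime]

lemma ee_intCast (j : ℤ) : ee p (j : ZMod p) = Complex.exp (2 * π * Complex.I * j / p) := by
  haveI : NeZero p := ⟨hp.out.ne_zero⟩
  exact ZMod.stdAddChar_coe j

lemma ee_im (j : ℤ) : (ee p (j : ZMod p)).im = Real.sin (2 * π * j / p) := by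
  rw [ee_intCast]
  have : (2 * (π : ℂ) * Complex.I * (j : ℂ) / (p : ℂ)) = ((2 * π * j / p : ℝ) : ℂ) * Complex.I := by
    push_cast; ring
  rw [this, Complex.exp_ofReal_mul_I_im]

lemma sg_fourier (hodd : Odd p) {z : ZMod p} (hz : z ≠ 0) :
    sg p z = -((1 / p) * ∑ k ∈ range p, ct p (2 * k + 1) *
      (ee p (((2 * k + 1 : ℕ) : ZMod p) * (2 : ZMod p)⁻¹ * z)).im) := by
  haveI : NeZero p := ⟨hp.out.ne_zero⟩
  have hp0 : 0 < p := hp.out.pos
  have hp1 : 1 < p := hp.out.one_lt
  have hpR : (p : ℝ) ≠ 0 := by positivity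
  have hvlt : z.val < p := ZMod.val_lt z
  have hv0 : z.val ≠ 0 := by
    intro h; exact hz ((ZMod.val_eq_zero z).mp h)
  have h2ne : (2 : ZMod p) ≠ 0 := by
    intro h
    have h' : ((2 : ℕ) : ZMod p) = 0 := by exact_mod_cast h
    rw [ZMod.natCast_eq_zero_iff] at h'
    have := Nat.le_of_dvd (by norm_num) h'
    obtain ⟨w, hw⟩ := hodd
    omega
  -- the odd representative
  obtain ⟨x, hxodd, hxcast, hxnd, hxsg⟩ : ∃ x : ℕ, Odd x ∧ ((x : ℕ) : ZMod p) = z ∧ ¬ p ∣ x ∧
      sg p z = (-1) ^ (x / p) := by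
    by_cases hv : Odd z.val
    · refine ⟨z.val, hv, ZMod.natCast_zmod_val z, ?_, ?_⟩
      · intro h
        have := Nat.le_of_dvd (Nat.pos_of_ne_zero hv0) h
        omega
      · unfold sg
        rw [if_pos hv, Nat.div_eq_of_lt hvlt, pow_zero]
    · refine ⟨z.val + p, ?_, ?_, ?_, ?_⟩
      · exact (Nat.not_odd_iff_even.mp hv).add_odd hodd
      · push_cast; rw [ZMod.natCast_zmod_val z]; simp
      · intro h
        have h1 : p ∣ z.val := (Nat.dvd_add_left (dvd_refl p)).mp h
        have := Nat.le_of_dvd (Nat.pos_of_ne_zero hv0) h1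
        omega
      · unfold sg
        rw [if_neg hv, Nat.add_div_right _ hp0, Nat.div_eq_of_lt hvlt]
        norm_num
  have hsw := square_wave hp1 x
  rw [if_neg hxnd] at hsw
  rw [hxsg]
  have e1 : (-1 : ℝ) ^ (x / p) = (1 / p) * ∑ k ∈ range p, ct p (2 * k + 1) * Real.sin (π * (2 * k + 1) * x / p) := by
    rw [hsw]; field_simp
  rw [e1, ← mul_neg, ← Finset.sum_neg_distrib]
  congr 1
  refine Finset.sum_congr rfl (fun k _ => ?_)
  rw [← mul_neg]
  congr 1
  -- w = ((2k+1) x + p)/2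
  have hodd1 : Odd (2 * k + 1) := ⟨k, rfl⟩
  have hodd2 : Odd ((2 * k + 1) * x) := hodd1.mul hxodd
  obtain ⟨w, hw⟩ := hodd2.add_odd hodd
  have hwc : ((2 * k + 1 : ℕ) : ZMod p) * (2 : ZMod p)⁻¹ * z = (((w : ℕ) : ℤ) : ZMod p) := by
    have h3 : (((2 * k + 1) * x + p : ℕ) : ZMod p) = ((w + w : ℕ) : ZMod p) := by rw [hw]
    push_cast at h3
    rw [ZMod.natCast_self p, add_zero] at h3
    rw [← hxcast]
    push_cast
    field_simp
    linear_combination h3
  rw [hwc, ee_im]
  have e2 : (w : ℝ) = ((2 * k + 1) * x + p) / 2 := by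
    have : (((2 * k + 1) * x + p : ℕ) : ℝ) = ((w + w : ℕ) : ℝ) := by rw [hw]
    push_cast at this
    linarith
  have e3 : 2 * π * (((w : ℕ) : ℤ) : ℝ) / p = π * (2 * k + 1) * x / p + π := by
    push_cast
    rw [e2]; field_simp
  rw [e3, Real.sin_add_pi, neg_neg]

lemma abs_ct_sum {m : ℕ} (hpm : p = 2 * m + 1) :
    (1 / p) * ∑ k ∈ range p, |ct p (2 * k + 1)| ≤ 2 * (1 + Real.log m) := by
  have hp0 : 0 < p := hp.out.pos
  have hpR : (0 : ℝ) < p := by exact_mod_cast hp0
  set F : ℕ → ℝ := fun k => |ct p (2 * k + 1)| with hF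
  have hmid : F m = 0 := by
    have : (2 * (m : ℤ) + 1) = (p : ℤ) := by rw [hpm]; push_cast; ring
    simp only [hF, this, ct_self hp0, abs_zero]
  have hrefl : ∀ k ∈ range m, F (m + 1 + (m - 1 - k)) = F k := by
    intro k hk
    rw [Finset.mem_range] at hk
    have e : ((m + 1 + (m - 1 - k) : ℕ) : ℤ) = 2 * m - k := by omega
    have e1 : (2 * ((m + 1 + (m - 1 - k) : ℕ) : ℤ) + 1) = -(2 * k + 1) + 2 * p * 1 := by
      rw [e, hpm]; push_cast; ring
    simp only [hF]
    rw [e1, ct_add_period hp0, ct_neg, abs_neg]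
  have hsplit : ∑ k ∈ range p, F k = 2 * ∑ k ∈ range m, F k := by
    rw [hpm]
    have : 2 * m + 1 = (m + 1) + m := by ring
    rw [this, Finset.sum_range_add, Finset.sum_range_succ, hmid, add_zero]
    rw [← Finset.sum_range_reflect (fun k => F (m + 1 + k)), Finset.sum_congr rfl hrefl]
    ring
  have hFk : ∀ k ∈ range m, F k = (2 * p / π) * kap p (2 * k + 1) := by
    intro k hk
    rw [Finset.mem_range] at hk
    have hpos := kap_pos (p := p) (i := 2 * k + 1) hp0 (by omega) (by omega)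
    have hpi := Real.pi_pos
    have e2 : ct p (2 * k + 1) = (2 * p / π) * kap p (2 * k + 1) := by
      unfold kap
      push_cast
      field_simp
    simp only [hF]
    rw [e2, abs_of_nonneg]
    positivity
  have hsk := sum_kap_le hpm
  have hpi := Real.pi_gt_three
  calc (1 / p) * ∑ k ∈ range p, |ct p (2 * k + 1)| = (1 / p) * (2 * ∑ k ∈ range m, F k) := by
        rw [← hsplit]
    _ = (4 / π) * ∑ k ∈ range m, kap p (2 * k + 1) := by
        rw [Finset.sum_congr rfl hFk, ← Finset.mul_sum]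
        field_simp
        ring
    _ ≤ 2 * (1 + Real.log m) := by
        have h0 : 0 ≤ ∑ k ∈ range m, kap p (2 * k + 1) := by
          apply Finset.sum_nonneg
          intro k hk
          rw [Finset.mem_range] at hk
          exact (kap_pos hp0 (by omega) (by omega)).le
        have h1 : 4 / π ≤ 2 := by
          rw [div_le_iff₀ (by linarith)]; linarith
        calc (4 / π) * ∑ k ∈ range m, kap p (2 * k + 1) ≤ 2 * ∑ k ∈ range m, kap p (2 * k + 1) :=
              mul_le_mul_of_nonneg_right h1 h0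
          _ ≤ 2 * (1 + Real.log m) := by linarith

/-- A bound for sums of signs through exponential sums. -/
theorem sg_sum_le {m : ℕ} (hpm : p = 2 * m + 1) {ι : Type*} (s : Finset ι) (c : ι → ℝ) (z : ι → ZMod p)
    (hz : ∀ i ∈ s, z i ≠ 0) {B : ℝ} (hB0 : 0 ≤ B)
    (hB : ∀ n : ZMod p, n ≠ 0 → ‖∑ i ∈ s, (c i : ℂ) * ee p (n * z i)‖ ≤ B) :
    |∑ i ∈ s, c i * sg p (z i)| ≤ 2 * (1 + Real.log m) * B := by
  haveI : NeZero p := ⟨hp.out.ne_zero⟩
  have hp0 : 0 < p := hp.out.pos
  have hpR : (0 : ℝ) < p := by exact_mod_cast hp0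
  have hodd : Odd p := ⟨m, hpm⟩
  have h2ne : (2 : ZMod p) ≠ 0 := by
    intro h
    have h' : ((2 : ℕ) : ZMod p) = 0 := by exact_mod_cast h
    rw [ZMod.natCast_eq_zero_iff] at h'
    have := Nat.le_of_dvd (by norm_num) h'
    have := hp.out.one_lt
    omega
  have e1 : ∑ i ∈ s, c i * sg p (z i) = -((1 / p) * ∑ k ∈ range p, ct p (2 * k + 1) *
      (∑ i ∈ s, (c i : ℂ) * ee p (((2 * k + 1 : ℕ) : ZMod p) * (2 : ZMod p)⁻¹ * z i)).im) := by
    have e2 : ∀ i ∈ s, c i * sg p (z i) = -((1 / p) * ∑ k ∈ range p, ct p (2 * k + 1) *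
      ((c i : ℂ) * ee p (((2 * k + 1 : ℕ) : ZMod p) * (2 : ZMod p)⁻¹ * z i)).im) := by
      intro i hi
      rw [sg_fourier hodd (hz i hi), mul_neg]
      congr 1
      rw [mul_left_comm, Finset.mul_sum]
      congr 1
      refine Finset.sum_congr rfl (fun k _ => ?_)
      rw [Complex.im_ofReal_mul]
      ring
    rw [Finset.sum_congr rfl e2, Finset.sum_neg_distrib, ← Finset.mul_sum, Finset.sum_comm]
    congr 2
    refine Finset.sum_congr rfl (fun k _ => ?_)
    rw [Complex.im_sum, Finset.mul_sum]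
  rw [e1, abs_neg, abs_mul, abs_of_pos (by positivity : (0 : ℝ) < 1 / p)]
  calc 1 / (p : ℝ) * |∑ k ∈ range p, ct p (2 * k + 1) *
      (∑ i ∈ s, (c i : ℂ) * ee p (((2 * k + 1 : ℕ) : ZMod p) * (2 : ZMod p)⁻¹ * z i)).im|
      ≤ 1 / (p : ℝ) * ∑ k ∈ range p, |ct p (2 * k + 1)| * B := by
        apply mul_le_mul_of_nonneg_left _ (by positivity)
        refine (Finset.abs_sum_le_sum_abs _ _).trans (Finset.sum_le_sum (fun k hk => ?_))
        rw [Finset.mem_range] at hk
        rw [abs_mul]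
        by_cases hkm : k = m
        · have : (2 * (k : ℤ) + 1) = (p : ℤ) := by rw [hpm, hkm]; push_cast; ring
          rw [this, ct_self hp0]; simp
        · apply mul_le_mul_of_nonneg_left _ (abs_nonneg _)
          refine (Complex.abs_im_le_norm _).trans ?_
          apply hB
          apply mul_ne_zero _ (inv_ne_zero h2ne)
          intro h0
          rw [ZMod.natCast_eq_zero_iff] at h0
          obtain ⟨w, hw⟩ := h0
          have hw1 : w < 2 := by
            by_contra hge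
            rw [not_lt] at hge
            have : p * 2 ≤ p * w := Nat.mul_le_mul_left p hge
            omega
          interval_cases w
          · omega
          · omega
    _ = (1 / (p : ℝ) * ∑ k ∈ range p, |ct p (2 * k + 1)|) * B := by
        rw [← Finset.sum_mul]; ring
    _ ≤ 2 * (1 + Real.log m) * B := mul_le_mul_of_nonneg_right (abs_ct_sum hpm) hB0

end

end Pool.Agent.ThetaSum
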