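import Mathlib

set_option autoImplicit false

open Finset Real

namespace Pool.Agent.ThetaSum

/-- cotangent at `π m / (2 p)`. -/
noncomputable def ct (p : ℕ) (m : ℤ) : ℝ := Real.cot (π * m / (2 * p))

lemma sin_ne_zero_of_odd {p : ℕ} (hp : 0 < p) {m : ℤ} (hm : Odd m) :
    Real.sin (π * m / (2 * p)) ≠ 0 := by
  intro h
  rw [Real.sin_eq_zero_iff] at h
  obtain ⟨n, hn⟩ := h
  have hp' : (p : ℝ) ≠ 0 := by positivity
  have hpi : (π : ℝ) ≠ 0 := Real.pi_ne_zero
  have h1 : (m : ℝ) = n * (2 * p) := by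
    field_simp at hn
    linarith
  have h2 : m = n * (2 * p) := by exact_mod_cast h1
  rw [h2] at hm
  have : Even (n * (2 * (p : ℤ))) := ⟨n * p, by ring⟩
  exact (Int.not_even_iff_odd.mpr hm) this

lemma sum_sin_odd {p : ℕ} (hp : 0 < p) {m : ℤ} (hm : Odd m) :
    ∑ h ∈ range p, Real.sin (π * m * h / p) = ct p m := by
  have hs := sin_ne_zero_of_odd hp hm
  have hp' : (p : ℝ) ≠ 0 := by positivity
  set a : ℝ := π * m / (2 * p) with ha
  have key : ∀ h : ℕ, 2 * Real.sin a * Real.sin (π * m * h / p)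
      = Real.cos (a * (2 * h - 1)) - Real.cos (a * (2 * (h + 1 : ℕ) - 1)) := by
    intro h
    have e1 : π * m * h / p = a * (2 * h) := by
      rw [ha]; field_simp
    have e2 : a * (2 * (h : ℝ) - 1) = a * (2 * h) - a := by ring
    have e3 : a * (2 * ((h + 1 : ℕ) : ℝ) - 1) = a * (2 * h) + a := by push_cast; ring
    rw [e1, e2, e3, Real.cos_sub, Real.cos_add]
    ring
  have hsum : 2 * Real.sin a * ∑ h ∈ range p, Real.sin (π * m * h / p)
      = 2 * Real.cos a := by
    rw [Finset.mul_sum, Finset.sum_congr rfl (fun h _ => key h)]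
    rw [Finset.sum_range_sub' (fun h : ℕ => Real.cos (a * (2 * (h : ℝ) - 1)))]
    have e4 : a * (2 * (p : ℝ) - 1) = π * m - a := by
      rw [ha]; field_simp
    have e5 : a * (2 * ((0 : ℕ) : ℝ) - 1) = - a := by push_cast; ring
    rw [e4, e5, Real.cos_neg, Real.cos_sub]
    obtain ⟨k, hk⟩ := hm
    have e6 : π * (m : ℝ) = (2 * k : ℤ) * π + π := by rw [hk]; push_cast; ring
    have hc : Real.cos (π * m) = -1 := by
      rw [e6, Real.cos_add, Real.cos_pi, Real.sin_pi, Real.cos_int_mul_pi]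
      simp [zpow_mul]
    have hs' : Real.sin (π * m) = 0 := by
      rw [mul_comm]; exact Real.sin_int_mul_pi m
    rw [hc, hs']; ring
  unfold ct
  rw [Real.cot_eq_cos_div_sin, ← ha]
  field_simp
  linarith

lemma sum_sin_even {p : ℕ} {m : ℤ} (hm : Even m) :
    ∑ h ∈ range p, Real.sin (π * m * h / p) = 0 := by
  rcases Nat.eq_zero_or_pos p with rfl | hp
  · simp
  have hp' : (p : ℝ) ≠ 0 := by positivity
  -- split off h = 0 and reflect
  obtain ⟨q, rfl⟩ : ∃ q, p = q + 1 := ⟨p - 1, by omega⟩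
  rw [Finset.sum_range_succ']
  have h0 : Real.sin (π * m * ((0 : ℕ) : ℝ) / ((q + 1 : ℕ) : ℝ)) = 0 := by simp
  rw [h0, add_zero]
  have hrefl := Finset.sum_range_reflect
    (fun h : ℕ => Real.sin (π * m * ((h + 1 : ℕ) : ℝ) / ((q + 1 : ℕ) : ℝ))) q
  have hneg : ∀ h ∈ range q,
      Real.sin (π * m * ((q - 1 - h + 1 : ℕ) : ℝ) / ((q + 1 : ℕ) : ℝ))
      = - Real.sin (π * m * ((h + 1 : ℕ) : ℝ) / ((q + 1 : ℕ) : ℝ)) := by
    intro h hh
    rw [Finset.mem_range] at hh
    have e : ((q - 1 - h + 1 : ℕ) : ℝ) = ((q + 1 : ℕ) : ℝ) - ((h + 1 : ℕ) : ℝ) := by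
      have : q - 1 - h + 1 + (h + 1) = q + 1 := by omega
      have h2 : ((q - 1 - h + 1 : ℕ) : ℝ) + ((h + 1 : ℕ) : ℝ) = ((q + 1 : ℕ) : ℝ) := by
        exact_mod_cast this
      linarith
    rw [e]
    have e2 : π * m * (((q + 1 : ℕ) : ℝ) - ((h + 1 : ℕ) : ℝ)) / ((q + 1 : ℕ) : ℝ)
        = π * m - π * m * ((h + 1 : ℕ) : ℝ) / ((q + 1 : ℕ) : ℝ) := by
      field_simp
    rw [e2, Real.sin_sub]
    obtain ⟨k, hk⟩ := hm
    have e6 : π * (m : ℝ) = (2 * k : ℤ) * π := by rw [hk]; push_cast; ring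
    have hc : Real.cos (π * m) = 1 := by
      rw [e6, Real.cos_int_mul_pi]
      simp [zpow_mul]
    have hs' : Real.sin (π * m) = 0 := by
      rw [mul_comm]; exact Real.sin_int_mul_pi m
    rw [hc, hs']; ring
  rw [Finset.sum_congr rfl hneg] at hrefl
  rw [Finset.sum_neg_distrib] at hrefl
  linarith

lemma sum_cos {p : ℕ} (hp : 0 < p) (y : ℕ) :
    ∑ k ∈ range p, Real.cos (π * (2 * k + 1) * y / p)
      = if p ∣ y then (p : ℝ) * (-1) ^ (y / p) else 0 := by
  have hp' : (p : ℝ) ≠ 0 := by positivity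
  split_ifs with h
  · obtain ⟨k, rfl⟩ := h
    rw [Nat.mul_div_cancel_left k hp]
    have : ∀ j ∈ range p, Real.cos (π * (2 * j + 1) * ((p * k : ℕ) : ℝ) / p) = (-1) ^ k := by
      intro j _
      have e : π * (2 * j + 1) * ((p * k : ℕ) : ℝ) / p = (((2 * j + 1) * k : ℕ) : ℝ) * π := by
        push_cast; field_simp
      rw [e, Real.cos_nat_mul_pi, pow_mul]
      simp [pow_add, pow_mul]
    rw [Finset.sum_congr rfl this]
    simp
  · set b : ℝ := π * y / p with hb
    have hs : Real.sin b ≠ 0 := by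
      intro h0
      rw [Real.sin_eq_zero_iff] at h0
      obtain ⟨n, hn⟩ := h0
      have h1 : (y : ℝ) = n * p := by
        rw [hb] at hn
        have hpi : (π : ℝ) ≠ 0 := Real.pi_ne_zero
        field_simp at hn
        linarith
      have h2 : (y : ℤ) = n * p := by exact_mod_cast h1
      have h3 : (p : ℤ) ∣ (y : ℤ) := ⟨n, by rw [h2]; ring⟩
      exact h (by exact_mod_cast h3)
    have key : ∀ k : ℕ, 2 * Real.sin b * Real.cos (π * (2 * k + 1) * y / p)
        = Real.sin (b * (2 * (k + 1 : ℕ))) - Real.sin (b * (2 * k)) := by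
      intro k
      have e1 : π * (2 * k + 1) * y / p = b * (2 * k + 1) := by rw [hb]; ring
      have e2 : b * (2 * ((k + 1 : ℕ) : ℝ)) = b * (2 * k + 1) + b := by push_cast; ring
      have e3 : b * (2 * (k : ℝ)) = b * (2 * k + 1) - b := by ring
      rw [e1, e2, e3, Real.sin_add, Real.sin_sub]
      ring
    have hsum : 2 * Real.sin b * ∑ k ∈ range p, Real.cos (π * (2 * k + 1) * y / p) = 0 := by
      rw [Finset.mul_sum, Finset.sum_congr rfl (fun h _ => key h)]
      rw [Finset.sum_range_sub (fun k : ℕ => Real.sin (b * (2 * (k : ℝ))))]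
      have e4 : b * (2 * (p : ℝ)) = ((2 * y : ℕ) : ℝ) * π := by
        rw [hb]; push_cast; field_simp
      rw [e4, Real.sin_nat_mul_pi]
      simp
    rcases mul_eq_zero.mp hsum with h0 | h0
    · exfalso
      rcases mul_eq_zero.mp h0 with h1 | h1
      · norm_num at h1
      · exact hs h1
    · exact h0

/-- The finite Fourier expansion of the square wave `(-1)^⌊x/p⌋`. -/
lemma square_wave {p : ℕ} (hp : 1 < p) (x : ℕ) :
    ∑ k ∈ range p, ct p (2 * k + 1) * Real.sin (π * (2 * k + 1) * x / p)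
      = if p ∣ x then 0 else (p : ℝ) * (-1) ^ (x / p) := by
  have hp0 : 0 < p := by omega
  have hp' : (p : ℝ) ≠ 0 := by positivity
  have step : ∀ x : ℕ, ∑ k ∈ range p, ct p (2 * k + 1) * Real.sin (π * (2 * k + 1) * (x + 1 : ℕ) / p)
      = ∑ k ∈ range p, ct p (2 * k + 1) * Real.sin (π * (2 * k + 1) * x / p)
        + ((∑ k ∈ range p, Real.cos (π * (2 * k + 1) * (x + 1 : ℕ) / p))
          + ∑ k ∈ range p, Real.cos (π * (2 * k + 1) * x / p)) := by
    intro x
    rw [← Finset.sum_add_distrib, ← Finset.sum_add_distrib]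
    refine Finset.sum_congr rfl (fun k _ => ?_)
    have hodd : Odd (2 * (k : ℤ) + 1) := ⟨k, rfl⟩
    have hs := sin_ne_zero_of_odd hp0 hodd
    unfold ct
    rw [Real.cot_eq_cos_div_sin]
    push_cast at hs ⊢
    set a : ℝ := π * (2 * (k : ℝ) + 1) / (2 * p) with ha
    have e1 : π * (2 * (k : ℝ) + 1) * ((x : ℝ) + 1) / p = a * (2 * x + 1) + a := by
      rw [ha]; field_simp; ring
    have e2 : π * (2 * (k : ℝ) + 1) * (x : ℝ) / p = a * (2 * x + 1) - a := by
      rw [ha]; field_simp; ring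
    rw [e1, e2, Real.sin_add, Real.sin_sub, Real.cos_add, Real.cos_sub]
    field_simp
    ring
  induction x with
  | zero => simp
  | succ x ih =>
    rw [step x, ih, sum_cos hp0, sum_cos hp0]
    by_cases h1 : p ∣ x
    · have h2 : ¬ p ∣ x + 1 := by
        intro h
        have := (Nat.dvd_add_right h1).mp h
        have := Nat.le_of_dvd one_pos this
        omega
      have h3 : (x + 1) / p = x / p := by
        rw [Nat.succ_div]; simp [h2]
      simp [h1, h2, h3]
    · by_cases h2 : p ∣ x + 1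
      · have h3 : (x + 1) / p = x / p + 1 := by
          rw [Nat.succ_div]; simp [h2]
        simp [h1, h2, h3, pow_succ]
      · have h3 : (x + 1) / p = x / p := by
          rw [Nat.succ_div]; simp [h2]
        simp [h1, h2, h3]

end Pool.Agent.ThetaSum
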